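import Mathlib

/-!
A cyclic extension `E / k` inside an infinite Galois extension `F / k`.
-/

namespace Pool.Agent.Lib.MP_c385f6_ag

open Finset

section
variable {k E F : Type*} [Field k] [Field E] [Field F] [Algebra k E] [Algebra k F]
  [FiniteDimensional k E] [IsGalois k E] [IsGalois k F]

/-- In a cyclic extension the norm is the product over the powers of a generator. -/
theorem norm_eq_prod_pow {σ : E ≃ₐ[k] E} (hσ : ∀ g, g ∈ Subgroup.zpowers σ) (z : E) :
    algebraMap k E (Algebra.norm k z) = ∏ i ∈ range (Module.finrank k E), (σ ^ i) z := by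
  classical
  rw [Algebra.norm_eq_prod_automorphisms]
  have hord : orderOf σ = Module.finrank k E := by
    rw [orderOf_eq_card_of_forall_mem_zpowers hσ, IsGalois.card_aut_eq_finrank]
  have hinj : Set.InjOn (fun i => σ ^ i) (range (Module.finrank k E) : Finset ℕ) := by
    intro i hi j hj hij
    rw [← hord] at hi hj
    exact pow_injOn_Iio_orderOf (by simpa using hi) (by simpa using hj) hij
  have himg : (range (Module.finrank k E)).image (fun i => σ ^ i) = univ := by
    apply Finset.eq_univ_of_card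
    rw [Finset.card_image_of_injOn hinj, card_range, ← IsGalois.card_aut_eq_finrank k E,
      Nat.card_eq_fintype_card]
  rw [← himg, Finset.prod_image hinj]

theorem pow_finrank {σ : E ≃ₐ[k] E} (hσ : ∀ g, g ∈ Subgroup.zpowers σ) :
    σ ^ Module.finrank k E = 1 := by
  have hord : orderOf σ = Module.finrank k E := by
    rw [orderOf_eq_card_of_forall_mem_zpowers hσ, IsGalois.card_aut_eq_finrank]
  rw [← hord, pow_orderOf_eq_one]

/-- Lift an automorphism of `E` to `F`. -/
theorem exists_lift (φ : E →ₐ[k] F) (σ : E ≃ₐ[k] E) :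
    ∃ τ : F ≃ₐ[k] F, ∀ z : E, τ (φ z) = φ (σ z) := by
  let _ : Algebra E F := φ.toRingHom.toAlgebra
  have : IsScalarTower k E F := IsScalarTower.of_algebraMap_eq (fun c => (φ.commutes c).symm)
  refine ⟨σ.liftNormal F, fun z => ?_⟩
  exact AlgEquiv.liftNormal_commutes σ F z

theorem lift_pow {φ : E →ₐ[k] F} {σ : E ≃ₐ[k] E} {τ : F ≃ₐ[k] F}
    (hτ : ∀ z : E, τ (φ z) = φ (σ z)) (i : ℕ) (z : E) : (τ ^ i) (φ z) = φ ((σ ^ i) z) := by
  induction i with
  | zero => simp
  | succ m ih => rw [pow_succ', AlgEquiv.mul_apply, ih, hτ, pow_succ', AlgEquiv.mul_apply]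

theorem exists_norm_eq (φ : E →ₐ[k] F) {θ : E} (hθ : Algebra.adjoin k {θ} = ⊤)
    {σ : E ≃ₐ[k] E} (hσ : ∀ g, g ∈ Subgroup.zpowers σ) {τ : F ≃ₐ[k] F}
    (hτ : ∀ z : E, τ (φ z) = φ (σ z)) {b : k} (d : F)
    (hd : ∀ g : F ≃ₐ[k] F, g (φ θ) = φ θ → g d = d)
    (hprod : ∏ i ∈ range (Module.finrank k E), (τ ^ i) d = algebraMap k F b) :
    ∃ z : E, Algebra.norm k z = b := by
  have hd1 : d ∈ φ.fieldRange := by
    rw [← InfiniteGalois.fixedField_fixingSubgroup φ.fieldRange,
      IntermediateField.mem_fixedField_iff]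
    intro g hg
    apply hd
    rw [IntermediateField.mem_fixingSubgroup_iff] at hg
    exact hg _ ⟨θ, rfl⟩
  obtain ⟨z, hz⟩ := hd1
  have hz' : φ z = d := hz
  subst hz'
  refine ⟨z, ?_⟩
  apply (algebraMap k E).injective
  rw [norm_eq_prod_pow hσ]
  have hφinj : Function.Injective φ := φ.toRingHom.injective
  apply hφinj
  rw [map_prod, φ.commutes, ← hprod]
  refine Finset.prod_congr rfl fun i _ => ?_
  exact (lift_pow hτ i z).symm

/-- An automorphism fixing `φ θ` fixes `φ z` for every `z` in `k[θ]`. -/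
theorem fix_of_fix (φ : E →ₐ[k] F) {θ : E} (hθ : Algebra.adjoin k {θ} = ⊤)
    {g : F ≃ₐ[k] F} (hg : g (φ θ) = φ θ) (z : E) : g (φ z) = φ z := by
  have h1 : (g.toAlgHom.comp φ) = φ := by
    apply AlgHom.ext_of_adjoin_eq_top hθ
    intro y hy
    rw [Set.mem_singleton_iff.1 hy]
    exact hg
  exact DFunLike.congr_fun h1 z

/-- The conjugates of a generator are distinct. -/
theorem pow_gen_injOn {θ : E} (hθ : Algebra.adjoin k {θ} = ⊤)
    {σ : E ≃ₐ[k] E} (hσ : ∀ g, g ∈ Subgroup.zpowers σ) {i j : ℕ}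
    (hi : i < Module.finrank k E) (hj : j < Module.finrank k E)
    (h : (σ ^ i) θ = (σ ^ j) θ) : i = j := by
  have hord : orderOf σ = Module.finrank k E := by
    rw [orderOf_eq_card_of_forall_mem_zpowers hσ, IsGalois.card_aut_eq_finrank]
  have h1 : ((σ ^ i : E ≃ₐ[k] E) : E →ₐ[k] E) = ((σ ^ j : E ≃ₐ[k] E) : E →ₐ[k] E) := by
    apply AlgHom.ext_of_adjoin_eq_top hθ
    intro y hy
    rw [Set.mem_singleton_iff.1 hy]
    exact h
  have h2 : σ ^ i = σ ^ j := by
    ext z
    exact DFunLike.congr_fun h1 z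
  exact pow_injOn_Iio_orderOf (by simpa [hord] using hi) (by simpa [hord] using hj) h2

/-- The minimal polynomial of a generator of a cyclic extension. -/
theorem minpoly_eq_prod {θ : E} (hθ : Algebra.adjoin k {θ} = ⊤)
    {σ : E ≃ₐ[k] E} (hσ : ∀ g, g ∈ Subgroup.zpowers σ) :
    (minpoly k θ).map (algebraMap k E) =
      ∏ i ∈ range (Module.finrank k E), (Polynomial.X - Polynomial.C ((σ ^ i) θ)) := by
  classical
  have hint : IsIntegral k θ := Algebra.IsIntegral.isIntegral θ
  have hdeg : (minpoly k θ).natDegree = Module.finrank k E := by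
    have h1 := IntermediateField.adjoin.finrank hint
    have h2 : IntermediateField.adjoin k {θ} = ⊤ := by
      rw [← IntermediateField.toSubalgebra_inj,
        IntermediateField.adjoin_simple_toSubalgebra_of_isAlgebraic hint.isAlgebraic, hθ]
      rfl
    rw [← h1, h2, IntermediateField.finrank_top']
  refine Polynomial.eq_of_monic_of_dvd_of_natDegree_le
    (Polynomial.monic_prod_of_monic _ _ fun i _ => Polynomial.monic_X_sub_C _)
    ((minpoly.monic hint).map _) ?_ ?_
  · refine Finset.prod_dvd_of_coprime ?_ ?_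
    · intro i hi j hj hij
      apply Polynomial.isCoprime_X_sub_C_of_isUnit_sub
      rw [isUnit_iff_ne_zero, sub_ne_zero]
      intro h
      exact hij (pow_gen_injOn hθ hσ (by simpa using hi) (by simpa using hj) h)
    · intro i _
      rw [Polynomial.dvd_iff_isRoot, Polynomial.IsRoot, Polynomial.eval_map_algebraMap]
      have h1 := Polynomial.aeval_algHom_apply ((σ ^ i : E ≃ₐ[k] E) : E →ₐ[k] E) θ (minpoly k θ)
      rw [minpoly.aeval, map_zero] at h1
      exact h1
  · rw [Polynomial.natDegree_map, hdeg, Polynomial.natDegree_prod_of_monic _ _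
      fun i _ => Polynomial.monic_X_sub_C _]
    simp

end

end Pool.Agent.Lib.MP_c385f6_ag
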