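import Mathlib

/-!
Hilbert 90 for a (possibly infinite) Galois extension `F / k` and a subgroup `N` of its Galois
group: a locally trivial 1-cocycle of `N` with values in `F` is of the form `g κ / κ`.
-/

namespace Pool.Agent.Lib.MP_c385f6_ag

open IntermediateField

theorem exists_kummer {k F : Type*} [Field k] [Field F] [Algebra k F] [IsGalois k F]
    (N : Subgroup (F ≃ₐ[k] F)) (χ : (F ≃ₐ[k] F) → F)
    (h0 : ∀ g ∈ N, χ g ≠ 0)
    (hmul : ∀ g ∈ N, ∀ h ∈ N, χ (g * h) = χ g * g (χ h))
    (hcont : {g : F ≃ₐ[k] F | g ∈ N ∧ χ g = 1} ∈ nhds (1 : F ≃ₐ[k] F)) :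
    ∃ κ : F, κ ≠ 0 ∧ ∀ g ∈ N, g κ = χ g * κ := by
  classical
  obtain ⟨E, hEfin, hEnorm, hE⟩ := (krullTopology_mem_nhds_one_iff_of_normal k F _).1 hcont
  have := hEfin
  have := hEnorm
  -- restriction to E
  let r : (F ≃ₐ[k] F) →* (E ≃ₐ[k] E) := AlgEquiv.restrictNormalHom E
  have hr : ∀ (g : F ≃ₐ[k] F) (e : E), ((r g) e : F) = g e := by
    intro g e
    exact AlgEquiv.restrictNormal_commutes g E e
  have hrs : Function.Surjective r := AlgEquiv.restrictNormalHom_surjective F
  have hker : ∀ g : F ≃ₐ[k] F, r g = 1 → g ∈ N ∧ χ g = 1 := by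
    intro g hg
    apply hE
    rw [SetLike.mem_coe, IntermediateField.mem_fixingSubgroup_iff]
    intro x hx
    have := hr g ⟨x, hx⟩
    rw [hg] at this
    simpa using this.symm
  have hwell : ∀ g ∈ N, ∀ h : F ≃ₐ[k] F, r g = r h → h ∈ N ∧ χ h = χ g := by
    intro g hg h hgh
    have h1 : r (g⁻¹ * h) = 1 := by rw [map_mul, map_inv, hgh]; simp
    obtain ⟨h2, h3⟩ := hker _ h1
    have h4 : h = g * (g⁻¹ * h) := by group
    constructor
    · rw [h4]; exact N.mul_mem hg h2
    · rw [h4, hmul g hg _ h2, h3, map_one, mul_one]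
  -- lifts
  choose lift hlift using hrs
  let Nbar : Finset (E ≃ₐ[k] E) := Finset.univ.filter (fun h => lift h ∈ N)
  have hN1 : ∀ g ∈ N, r g ∈ Nbar ∧ χ (lift (r g)) = χ g := by
    intro g hg
    have := hwell g hg (lift (r g)) (hlift _).symm
    exact ⟨by simp [Nbar, this.1], this.2⟩
  -- Dedekind independence
  have hlin : LinearIndependent F (fun h : (E ≃ₐ[k] E) => (fun e : E => ((h e : E) : F))) := by
    have h1 := linearIndependent_monoidHom E F
    let φ : (E ≃ₐ[k] E) → (E →* F) := fun h =>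
      ((algebraMap E F : E →+* F) : E →* F).comp ((h : E →+* E) : E →* E)
    have hφ : Function.Injective φ := by
      intro h h' hh
      ext e
      have := DFunLike.congr_fun hh e
      simpa [φ] using this
    exact h1.comp φ hφ
  have hex : ∃ e : E, (∑ h ∈ Nbar, (χ (lift h)) * ((h e : E) : F)) ≠ 0 := by
    by_contra hcon
    push Not at hcon
    have hsum : (∑ h ∈ Nbar, (χ (lift h)) • (fun e : E => ((h e : E) : F))) = 0 := by
      funext e
      simpa using hcon e
    have := (linearIndependent_iff'.1 hlin) Nbar (fun h => (χ (lift h))) hsum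
      (r 1) (hN1 1 N.one_mem).1
    have h2 := h0 1 N.one_mem
    rw [← (hN1 1 N.one_mem).2] at h2
    exact h2 this
  obtain ⟨e, he⟩ := hex
  refine ⟨_, inv_ne_zero he, ?_⟩
  intro g hg
  have hmain : χ g * g (∑ h ∈ Nbar, (χ (lift h)) * ((h e : E) : F)) =
      ∑ h ∈ Nbar, (χ (lift h)) * ((h e : E) : F) := by
    rw [map_sum, Finset.mul_sum]
    refine Finset.sum_bij' (fun h _ => r g * h) (fun h _ => (r g)⁻¹ * h) ?_ ?_ ?_ ?_ ?_
    · intro h hh
      have hh' : lift h ∈ N := by simpa [Nbar] using hh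
      have h1 : r (g * lift h) = r g * h := by rw [map_mul, hlift]
      have := (hN1 (g * lift h) (N.mul_mem hg hh')).1
      rwa [h1] at this
    · intro h hh
      have hh' : lift h ∈ N := by simpa [Nbar] using hh
      have h1 : r (g⁻¹ * lift h) = (r g)⁻¹ * h := by rw [map_mul, hlift, map_inv]
      have := (hN1 (g⁻¹ * lift h) (N.mul_mem (N.inv_mem hg) hh')).1
      rwa [h1] at this
    · intro h _
      simp
    · intro h _
      simp
    · intro h hh
      have hh' : lift h ∈ N := by simpa [Nbar] using hh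
      have h1 : r (g * lift h) = r g * h := by rw [map_mul, hlift]
      have h2 := (hN1 (g * lift h) (N.mul_mem hg hh')).2
      rw [h1, hmul g hg _ hh'] at h2
      have h3 : (((r g * h) e : E) : F) = g ((h e : E) : F) := by
        rw [AlgEquiv.mul_apply, hr]
      rw [h2, map_mul, h3]
      ring
  have hg0 : g (∑ h ∈ Nbar, (χ (lift h)) * ((h e : E) : F)) ≠ 0 := by
    intro h
    exact he (g.injective (by rw [h, map_zero]))
  rw [map_inv₀]
  rw [inv_eq_iff_eq_inv, mul_inv, inv_inv]
  have hχ0 := h0 g hg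
  field_simp
  rw [mul_comm]
  exact hmain

end Pool.Agent.Lib.MP_c385f6_ag
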