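import Mathlib
import Pool.Agent.Lib.MP_c385f6_ag.Kummer

/-!
The descent lemma: a splitting of a Heisenberg type extension makes `b` a norm.
-/

namespace Pool.Agent.Lib.MP_c385f6_ag

open Finset

theorem descent {k F L : Type*} [Field k] [Field F] [Field L] [Algebra k F] [IsGalois k F]
    (ι : F →+* L) (s : (F ≃ₐ[k] F) → (L →+* L))
    (hs : ∀ g h z, s (g * h) z = s g (s h z))
    (hι : ∀ g c, s g (ι c) = ι (g c))
    {n : ℕ} (hn : n ≠ 0) {ξ : F} (hξ : IsPrimitiveRoot ξ n) (θ : F)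
    {b : F} (hb0 : b ≠ 0) (β₀ : F) (hβ₀ : β₀ ^ n = b)
    (δ : ℕ → L) (hδ0 : ∀ i, δ i ≠ 0) (hper : δ n = δ 0)
    (e : L) (he0 : e ≠ 0) (he : ∀ g, s g e = e)
    (hprod : ∏ i ∈ range n, δ i = ι b * e ^ n)
    (hfix : ∀ g : F ≃ₐ[k] F, g θ = θ → ∀ i, s g (δ i) = δ i)
    (τ : F ≃ₐ[k] F) (hτN : ∀ g : F ≃ₐ[k] F, g θ = θ → g (τ θ) = τ θ)
    (hτn : (τ ^ n) θ = θ)
    (hshift : ∀ i, s τ (δ i) = δ (i + 1))
    (γ : L) (hγ : γ ^ n = ∏ i ∈ range n, δ i ^ i)
    (hcont : {g : F ≃ₐ[k] F | s g γ = γ ∧ g θ = θ} ∈ nhds (1 : F ≃ₐ[k] F)) :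
    ∃ d : F, (∀ g : F ≃ₐ[k] F, g θ = θ → g d = d) ∧
      ∏ i ∈ range n, (τ ^ i) d = b := by
  classical
  have hγ0 : γ ≠ 0 := by
    intro h0
    rw [h0, zero_pow hn] at hγ
    exact (Finset.prod_ne_zero_iff.2 fun i _ => pow_ne_zero i (hδ0 i)) hγ.symm
  have hζL : IsPrimitiveRoot (ι ξ) n := hξ.map_of_injective ι.injective
  have : NeZero n := ⟨hn⟩
  have hroot : ∀ u v : L, v ≠ 0 → u ^ n = v ^ n → ∃ c : F, c ≠ 0 ∧ c ^ n = 1 ∧
      u = ι c * v := by
    intro u v hv huv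
    have h1 : (u / v) ^ n = 1 := by rw [div_pow, huv, div_self (pow_ne_zero _ hv)]
    obtain ⟨i, _, hi⟩ := hζL.eq_pow_of_pow_eq_one h1
    refine ⟨ξ ^ i, pow_ne_zero _ (hξ.ne_zero hn), ?_, ?_⟩
    · rw [← pow_mul, mul_comm, pow_mul, hξ.pow_eq_one, one_pow]
    · rw [map_pow, hi]; field_simp
  -- the cocycle
  have hχex : ∀ g : F ≃ₐ[k] F, g θ = θ → ∃ c : F, c ≠ 0 ∧ s g γ = ι c * γ := by
    intro g hg
    have h1 : (s g γ) ^ n = γ ^ n := by
      rw [← map_pow, hγ, map_prod]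
      refine Finset.prod_congr rfl fun i _ => ?_
      rw [map_pow, hfix g hg]
    obtain ⟨c, hc, _, hc2⟩ := hroot _ _ hγ0 h1
    exact ⟨c, hc, hc2⟩
  choose! χ hχ0 hχ using hχex
  -- normalise beta
  have hτγ : (s τ γ * ι β₀ * e) ^ n = (γ * δ 0) ^ n := by
    have h1 : (s τ γ) ^ n = ∏ i ∈ range n, δ (i + 1) ^ i := by
      rw [← map_pow, hγ, map_prod]
      refine Finset.prod_congr rfl fun i _ => ?_
      rw [map_pow, hshift]
    have h2 : (∏ i ∈ range n, δ (i + 1) ^ i) * (∏ i ∈ range n, δ (i + 1)) =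
        ∏ i ∈ range n, δ (i + 1) ^ (i + 1) := by
      rw [← Finset.prod_mul_distrib]
      exact Finset.prod_congr rfl fun i _ => (pow_succ _ _).symm
    have h3 : ∏ i ∈ range n, δ (i + 1) ^ (i + 1) = (∏ i ∈ range n, δ i ^ i) * δ 0 ^ n := by
      have h4 := Finset.prod_range_succ' (fun i => δ i ^ i) n
      have h5 := Finset.prod_range_succ (fun i => δ i ^ i) n
      rw [h5, hper] at h4
      simpa using h4.symm
    have h7 : ∏ i ∈ range n, δ (i + 1) = ∏ i ∈ range n, δ i := by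
      have h4 := Finset.prod_range_succ' (fun i => δ i) n
      have h5 := Finset.prod_range_succ (fun i => δ i) n
      rw [h5, hper] at h4
      exact (mul_right_cancel₀ (hδ0 0) h4).symm
    rw [h7, hprod] at h2
    rw [mul_pow, mul_pow, ← map_pow ι, hβ₀, h1, mul_assoc, h2, h3, mul_pow, hγ]
  obtain ⟨c₀, hc₀, hc₀l, hc₀'⟩ := hroot _ _ (mul_ne_zero hγ0 (hδ0 0)) hτγ
  obtain ⟨β, hβ0, hβ, hτβ⟩ : ∃ β : F, β ≠ 0 ∧ β ^ n = b ∧
      s τ γ * ι β * e = γ * δ 0 := by
    have hβ₀0 : β₀ ≠ 0 := by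
      intro h
      rw [h, zero_pow hn] at hβ₀
      exact hb0 hβ₀.symm
    refine ⟨c₀⁻¹ * β₀, mul_ne_zero (inv_ne_zero hc₀) hβ₀0, ?_, ?_⟩
    · rw [mul_pow, hβ₀, inv_pow, hc₀l, inv_one, one_mul]
    · have hcL : ι c₀ ≠ 0 := by
        intro h; exact hc₀ (ι.injective (by rw [h, map_zero]))
      rw [map_mul, map_inv₀]
      calc s τ γ * ((ι c₀)⁻¹ * ι β₀) * e
          = (ι c₀)⁻¹ * (s τ γ * ι β₀ * e) := by ring
        _ = _ := by rw [hc₀']; field_simp
  have hβL : ι β ≠ 0 := by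
    intro h; exact hβ0 (ι.injective (by rw [h, map_zero]))
  -- the stabiliser
  let N : Subgroup (F ≃ₐ[k] F) :=
    { carrier := {g | g θ = θ}
      mul_mem' := by
        intro g h hg hh
        simp only [Set.mem_ofPred_eq] at *
        rw [AlgEquiv.mul_apply, hh, hg]
      one_mem' := by simp
      inv_mem' := by
        intro g hg
        simp only [Set.mem_ofPred_eq] at *
        have : g⁻¹ (g θ) = θ := by rw [← AlgEquiv.mul_apply, inv_mul_cancel]; simp
        rwa [hg] at this }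
  have hN : ∀ g, g ∈ N ↔ g θ = θ := fun g => Iff.rfl
  have hcancel : ∀ c c' : F, ι c * γ = ι c' * γ → c = c' := by
    intro c c' h
    exact ι.injective (mul_right_cancel₀ hγ0 h)
  have hmul : ∀ g ∈ N, ∀ h ∈ N, χ (g * h) = χ g * g (χ h) := by
    intro g hg h hh
    apply hcancel
    rw [← hχ (g * h) (N.mul_mem hg hh), hs, hχ h hh, map_mul, hχ g hg, hι, map_mul]
    ring
  obtain ⟨κ, hκ0, hκ⟩ := exists_kummer N χ hχ0 hmul
    (by
      refine Filter.mem_of_superset hcont ?_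
      rintro g ⟨h1, h2⟩
      refine ⟨h2, ?_⟩
      apply hcancel
      rw [← hχ g h2, h1, map_one, one_mul])
  -- the element
  refine ⟨τ κ * β / κ, ?_, ?_⟩
  · intro g hg
    have hg' : (τ⁻¹ * g * τ) θ = θ := by
      rw [AlgEquiv.mul_apply, AlgEquiv.mul_apply, hτN g hg, ← AlgEquiv.mul_apply, inv_mul_cancel]
      simp
    have h1 : g * τ = τ * (τ⁻¹ * g * τ) := by group
    have h2 : τ (χ (τ⁻¹ * g * τ)) * g β = χ g * β := by
      apply ι.injective
      have e1 : s (g * τ) γ = ι (τ (χ (τ⁻¹ * g * τ))) * s τ γ := by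
        rw [h1, hs, hχ _ hg', map_mul, hι]
      have e2 : s (g * τ) γ * ι (g β) * e = ι (χ g) * (γ * δ 0) := by
        rw [hs, ← hι, ← he g, ← map_mul, ← map_mul, hτβ, map_mul, hχ g hg, hfix g hg]
        ring
      rw [e1, ← hτβ] at e2
      have hsτ : s τ γ ≠ 0 := by
        intro h
        exact hγ0 ((s τ).injective (by rw [h, map_zero]))
      have e3 : s τ γ * e * (ι (τ (χ (τ⁻¹ * g * τ))) * ι (g β)) =
          s τ γ * e * (ι (χ g) * ι β) := by
        linear_combination e2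
      rw [map_mul, map_mul]
      exact mul_left_cancel₀ (mul_ne_zero hsτ he0) e3
    have h3 : g (τ κ) = τ (χ (τ⁻¹ * g * τ)) * τ κ := by
      rw [← AlgEquiv.mul_apply, h1, AlgEquiv.mul_apply, hκ _ hg', map_mul]
    rw [map_div₀, map_mul, h3, hκ g hg, mul_right_comm, h2]
    have hc : χ g ≠ 0 := hχ0 g hg
    field_simp
  · -- powers of tau
    have hpow : ∀ m : ℕ, s (τ ^ m) γ * ι (∏ i ∈ range m, (τ ^ i) β) * e ^ m =
        γ * ∏ i ∈ range m, δ i := by
      have hs1 : s 1 γ = γ := by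
        apply (s 1).injective
        rw [← hs, one_mul]
      intro m
      induction m with
      | zero => simp [hs1]
      | succ m ih =>
        have h1 := congrArg (s τ) ih
        have h2 : s τ (∏ i ∈ range m, δ i) = ∏ i ∈ range m, δ (i + 1) := by
          rw [map_prod]
          exact Finset.prod_congr rfl fun i _ => hshift i
        have h3 : τ (∏ i ∈ range m, (τ ^ i) β) = ∏ i ∈ range m, (τ ^ (i + 1)) β := by
          rw [map_prod]
          refine Finset.prod_congr rfl fun i _ => ?_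
          rw [pow_succ', AlgEquiv.mul_apply]
        rw [map_mul, map_mul, map_mul, map_pow, he, ← hs, ← pow_succ', hι, h2, h3] at h1
        rw [Finset.prod_range_succ' (fun i => (τ ^ i) β), Finset.prod_range_succ' (fun i => δ i)]
        simp only [pow_zero, AlgEquiv.one_apply]
        rw [map_mul]
        linear_combination (ι β * e) * h1 + (∏ i ∈ range m, δ (i + 1)) * hτβ
    have h1 := hpow n
    rw [hprod, hχ _ hτn] at h1
    have h2 : χ (τ ^ n) * ∏ i ∈ range n, (τ ^ i) β = b := by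
      apply ι.injective
      rw [map_mul]
      have : γ * e ^ n * (ι (χ (τ ^ n)) * ι (∏ i ∈ range n, (τ ^ i) β)) =
          γ * e ^ n * ι b := by linear_combination h1
      exact mul_left_cancel₀ (mul_ne_zero hγ0 (pow_ne_zero _ he0)) this
    have h3 : ∀ m : ℕ, (∏ i ∈ range m, (τ ^ i) (τ κ / κ)) * κ = (τ ^ m) κ := by
      intro m
      induction m with
      | zero => simp
      | succ m ih =>
        have hm0 : (τ ^ m) κ ≠ 0 := by
          intro h; exact hκ0 ((τ ^ m).injective (by rw [h, map_zero]))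
        rw [Finset.prod_range_succ, mul_right_comm, ih, map_div₀, ← AlgEquiv.mul_apply,
          ← pow_succ]
        field_simp
    have h4 := h3 n
    rw [hκ _ hτn] at h4
    have h5 := mul_right_cancel₀ hκ0 h4
    calc ∏ i ∈ range n, (τ ^ i) (τ κ * β / κ)
        = (∏ i ∈ range n, (τ ^ i) (τ κ / κ)) * ∏ i ∈ range n, (τ ^ i) β := by
          rw [← Finset.prod_mul_distrib]
          refine Finset.prod_congr rfl fun i _ => ?_
          rw [← map_mul]
          congr 1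
          ring
      _ = b := by rw [h5]; exact h2

end Pool.Agent.Lib.MP_c385f6_ag
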