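import Mathlib

/-!
Function field description of the étale fundamental group of a curve and of its sections.

`k` is a field of characteristic zero, `K / k` an extension field (the function field of a smooth
projective geometrically connected curve `X`), `Ω` an algebraic closure of `K`.
-/

namespace Pool.Agent.Lib.MP_c385f6_ag

/-- The inertia group over `K` of a valuation subring `B` of `Ω`, as a subgroup of
`Gal(Ω / K)`. -/
noncomputable def inertia (K : Type*) {Ω : Type*} [Field K] [Field Ω] [Algebra K Ω]
    (B : ValuationSubring Ω) : Subgroup (Ω ≃ₐ[K] Ω) :=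
  (B.inertiaSubgroup K).map (B.decompositionSubgroup K).subtype

/-- The maximal extension of `K` in `Ω` which is unramified over all places of `K` that are
trivial on `k`: the fixed field of all inertia groups of the valuation subrings of `Ω` that
contain `k`. Its Galois group over `K` is `π₁(X)`. -/
noncomputable def maxUnramified (k K Ω : Type*) [Field k] [Field K] [Field Ω] [Algebra k Ω]
    [Algebra K Ω] : IntermediateField K Ω :=
  IntermediateField.fixedField
    (⨆ B : {B : ValuationSubring Ω // ∀ c : k, algebraMap k Ω c ∈ B}, inertia K B.1)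

/-- `π₁(X) = Gal(K^ur / K)`. -/
abbrev PiOne (k K Ω : Type*) [Field k] [Field K] [Field Ω] [Algebra k Ω] [Algebra K Ω] :=
  maxUnramified k K Ω ≃ₐ[K] maxUnramified k K Ω

/-- `Gal_k = Gal(k̄ / k)`, `k̄` the algebraic closure of `k` in `Ω`. -/
abbrev AbsGal (k Ω : Type*) [Field k] [Field Ω] [Algebra k Ω] :=
  algebraicClosure k Ω ≃ₐ[k] algebraicClosure k Ω

/-- A section of `π₁(X) → Gal_k`: a continuous homomorphism `s : Gal_k → π₁(X)` such that
`s g` acts on the constants (the elements of `k̄`) as `g`. -/
structure IsSection (k K Ω : Type*) [Field k] [Field K] [Field Ω] [Algebra k Ω] [Algebra K Ω]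
    (s : AbsGal k Ω →* PiOne k K Ω) : Prop where
  continuous : Continuous s
  restrict : ∀ (g : AbsGal k Ω) (c : algebraicClosure k Ω) (z : maxUnramified k K Ω),
    (z : Ω) = c → ((s g z : maxUnramified k K Ω) : Ω) = g c

/-- A `k`-rational place of `K`: a valuation subring different from `K` that contains `k` and
whose residue field is `k`. -/
structure IsRationalPlace (k K : Type*) [Field k] [Field K] [Algebra k K]
    (A : ValuationSubring K) : Prop where
  ne_top : A ≠ ⊤
  const_mem : ∀ c : k, algebraMap k K c ∈ A
  residue : ∀ z ∈ A, ∃ c : k, A.valuation (z - algebraMap k K c) < 1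

end Pool.Agent.Lib.MP_c385f6_ag
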