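import Mathlib
import Pool.Agent.Lib.MP_c385f6_ag.Defs

/-!
Inertia groups of valuation subrings containing `k` act trivially on constants, and on `l`-th
roots of elements whose valuation is divisible by `l`.
-/

namespace Pool.Agent.Lib.MP_c385f6_ag

open IntermediateField

theorem inertia_valuation {K Ω : Type*} [Field K] [Field Ω] [Algebra K Ω]
    {B : ValuationSubring Ω} {σ : Ω ≃ₐ[K] Ω} (hσ : σ ∈ inertia K B) {z : Ω} (hz : z ∈ B) :
    B.valuation (σ z - z) < 1 := by
  obtain ⟨τ, hτ, rfl⟩ := hσ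
  have h1 : MulSemiringAction.toRingAut (B.decompositionSubgroup K) (IsLocalRing.ResidueField B)
      τ = 1 := hτ
  have h2 := RingEquiv.congr_fun h1 (IsLocalRing.residue B ⟨z, hz⟩)
  have h3 : τ • (IsLocalRing.residue B ⟨z, hz⟩) = IsLocalRing.residue B ⟨z, hz⟩ := h2
  rw [← IsLocalRing.ResidueField.residue_smul, ← sub_eq_zero, ← map_sub,
    IsLocalRing.residue_eq_zero_iff, ValuationSubring.valuation_lt_one_iff] at h3
  exact h3

section
variable {k Ω : Type*} [Field k] [Field Ω] [Algebra k Ω] {B : ValuationSubring Ω}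
  (hB : ∀ c : k, algebraMap k Ω c ∈ B)
include hB

theorem mem_of_algebraic {c : Ω} (hc : c ∈ algebraicClosure k Ω) : c ∈ B := by
  have hint : IsIntegral k c := hc
  let f : k →+* B := (algebraMap k Ω).codRestrict B hB
  have hint' : IsIntegral B c := by
    obtain ⟨p, hp, hpc⟩ := hint
    refine ⟨p.map f, hp.map f, ?_⟩
    rw [Polynomial.eval₂_map]
    exact hpc
  obtain ⟨y, hy⟩ := (IsIntegrallyClosed.isIntegral_iff (R := B) (K := Ω)).1 hint'
  rw [← hy]
  exact y.2

theorem valuation_eq_one {c : Ω} (hc : c ∈ algebraicClosure k Ω) (h0 : c ≠ 0) :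
    B.valuation c = 1 := by
  have h1 : B.valuation c ≤ 1 := (B.valuation_le_one_iff c).2 (mem_of_algebraic hB hc)
  have h2 : B.valuation c⁻¹ ≤ 1 :=
    (B.valuation_le_one_iff _).2 (mem_of_algebraic hB (inv_mem hc))
  rw [map_inv₀] at h2
  have h3 : B.valuation c ≠ 0 := (Valuation.ne_zero_iff _).2 h0
  exact le_antisymm h1 ((inv_le_one₀ (zero_lt_iff.2 h3)).1 h2)

end

section
variable {k K Ω : Type*} [Field k] [Field K] [Field Ω] [Algebra k K] [Algebra k Ω] [Algebra K Ω]
  [IsScalarTower k K Ω] {B : ValuationSubring Ω} (hB : ∀ c : k, algebraMap k Ω c ∈ B)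
  {σ : Ω ≃ₐ[K] Ω} (hσ : σ ∈ inertia K B)
include hB hσ

theorem inertia_const {c : Ω} (hc : c ∈ algebraicClosure k Ω) : σ c = c := by
  by_contra h
  have h1 := inertia_valuation hσ (mem_of_algebraic hB hc)
  have h2 : σ c ∈ algebraicClosure k Ω := by
    rw [mem_algebraicClosure_iff] at hc ⊢
    exact IsAlgebraic.algHom (σ.toAlgHom.restrictScalars k) hc
  rw [valuation_eq_one hB (sub_mem h2 hc) (sub_ne_zero.2 h)] at h1
  exact lt_irrefl _ h1

theorem inertia_root {l : ℕ} (hl : l ≠ 0) {u : Ω} (hu : B.valuation u = 1)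
    (hul : σ (u ^ l) = u ^ l) : σ u = u := by
  have hu0 : u ≠ 0 := (Valuation.ne_zero_iff B.valuation).1 (by rw [hu]; exact one_ne_zero)
  have h1 : (σ u / u) ^ l = 1 := by
    rw [div_pow, ← map_pow, hul, div_self (pow_ne_zero _ hu0)]
  have h2 : σ u / u ∈ algebraicClosure k Ω := by
    rw [mem_algebraicClosure_iff]
    refine ⟨Polynomial.X ^ l - Polynomial.C 1,
      (Polynomial.monic_X_pow_sub_C 1 hl).ne_zero, by simp [h1]⟩
  by_contra h
  have h3 : σ u / u - 1 ≠ 0 := by
    intro h4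
    apply h
    rw [sub_eq_zero, div_eq_one_iff_eq hu0] at h4
    exact h4
  have h4 := valuation_eq_one hB (sub_mem h2 (one_mem _)) h3
  have h5 : u ∈ B := (B.valuation_le_one_iff u).1 hu.le
  have h6 := inertia_valuation hσ h5
  have h7 : σ u - u = (σ u / u - 1) * u := by field_simp
  rw [h7, map_mul, h4, hu, one_mul] at h6
  exact lt_irrefl _ h6

/-- If `γ ^ l` and `θ` are fixed by `σ` and `γ`, `θ` have the same valuation, then `σ γ = γ`. -/
theorem inertia_kummer {l : ℕ} (hl : l ≠ 0) {γ θ : Ω} (hθ0 : θ ≠ 0) (hθ : σ θ = θ)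
    (hγ : σ (γ ^ l) = γ ^ l) (hv : B.valuation γ = B.valuation θ) : σ γ = γ := by
  have hv0 : B.valuation θ ≠ 0 := (Valuation.ne_zero_iff _).2 hθ0
  have h1 : B.valuation (γ / θ) = 1 := by rw [map_div₀, hv, div_self hv0]
  have h2 : σ ((γ / θ) ^ l) = (γ / θ) ^ l := by
    rw [div_pow, map_div₀, hγ, map_pow, hθ]
  have h3 := inertia_root hB hσ hl h1 h2
  rw [map_div₀, hθ] at h3
  have h4 := congrArg (fun z => z * θ) h3
  simpa [div_mul_cancel₀ _ hθ0] using h4

end

section
variable {k K Ω : Type*} [Field k] [Field K] [Field Ω] [Algebra k K] [Algebra k Ω] [Algebra K Ω]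
  [IsScalarTower k K Ω]

theorem mem_maxUnramified {z : Ω} (h : ∀ B : ValuationSubring Ω,
    (∀ c : k, algebraMap k Ω c ∈ B) → ∀ σ ∈ inertia K B, σ z = z) :
    z ∈ maxUnramified k K Ω := by
  rw [maxUnramified, IntermediateField.mem_fixedField_iff]
  intro f hf
  have h1 : (⨆ B : {B : ValuationSubring Ω // ∀ c : k, algebraMap k Ω c ∈ B}, inertia K B.1) ≤
      MulAction.stabilizer (Ω ≃ₐ[K] Ω) z := by
    refine iSup_le fun B σ hσ => ?_
    rw [MulAction.mem_stabilizer_iff]
    exact h B.1 B.2 σ hσ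
  exact MulAction.mem_stabilizer_iff.1 (h1 hf)

theorem const_mem_maxUnramified {c : Ω} (hc : c ∈ algebraicClosure k Ω) :
    c ∈ maxUnramified k K Ω :=
  mem_maxUnramified fun _ hB _ hσ => inertia_const hB hσ hc

end

end Pool.Agent.Lib.MP_c385f6_ag
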