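import Mathlib
import Pool.Agent.Lib.MP_c385f6_ag.Descent
import Pool.Agent.Lib.MP_c385f6_ag.Cyclic
import Pool.Agent.Lib.MP_c385f6_ag.Places

/-!
A section of `π₁(X) → Gal_k` together with an unramified Heisenberg cover makes `b` a norm.
-/

namespace Pool.Agent.Lib.MP_c385f6_ag

open Finset Polynomial

/-- The constants inside the maximal unramified extension. -/
noncomputable def constHom (k K Ω : Type*) [Field k] [Field K] [Field Ω] [Algebra k K]
    [Algebra k Ω] [Algebra K Ω] [IsScalarTower k K Ω] :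
    algebraicClosure k Ω →+* maxUnramified k K Ω :=
  ((algebraicClosure k Ω).val : algebraicClosure k Ω →+* Ω).codRestrict (maxUnramified k K Ω)
    fun c => const_mem_maxUnramified c.2

theorem coe_constHom (k K Ω : Type*) [Field k] [Field K] [Field Ω] [Algebra k K]
    [Algebra k Ω] [Algebra K Ω] [IsScalarTower k K Ω] (c : algebraicClosure k Ω) :
    ((constHom k K Ω c : maxUnramified k K Ω) : Ω) = c := rfl

section
variable {k K Ω E : Type*} [Field k] [CharZero k] [Field K] [Field Ω] [Algebra k K] [Algebra k Ω]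
  [Algebra K Ω] [IsScalarTower k K Ω] [IsAlgClosure K Ω] [Field E] [Algebra k E]
  [FiniteDimensional k E] [IsGalois k E]
  {σ : E ≃ₐ[k] E} (hσ : ∀ g, g ∈ Subgroup.zpowers σ) (φ : E →ₐ[k] algebraicClosure k Ω)
  {b : k} (hb : ∀ z : E, Algebra.norm k z ≠ b)
include hσ hb

/-- The elements only have to be fixed by the section. -/
theorem section_core {s : AbsGal k Ω →* PiOne k K Ω} (hs : IsSection k K Ω s)
    (δ : ℕ → maxUnramified k K Ω)
    (hδ : ∀ (g : AbsGal k Ω) (i j : ℕ), (∀ z : E, g (φ ((σ ^ i) z)) = φ ((σ ^ j) z)) →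
      s g (δ i) = δ j)
    (e : maxUnramified k K Ω) (hes : ∀ g, s g e = e) (he : e ≠ 0)
    (hprod : ∏ i ∈ range (Module.finrank k E), (δ i : Ω) =
      algebraMap k Ω b * (e : Ω) ^ (Module.finrank k E))
    (γ : Ω) (hγ : γ ^ (Module.finrank k E) = ∏ i ∈ range (Module.finrank k E),
      (δ i : Ω) ^ i)
    (hγm : γ ∈ maxUnramified k K Ω) : False := by
  classical
  obtain ⟨θ, hθF⟩ := Field.exists_primitive_element k E
  have hθ : Algebra.adjoin k {θ} = ⊤ := by
    rw [← IntermediateField.adjoin_simple_toSubalgebra_of_isAlgebraic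
      (Algebra.IsAlgebraic.isAlgebraic θ), hθF]
    rfl
  set n := Module.finrank k E with hndef
  have hn : n ≠ 0 := Module.finrank_pos.ne'
  have hac : IsAlgClosed Ω := IsAlgClosure.isAlgClosed K
  have hacF : IsAlgClosed (algebraicClosure k Ω) := IsAlgClosure.isAlgClosed k
  have hb0 : b ≠ 0 := by
    intro h
    apply hb 0
    rw [h]
    exact Algebra.norm_zero
  have hbF0 : algebraMap k (algebraicClosure k Ω) b ≠ 0 := by
    intro h
    exact hb0 ((algebraMap k (algebraicClosure k Ω)).injective (by rw [map_zero]; exact h))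
  obtain ⟨τ, hτ⟩ := exists_lift φ σ
  -- constants in the maximal unramified extension
  let ι : algebraicClosure k Ω →+* maxUnramified k K Ω := constHom k K Ω
  have hι : ∀ c, ((ι c : maxUnramified k K Ω) : Ω) = c := fun c => rfl
  let S : AbsGal k Ω → (maxUnramified k K Ω →+* maxUnramified k K Ω) := fun g =>
    ((s g : maxUnramified k K Ω →ₐ[K] maxUnramified k K Ω) :
      maxUnramified k K Ω →+* maxUnramified k K Ω)
  have hS : ∀ g z, S g z = s g z := fun g z => rfl
  have hSmul : ∀ g h z, S (g * h) z = S g (S h z) := by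
    intro g h z
    rw [hS, hS, hS, map_mul, AlgEquiv.mul_apply]
  have hSι : ∀ g c, S g (ι c) = ι (g c) := by
    intro g c
    apply Subtype.ext
    rw [hS, hι]
    exact hs.restrict g c (ι c) rfl
  have hSδ : ∀ g i j, (∀ z : E, g (φ ((σ ^ i) z)) = φ ((σ ^ j) z)) → S g (δ i) = δ j := hδ
  have hprod' : ∏ i ∈ range n, δ i = ι (algebraMap k _ b) * e ^ n := by
    apply Subtype.ext
    push_cast
    rw [hprod]
    rfl
  have hι0 : ι (algebraMap k _ b) ≠ 0 := by
    intro h
    exact hbF0 (ι.injective (by rw [map_zero]; exact h))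
  have hσn : σ ^ n = 1 := pow_finrank hσ
  have hper : ∀ i, δ (i + n) = δ i := by
    intro i
    have h1 := hSδ 1 (i + n) i (by
      intro z
      rw [pow_add, hσn, mul_one]
      rfl)
    rw [hS, map_one] at h1
    exact h1
  have hδ0' : ∀ i ∈ range n, δ i ≠ 0 := by
    have h1 : ∏ i ∈ range n, δ i ≠ 0 := by
      rw [hprod']; exact mul_ne_zero hι0 (pow_ne_zero _ he)
    exact Finset.prod_ne_zero_iff.1 h1
  have hδ0 : ∀ i, δ i ≠ 0 := by
    intro i
    have h1 : ∀ q m : ℕ, δ (m + q * n) = δ m := by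
      intro q
      induction q with
      | zero => intro m; simp
      | succ q ih => intro m; rw [add_mul, one_mul, ← add_assoc, hper, ih]
    have h2 := h1 (i / n) (i % n)
    rw [mul_comm, Nat.mod_add_div] at h2
    rw [h2]
    exact hδ0' _ (Finset.mem_range.2 (Nat.mod_lt _ (Nat.pos_of_ne_zero hn)))
  obtain ⟨β₀, hβ₀⟩ : ∃ β₀ : algebraicClosure k Ω, β₀ ^ n = algebraMap k _ b :=
    IsAlgClosed.exists_pow_nat_eq _ (Nat.pos_of_ne_zero hn)
  have hnF : NeZero (n : algebraicClosure k Ω) := by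
    have : CharZero (algebraicClosure k Ω) :=
      charZero_of_injective_algebraMap (algebraMap k (algebraicClosure k Ω)).injective
    exact ⟨Nat.cast_ne_zero.2 hn⟩
  obtain ⟨ξ, hξ⟩ := HasEnoughRootsOfUnity.exists_primitiveRoot (algebraicClosure k Ω) n
  let γ' : maxUnramified k K Ω := ⟨γ, hγm⟩
  have hcont : {g : AbsGal k Ω | S g γ' = γ' ∧ g (φ θ) = φ θ} ∈ nhds (1 : AbsGal k Ω) := by
    have h1 : IsOpen (MulAction.stabilizer (PiOne k K Ω) γ' : Set (PiOne k K Ω)) := by
      have : Algebra.IsAlgebraic K Ω := IsAlgClosure.isAlgebraic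
      have : Algebra.IsIntegral K (maxUnramified k K Ω) := inferInstance
      exact stabilizer_isOpen_of_isIntegral γ'
    have h2 : IsOpen (MulAction.stabilizer (AbsGal k Ω) (φ θ) : Set (AbsGal k Ω)) :=
      stabilizer_isOpen_of_isIntegral (φ θ)
    have h3 : IsOpen (s ⁻¹' (MulAction.stabilizer (PiOne k K Ω) γ' : Set (PiOne k K Ω))) :=
      h1.preimage hs.continuous
    refine (h3.inter h2).mem_nhds ?_ |> Filter.mem_of_superset <| ?_
    · constructor
      · show s 1 ∈ MulAction.stabilizer (PiOne k K Ω) γ'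
        rw [map_one]; exact Subgroup.one_mem _
      · exact Subgroup.one_mem _
    · rintro g ⟨hg1, hg2⟩
      exact ⟨MulAction.mem_stabilizer_iff.1 hg1, MulAction.mem_stabilizer_iff.1 hg2⟩
  obtain ⟨d, hd1, hd2⟩ := descent ι S hSmul hSι hn hξ (φ θ) hbF0 β₀ hβ₀ δ hδ0
    (by simpa using hper 0) e he hes
    hprod'
    (by
      intro g hg i
      exact hSδ g i i fun z => fix_of_fix φ hθ hg _)
    τ
    (by
      intro g hg
      rw [hτ]
      exact fix_of_fix φ hθ hg _)
    (by
      rw [lift_pow hτ, hσn]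
      rfl)
    (by
      intro i
      refine hSδ τ i (i + 1) fun z => ?_
      rw [hτ, pow_succ', AlgEquiv.mul_apply])
    γ'
    (by
      apply Subtype.ext
      push_cast
      exact hγ)
    hcont
  obtain ⟨z, hz⟩ := exists_norm_eq φ hθ hσ hτ d hd1 hd2
  exact hb z hz

theorem no_section_core (δ : ℕ → maxUnramified k K Ω)
    (hδ : ∀ (ρ : PiOne k K Ω) (i j : ℕ), (∀ z : E, ρ (constHom k K Ω (φ ((σ ^ i) z))) =
      constHom k K Ω (φ ((σ ^ j) z))) → ρ (δ i) = δ j)
    (e : K) (he : e ≠ 0)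
    (hprod : ∏ i ∈ range (Module.finrank k E), (δ i : Ω) =
      algebraMap k Ω b * algebraMap K Ω e ^ (Module.finrank k E))
    (γ : Ω) (hγ : γ ^ (Module.finrank k E) = ∏ i ∈ range (Module.finrank k E),
      (δ i : Ω) ^ i)
    (hγm : γ ∈ maxUnramified k K Ω)
    (s : AbsGal k Ω →* PiOne k K Ω) : ¬ IsSection k K Ω s := by
  intro hs
  refine section_core hσ φ hb hs δ ?_ (algebraMap K _ e) (fun g => (s g).commutes e) ?_ hprod γ hγ
    hγm
  · intro g i j hij
    refine hδ (s g) i j fun z => ?_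
    rw [← hij z]
    apply Subtype.ext
    exact hs.restrict g (φ ((σ ^ i) z)) (constHom k K Ω (φ ((σ ^ i) z))) rfl
  · intro h
    exact he ((algebraMap K (maxUnramified k K Ω)).injective (by rw [map_zero]; exact h))

end

/-- The value at `x` of the polynomial `σ ^ i (h)`, in `Ω`. -/
noncomputable def conj {k K Ω E : Type*} [Field k] [Field K] [Field Ω] [Algebra k Ω]
    [Algebra K Ω] [Field E] [Algebra k E] (φ : E →ₐ[k] algebraicClosure k Ω) (σ : E ≃ₐ[k] E)
    (h : E[X]) (x : K) (i : ℕ) : Ω :=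
  h.eval₂ (((algebraicClosure k Ω).val : algebraicClosure k Ω →+* Ω).comp
    ((φ : E →+* algebraicClosure k Ω).comp ((σ ^ i : E ≃ₐ[k] E) : E →+* E))) (algebraMap K Ω x)

section
variable {k K Ω E : Type*} [Field k] [CharZero k] [Field K] [Field Ω] [Algebra k K] [Algebra k Ω]
  [Algebra K Ω] [IsScalarTower k K Ω] [IsAlgClosure K Ω] [Field E] [Algebra k E]
  [FiniteDimensional k E] [IsGalois k E]
  {σ : E ≃ₐ[k] E} (hσ : ∀ g, g ∈ Subgroup.zpowers σ) (φ : E →ₐ[k] algebraicClosure k Ω)
  {b : k} (hb : ∀ z : E, Algebra.norm k z ≠ b)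
include hσ hb

/-- Version with a polynomial over `E`, evaluated at an element of `K`. -/
theorem no_section (h : E[X]) (x e : K) (he : e ≠ 0)
    (hprod : ∏ i ∈ range (Module.finrank k E), conj φ σ h x i =
      algebraMap k Ω b * algebraMap K Ω e ^ (Module.finrank k E))
    (γ : Ω) (hγ : γ ^ (Module.finrank k E) = ∏ i ∈ range (Module.finrank k E),
      (conj φ σ h x i) ^ i)
    (hγm : γ ∈ maxUnramified k K Ω)
    (s : AbsGal k Ω →* PiOne k K Ω) : ¬ IsSection k K Ω s := by
  let ψ : ℕ → (E →+* maxUnramified k K Ω) := fun i =>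
    (constHom k K Ω).comp
      ((φ : E →+* algebraicClosure k Ω).comp ((σ ^ i : E ≃ₐ[k] E) : E →+* E))
  let δ : ℕ → maxUnramified k K Ω := fun i => h.eval₂ (ψ i) (algebraMap K _ x)
  have hδ : ∀ i, ((δ i : maxUnramified k K Ω) : Ω) = conj φ σ h x i := by
    intro i
    exact Polynomial.hom_eval₂ h (ψ i)
      ((maxUnramified k K Ω).val : maxUnramified k K Ω →+* Ω) (algebraMap K _ x)
  refine no_section_core hσ φ hb δ ?_ e he ?_ γ ?_ hγm s
  · intro ρ i j hij
    have h1 := Polynomial.hom_eval₂ h (ψ i) ((ρ : maxUnramified k K Ω →ₐ[K] maxUnramified k K Ω) :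
      maxUnramified k K Ω →+* maxUnramified k K Ω) (algebraMap K _ x)
    have h2 : (((ρ : maxUnramified k K Ω →ₐ[K] maxUnramified k K Ω) :
      maxUnramified k K Ω →+* maxUnramified k K Ω)).comp (ψ i) = ψ j := by
      ext z
      exact congrArg _ (hij z)
    have h3 : ρ (algebraMap K _ x) = algebraMap K _ x := ρ.commutes x
    rw [h2] at h1
    refine h1.trans ?_
    show eval₂ (ψ j) (ρ (algebraMap K _ x)) h = _
    rw [h3]
  · rw [Finset.prod_congr rfl (fun i _ => hδ i), hprod]
  · rw [hγ]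
    exact Finset.prod_congr rfl fun i _ => by rw [hδ i]

/-- Version with a polynomial over `K`, evaluated at the conjugates of `θ`. -/
theorem no_section' {θ : E} (f : K[X]) (e : K) (he : e ≠ 0)
    (hprod : ∏ i ∈ range (Module.finrank k E), aeval (φ ((σ ^ i) θ) : Ω) f =
      algebraMap k Ω b * algebraMap K Ω e ^ (Module.finrank k E))
    (γ : Ω) (hγ : γ ^ (Module.finrank k E) = ∏ i ∈ range (Module.finrank k E),
      (aeval (φ ((σ ^ i) θ) : Ω) f) ^ i)
    (hγm : γ ∈ maxUnramified k K Ω)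
    (s : AbsGal k Ω →* PiOne k K Ω) : ¬ IsSection k K Ω s := by
  let δ : ℕ → maxUnramified k K Ω := fun i => aeval (constHom k K Ω (φ ((σ ^ i) θ))) f
  have hδ : ∀ i, ((δ i : maxUnramified k K Ω) : Ω) = aeval (φ ((σ ^ i) θ) : Ω) f := by
    intro i
    exact (Polynomial.aeval_algHom_apply (maxUnramified k K Ω).val
      (constHom k K Ω (φ ((σ ^ i) θ))) f).symm
  refine no_section_core hσ φ hb δ ?_ e he ?_ γ ?_ hγm s
  · intro ρ i j hij
    have h1 := Polynomial.aeval_algHom_apply
      (ρ : maxUnramified k K Ω →ₐ[K] maxUnramified k K Ω) (constHom k K Ω (φ ((σ ^ i) θ))) f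
    show ρ (aeval (constHom k K Ω (φ ((σ ^ i) θ))) f) =
      aeval (constHom k K Ω (φ ((σ ^ j) θ))) f
    rw [← hij θ]
    exact h1.symm
  · rw [Finset.prod_congr rfl (fun i _ => hδ i), hprod]
  · rw [hγ]
    exact Finset.prod_congr rfl fun i _ => by rw [hδ i]

end

end Pool.Agent.Lib.MP_c385f6_ag
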