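import Mathlib
import Pool.Agent.Lib.MP_c385f6_ag.Places

set_option autoImplicit false

/-!
Valuation subrings of an algebraic extension are localisations of the integral closure; a
criterion for elements of the inertia group.
-/

namespace Pool.Agent.Lib.MP_c385f6_ag

open Polynomial
open scoped Pointwise

section
variable {K Ω : Type*} [Field K] [Field Ω] [Algebra K Ω] [Algebra.IsAlgebraic K Ω]
  (A : ValuationSubring K)

/-- An algebraic element is the root of a polynomial over `A` one of whose coefficients is `1`. -/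
theorem exists_unit_poly (y : Ω) : ∃ f : K[X], (∀ i, f.coeff i ∈ A) ∧ (∃ m, f.coeff m = 1) ∧
    aeval y f = 0 := by
  classical
  obtain ⟨p, hp, hpy⟩ := Algebra.IsAlgebraic.isAlgebraic (R := K) y
  obtain ⟨m, hm, hmax⟩ := p.support.exists_max_image (fun i => A.valuation (p.coeff i))
    (Polynomial.support_nonempty.2 hp)
  have hm0 : p.coeff m ≠ 0 := Polynomial.mem_support_iff.1 hm
  refine ⟨C (p.coeff m)⁻¹ * p, fun i => ?_, ⟨m, ?_⟩, ?_⟩
  · rw [coeff_C_mul, ← A.valuation_le_one_iff, map_mul, map_inv₀]
    by_cases hi : i ∈ p.support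
    · exact inv_mul_le_one_of_le₀ (hmax i hi) zero_le
    · rw [Polynomial.notMem_support_iff.1 hi, map_zero, mul_zero]
      exact zero_le
  · rw [coeff_C_mul, inv_mul_cancel₀ hm0]
  · rw [map_mul, hpy, mul_zero]

omit [Algebra.IsAlgebraic K Ω] in
/-- An element of all valuation subrings above `A` is integral over `A`. -/
theorem isIntegral_of_forall {c : Ω}
    (h : ∀ V : ValuationSubring Ω, (∀ a ∈ A, algebraMap K Ω a ∈ V) → c ∈ V) :
    IsIntegral A c := by
  have h1 : c ∈ (⨅ V : {V : ValuationSubring Ω //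
      (Set.range (algebraMap A Ω)) ⊆ V.toSubring}, V.1.toSubring) := by
    rw [Subring.mem_iInf]
    rintro ⟨V, hV⟩
    exact h V fun a ha => hV ⟨⟨a, ha⟩, rfl⟩
  rw [iInf_valuationSubring_superset] at h1
  have h2 : IsIntegral (Subring.closure (Set.range (algebraMap A Ω))) c := h1
  have h3 : Subring.closure (Set.range (algebraMap A Ω)) = (algebraMap A Ω).range := by
    rw [← RingHom.coe_range, Subring.closure_eq]
  obtain ⟨p, hp, hpc⟩ := h2
  have hl : p.map (Subring.subtype _) ∈ Polynomial.lifts (algebraMap A Ω) := by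
    rw [Polynomial.lifts_iff_coeff_lifts]
    intro i
    rw [coeff_map]
    have h4 : (p.coeff i : Ω) ∈ (algebraMap A Ω).range := by
      rw [← h3]
      exact (p.coeff i).2
    exact h4
  obtain ⟨q, hq, -, hqm⟩ := Polynomial.lifts_and_natDegree_eq_and_monic hl (hp.map _)
  refine ⟨q, hqm, ?_⟩
  rw [← eval_map, hq, eval_map]
  exact hpc

/-- Elements of a valuation subring of an algebraic extension are quotients of integral
elements, the denominator being a unit. -/
theorem exists_quotient {V : ValuationSubring Ω} (hV : ∀ a ∈ A, algebraMap K Ω a ∈ V) {y : Ω}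
    (hy : y ∈ V) : ∃ b c : Ω, IsIntegral A b ∧ IsIntegral A c ∧ V.valuation c = 1 ∧
      y = b / c := by
  classical
  obtain ⟨f, hf, ⟨m, hm⟩, hfy⟩ := exists_unit_poly A y
  -- the tails of the polynomial
  let g : ℕ → K[X] := fun i => divX^[i] f
  have hg : ∀ i j, (g i).coeff j = f.coeff (i + j) := by
    intro i
    induction i with
    | zero => intro j; simp [g]
    | succ i IH =>
      intro j
      have : g (i + 1) = (g i).divX := Function.iterate_succ_apply' _ _ _
      rw [this, coeff_divX, IH]
      congr 1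
      ring
  let c : ℕ → Ω := fun i => aeval y (g i)
  have hc : ∀ i, c i = c (i + 1) * y + algebraMap K Ω (f.coeff i) := by
    intro i
    have h1 : g (i + 1) = (g i).divX := Function.iterate_succ_apply' _ _ _
    have h2 := divX_mul_X_add (g i)
    have h3 : c i = aeval y ((g i).divX * X + C ((g i).coeff 0)) := by rw [h2]
    rw [h3, map_add, map_mul, aeval_X, aeval_C, hg, ← h1, add_zero]
  have hc0 : c 0 = 0 := hfy
  have hint : ∀ i, IsIntegral A (c i) := by
    intro i
    refine isIntegral_of_forall A fun W hW => ?_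
    by_cases hyW : y ∈ W
    · show aeval y (g i) ∈ W
      rw [aeval_eq_sum_range]
      refine sum_mem fun j _ => ?_
      rw [Algebra.smul_def]
      refine mul_mem (hW _ ?_) (pow_mem hyW j)
      rw [hg]
      exact hf _
    · have hyi : y⁻¹ ∈ W := (W.mem_or_inv_mem y).resolve_left hyW
      have hy0 : y ≠ 0 := by
        rintro rfl
        exact hyW W.zero_mem
      induction i with
      | zero => rw [hc0]; exact W.zero_mem
      | succ i IH =>
        have h1 : c (i + 1) = (c i - algebraMap K Ω (f.coeff i)) * y⁻¹ := by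
          rw [hc i]
          field_simp
          ring
        rw [h1]
        exact mul_mem (sub_mem IH (hW _ (hf _))) hyi
  have hSV : ∀ s : Ω, IsIntegral A s → s ∈ V := by
    intro s hs
    obtain ⟨p, hp, hps⟩ := hs
    let φ : A →+* V := ((algebraMap K Ω).comp A.subtype).codRestrict V fun a => hV a a.2
    have h1 : IsIntegral V s := by
      refine ⟨p.map φ, hp.map φ, ?_⟩
      rw [eval₂_map]
      exact hps
    obtain ⟨t, ht⟩ := (IsIntegrallyClosed.isIntegral_iff (R := V) (K := Ω)).1 h1
    rw [← ht]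
    exact t.2
  have halg : ∀ a : K, a ∈ A → IsIntegral A (algebraMap K Ω a) := by
    intro a ha
    exact isIntegral_algebraMap (R := A) (x := ⟨a, ha⟩)
  have h1 : c m = c (m + 1) * y + 1 := by rw [hc m, hm, map_one]
  have hyv : V.valuation y ≤ 1 := (V.valuation_le_one_iff _).2 hy
  rcases ((V.valuation_le_one_iff _).2 (hSV _ (hint (m + 1)))).lt_or_eq with h2 | h2
  · have h3 : V.valuation (c (m + 1) * y) < 1 := by
      rw [map_mul]
      calc _ ≤ V.valuation (c (m + 1)) * 1 := by gcongr
        _ < 1 := by rwa [mul_one]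
    have h4 : V.valuation (c m) = 1 := by
      rw [h1, Valuation.map_add_eq_of_lt_right _ (by rwa [map_one]), map_one]
    rcases m with _ | m
    · rw [hc0, map_zero] at h4
      exact absurd h4 zero_ne_one
    · refine ⟨c m - algebraMap K Ω (f.coeff m), c (m + 1), (hint m).sub (halg _ (hf m)),
        hint (m + 1), h4, ?_⟩
      have h5 : c (m + 1) ≠ 0 := by
        intro h
        rw [h, map_zero] at h4
        exact zero_ne_one h4
      rw [hc m]
      field_simp
      ring
  · refine ⟨c m - 1, c (m + 1), (hint m).sub isIntegral_one, hint (m + 1), h2, ?_⟩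
    have h5 : c (m + 1) ≠ 0 := by
      intro h
      rw [h, map_zero] at h2
      exact zero_ne_one h2
    rw [h1]
    field_simp
    ring

omit [Algebra.IsAlgebraic K Ω] in
theorem integral_mem {V : ValuationSubring Ω} (hV : ∀ a ∈ A, algebraMap K Ω a ∈ V) {s : Ω}
    (hs : IsIntegral A s) : s ∈ V := by
  obtain ⟨p, hp, hps⟩ := hs
  let φ : A →+* V := ((algebraMap K Ω).comp A.subtype).codRestrict V fun a => hV a a.2
  have h1 : IsIntegral V s := by
    refine ⟨p.map φ, hp.map φ, ?_⟩
    rw [eval₂_map]
    exact hps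
  obtain ⟨t, ht⟩ := (IsIntegrallyClosed.isIntegral_iff (R := V) (K := Ω)).1 h1
  rw [← ht]
  exact t.2

theorem inertia_step {V : ValuationSubring Ω} (hV : ∀ a ∈ A, algebraMap K Ω a ∈ V)
    {σ : Ω ≃ₐ[K] Ω} (hσ : ∀ s : Ω, IsIntegral A s → V.valuation (σ s - s) < 1) {y : Ω}
    (hy : y ∈ V) : σ y ∈ V ∧ V.valuation (σ y - y) < 1 := by
  obtain ⟨b, c, hb, hc, hc1, rfl⟩ := exists_quotient A hV hy
  have hbV := integral_mem A hV hb
  have hcV := integral_mem A hV hc
  have h1 : V.valuation (σ c) = 1 := by
    have : σ c = (σ c - c) + c := by ring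
    rw [this, Valuation.map_add_eq_of_lt_right _ (by rw [hc1]; exact hσ c hc), hc1]
  have hc0 : c ≠ 0 := by
    intro h
    rw [h, map_zero] at hc1
    exact zero_ne_one hc1
  have hσc0 : σ c ≠ 0 := (_root_.map_ne_zero _).2 hc0
  have h2 : V.valuation (σ (b / c) - b / c) < 1 := by
    have h3 : σ (b / c) - b / c = ((σ b - b) * c - b * (σ c - c)) / (σ c * c) := by
      rw [map_div₀]
      field_simp
      ring
    rw [h3, map_div₀, map_mul V.valuation (σ c), h1, hc1, one_mul, div_one]
    refine (Valuation.map_sub _ _ _).trans_lt (max_lt ?_ ?_)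
    · rw [map_mul, hc1, mul_one]
      exact hσ b hb
    · rw [map_mul]
      calc _ ≤ 1 * V.valuation (σ c - c) := by
            gcongr
            exact (V.valuation_le_one_iff _).2 hbV
        _ < 1 := by
            rw [one_mul]
            exact hσ c hc
  refine ⟨?_, h2⟩
  have h4 : σ (b / c) = (σ (b / c) - b / c) + b / c := by ring
  rw [h4]
  exact add_mem ((V.valuation_le_one_iff _).1 h2.le) hy

/-- A criterion for elements of the inertia group. -/
theorem mem_inertia {V : ValuationSubring Ω} (hV : ∀ a ∈ A, algebraMap K Ω a ∈ V)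
    {σ : Ω ≃ₐ[K] Ω} (hσ : ∀ s : Ω, IsIntegral A s → V.valuation (σ s - s) < 1) :
    σ ∈ inertia K V := by
  have hσi : ∀ s : Ω, IsIntegral A s → V.valuation (σ⁻¹ s - s) < 1 := by
    intro s hs
    have hs' : IsIntegral A (σ⁻¹ s) := by
      have := hs.map ((σ⁻¹ : Ω ≃ₐ[K] Ω).toAlgHom.restrictScalars A)
      exact this
    have h1 := hσ _ hs'
    have h2 : σ (σ⁻¹ s) = s := by
      show (σ * σ⁻¹) s = s
      rw [mul_inv_cancel]
      rfl
    rw [h2, Valuation.map_sub_swap] at h1
    exact h1
  have hdec : σ ∈ V.decompositionSubgroup K := by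
    rw [MulAction.mem_stabilizer_iff]
    ext y
    rw [ValuationSubring.mem_smul_pointwise_iff_exists]
    constructor
    · rintro ⟨z, hz, rfl⟩
      exact (inertia_step A hV hσ hz).1
    · intro hy
      refine ⟨σ⁻¹ y, (inertia_step A hV hσi hy).1, ?_⟩
      show (σ * σ⁻¹) y = y
      rw [mul_inv_cancel]
      rfl
  refine ⟨⟨σ, hdec⟩, ?_, rfl⟩
  show MulSemiringAction.toRingAut (V.decompositionSubgroup K) (IsLocalRing.ResidueField V)
    ⟨σ, hdec⟩ = 1
  ext r
  obtain ⟨y, rfl⟩ := IsLocalRing.residue_surjective r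
  show (⟨σ, hdec⟩ : V.decompositionSubgroup K) • (IsLocalRing.residue V y) =
    IsLocalRing.residue V y
  rw [← IsLocalRing.ResidueField.residue_smul, ← sub_eq_zero, ← map_sub,
    IsLocalRing.residue_eq_zero_iff, ValuationSubring.valuation_lt_one_iff]
  exact (inertia_step A hV hσ y.2).2

end

end Pool.Agent.Lib.MP_c385f6_ag
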