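import Mathlib
import Pool.Agent.Lib.MP_c385f6_ag.Core

/-!
Elements of the maximal unramified extension that are fixed by a section: square roots of
elements with even divisor, up to a constant.
-/

namespace Pool.Agent.Lib.MP_c385f6_ag

section
variable {k K Ω : Type*} [Field k] [Field K] [Field Ω] [Algebra k K] [Algebra k Ω]
  [Algebra K Ω] [IsScalarTower k K Ω]

/-- Inertia groups act trivially on the maximal unramified extension. -/
theorem inertia_ur {B : ValuationSubring Ω} (hB : ∀ c : k, algebraMap k Ω c ∈ B)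
    {σ : Ω ≃ₐ[K] Ω} (hσ : σ ∈ inertia K B) {z : Ω} (hz : z ∈ maxUnramified k K Ω) : σ z = z := by
  rw [maxUnramified, IntermediateField.mem_fixedField_iff] at hz
  exact hz σ (le_iSup (fun B : {B : ValuationSubring Ω // ∀ c : k, algebraMap k Ω c ∈ B} =>
    inertia K B.1) ⟨B, hB⟩ hσ)

/-- If `γ ^ l` lies in the maximal unramified extension and `γ` has at each place the value of an
element of it, then `γ` lies in it. -/
theorem mem_ur_of_pow {l : ℕ} (hl : l ≠ 0) {γ : Ω} (hγ : γ ^ l ∈ maxUnramified k K Ω)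
    (h : ∀ B : ValuationSubring Ω, (∀ c : k, algebraMap k Ω c ∈ B) →
      ∃ θ ∈ maxUnramified k K Ω, θ ≠ 0 ∧ B.valuation γ = B.valuation θ) :
    γ ∈ maxUnramified k K Ω := by
  refine mem_maxUnramified fun B hB σ hσ => ?_
  obtain ⟨θ, hθ, hθ0, hv⟩ := h B hB
  exact inertia_kummer hB hσ hl hθ0 (inertia_ur hB hσ hθ) (inertia_ur hB hσ hγ) hv

end

section
variable {k K Ω : Type*} [Field k] [CharZero k] [Field K] [Field Ω] [Algebra k K] [Algebra k Ω]
  [Algebra K Ω] [IsScalarTower k K Ω] [IsAlgClosure K Ω]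
  {s : AbsGal k Ω →* PiOne k K Ω} (hs : IsSection k K Ω s)
include hs

/-- An algebraic element fixed by a section is a constant. -/
theorem fixed_const {z : maxUnramified k K Ω} (hz : ∀ g, s g z = z)
    (halg : (z : Ω) ∈ algebraicClosure k Ω) : ∃ c : k, (z : Ω) = algebraMap k Ω c := by
  have hac : IsAlgClosed Ω := IsAlgClosure.isAlgClosed K
  have hacF : IsAlgClosed (algebraicClosure k Ω) := IsAlgClosure.isAlgClosed k
  have h1 : ∀ g : AbsGal k Ω, g ⟨z, halg⟩ = (⟨z, halg⟩ : algebraicClosure k Ω) := by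
    intro g
    apply Subtype.ext
    have := hs.restrict g ⟨z, halg⟩ z rfl
    rw [hz g] at this
    exact this.symm
  obtain ⟨c, hc⟩ := (InfiniteGalois.mem_range_algebraMap_iff_fixed (k := k)
    (⟨z, halg⟩ : algebraicClosure k Ω)).2 h1
  refine ⟨c, ?_⟩
  have := congrArg (fun w : algebraicClosure k Ω => (w : Ω)) hc
  exact this.symm

/-- If `γ ^ 2 = u` is fixed by the section, then `d * u` has a square root fixed by the section
for some constant `d`. -/
theorem exists_twist {γ u : maxUnramified k K Ω} (hγ0 : γ ≠ 0) (hγ : γ ^ 2 = u)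
    (hu : ∀ g, s g u = u) : ∃ d : k, d ≠ 0 ∧ ∃ y : maxUnramified k K Ω,
      (y : Ω) ^ 2 = algebraMap k Ω d * (u : Ω) ∧ ∀ g, s g y = y := by
  classical
  have hac : IsAlgClosed Ω := IsAlgClosure.isAlgClosed K
  have hacF : IsAlgClosed (algebraicClosure k Ω) := IsAlgClosure.isAlgClosed k
  have hsign : ∀ g, s g γ = γ ∨ s g γ = -γ := by
    intro g
    have h1 : (s g γ) ^ 2 = γ ^ 2 := by rw [← map_pow, hγ, hu]
    exact sq_eq_sq_iff_eq_or_eq_neg.1 h1
  have hne : γ ≠ -γ := by
    intro h
    have h2 : (2 : maxUnramified k K Ω) * γ = 0 := by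
      rw [two_mul]; nth_rewrite 1 [h]; exact neg_add_cancel γ
    have hΩ : CharZero Ω := charZero_of_injective_algebraMap (algebraMap k Ω).injective
    have hc : CharZero (maxUnramified k K Ω) :=
      ⟨fun a b hab => by
        have := congrArg (fun w : maxUnramified k K Ω => (w : Ω)) hab
        push_cast at this
        exact Nat.cast_injective this⟩
    exact hγ0 ((mul_eq_zero.1 h2).resolve_left two_ne_zero)
  let χ : AbsGal k Ω → algebraicClosure k Ω := fun g => if s g γ = γ then 1 else -1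
  have hχ1 : ∀ g, s g γ = γ → χ g = 1 := fun g h => if_pos h
  have hχ2 : ∀ g, s g γ = -γ → χ g = -1 := fun g h => if_neg (by rw [h]; exact hne.symm)
  have hmul : ∀ g h : AbsGal k Ω, s (g * h) γ = s g (s h γ) := by
    intro g h
    rw [map_mul, AlgEquiv.mul_apply]
  obtain ⟨κ, hκ0, hκ⟩ := exists_kummer (k := k) (F := algebraicClosure k Ω) ⊤ χ
    (by
      intro g _
      rcases hsign g with h | h
      · rw [hχ1 g h]; exact one_ne_zero
      · rw [hχ2 g h]; exact neg_ne_zero.2 one_ne_zero)
    (by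
      intro g _ h _
      rcases hsign g with h1 | h1 <;> rcases hsign h with h2 | h2
      · rw [hχ1 g h1, hχ1 h h2, map_one, hχ1 (g * h) (by rw [hmul, h2, h1]), mul_one]
      · rw [hχ1 g h1, hχ2 h h2, map_neg, map_one, hχ2 (g * h) (by rw [hmul, h2, map_neg, h1]),
          one_mul]
      · rw [hχ2 g h1, hχ1 h h2, map_one, hχ2 (g * h) (by rw [hmul, h2, h1]), mul_one]
      · rw [hχ2 g h1, hχ2 h h2, map_neg, map_one,
          hχ1 (g * h) (by rw [hmul, h2, map_neg, h1, neg_neg])]
        ring)
    (by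
      have h1 : IsOpen (MulAction.stabilizer (PiOne k K Ω) γ : Set (PiOne k K Ω)) := by
        have : Algebra.IsAlgebraic K Ω := IsAlgClosure.isAlgebraic
        have : Algebra.IsIntegral K (maxUnramified k K Ω) := inferInstance
        exact stabilizer_isOpen_of_isIntegral γ
      have h3 : IsOpen (s ⁻¹' (MulAction.stabilizer (PiOne k K Ω) γ : Set (PiOne k K Ω))) :=
        h1.preimage hs.continuous
      refine h3.mem_nhds ?_ |> Filter.mem_of_superset <| ?_
      · show s 1 ∈ MulAction.stabilizer (PiOne k K Ω) γ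
        rw [map_one]; exact Subgroup.one_mem _
      · intro g hg
        exact ⟨trivial, hχ1 g (MulAction.mem_stabilizer_iff.1 hg)⟩)
  have hκ2 : ∀ g : AbsGal k Ω, g (κ ^ 2) = κ ^ 2 := by
    intro g
    rw [map_pow, hκ g trivial, mul_pow]
    rcases hsign g with h | h
    · rw [hχ1 g h]; ring
    · rw [hχ2 g h]; ring
  obtain ⟨d, hd⟩ := (InfiniteGalois.mem_range_algebraMap_iff_fixed (k := k)
    (κ ^ 2 : algebraicClosure k Ω)).2 hκ2
  have hdΩ : algebraMap k Ω d = (κ : Ω) ^ 2 := by
    have := congrArg (fun w : algebraicClosure k Ω => (w : Ω)) hd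
    push_cast at this
    exact this
  refine ⟨d, ?_, constHom k K Ω κ * γ, ?_, ?_⟩
  · rintro rfl
    rw [map_zero] at hd
    exact pow_ne_zero 2 hκ0 hd.symm
  · push_cast
    rw [mul_pow, coe_constHom, hdΩ, ← hγ]
    push_cast
    ring
  · intro g
    have h1 : s g (constHom k K Ω κ) = constHom k K Ω (g κ) := by
      apply Subtype.ext
      exact hs.restrict g κ (constHom k K Ω κ) rfl
    rw [map_mul, h1, hκ g trivial, map_mul]
    rcases hsign g with h | h
    · rw [hχ1 g h, h, map_one]; ring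
    · rw [hχ2 g h, h, map_neg, map_one]; ring

end

end Pool.Agent.Lib.MP_c385f6_ag
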