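import Mathlib
import Pool.Agent.Lib.MP_c385f6_ag.PlaceInertia
import Pool.Agent.Lib.MP_c385f6_ag.Twist

set_option autoImplicit false

/-!
A rational place gives a section.
-/

namespace Pool.Agent.Lib.MP_c385f6_ag

open Polynomial
open scoped Pointwise

section
variable {k K Ω : Type*} [Field k] [CharZero k] [Field K] [Field Ω] [Algebra k K] [Algebra k Ω]
  [Algebra K Ω] [IsScalarTower k K Ω] [IsAlgClosure K Ω]

/-- The action of the Galois group on the integral closure. -/
@[reducible] noncomputable def closureAction (A : ValuationSubring K) :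
    MulSemiringAction (Ω ≃ₐ[K] Ω) (integralClosure A Ω) where
  smul σ s := ⟨σ s, IsIntegral.map (σ.toAlgHom.restrictScalars A) s.2⟩
  one_smul _ := rfl
  mul_smul _ _ _ := rfl
  smul_zero σ := Subtype.ext (map_zero σ)
  smul_add σ s t := Subtype.ext (map_add σ (s : Ω) t)
  smul_one σ := Subtype.ext (map_one σ)
  smul_mul σ s t := Subtype.ext (map_mul σ (s : Ω) t)

omit [CharZero k] [Algebra k K] [Algebra k Ω] [IsScalarTower k K Ω] [IsAlgClosure K Ω] [Field k] in
/-- A valuation subring above `A`. -/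
theorem exists_above (A : ValuationSubring K) : ∃ V : ValuationSubring Ω,
    (∀ a ∈ A, algebraMap K Ω a ∈ V) ∧
      ∀ a ∈ A, A.valuation a < 1 → V.valuation (algebraMap K Ω a) < 1 := by
  let f : A →+* Ω := (algebraMap K Ω).comp A.subtype
  obtain ⟨V, hV, hloc⟩ := (LocalSubring.range f).exists_le_valuationSubring
  have h1 : ∀ a ∈ A, algebraMap K Ω a ∈ V := fun a ha => hV ⟨⟨a, ha⟩, rfl⟩
  refine ⟨V, h1, fun a ha hlt => ?_⟩
  by_contra hcon
  have h2 : V.valuation (algebraMap K Ω a) = 1 :=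
    le_antisymm ((V.valuation_le_one_iff _).2 (h1 a ha)) (not_lt.1 hcon)
  have h3 : IsUnit (⟨algebraMap K Ω a, h1 a ha⟩ : V) :=
    (V.valuation_eq_one_iff _).2 h2
  let r : (LocalSubring.range f).toSubring := ⟨f ⟨a, ha⟩, ⟨⟨a, ha⟩, rfl⟩⟩
  have h4 : IsUnit (Subring.inclusion hV r) := h3
  have h5 : IsUnit r := hloc.map_nonunit r h4
  obtain ⟨r', hr'⟩ := h5.exists_right_inv
  obtain ⟨a', ha'⟩ := r'.2
  have h6 : f (⟨a, ha⟩ * a') = f 1 := by
    have h7 := congrArg Subtype.val hr'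
    rw [map_mul, map_one, ha']
    exact h7
  have h7 : (⟨a, ha⟩ : A) * a' = 1 := by
    have h8 : (algebraMap K Ω) (((⟨a, ha⟩ : A) * a' : A) : K) = algebraMap K Ω ((1 : A) : K) := h6
    exact Subtype.ext ((algebraMap K Ω).injective h8)
  have h8 : IsUnit (⟨a, ha⟩ : A) := IsUnit.of_mul_eq_one _ h7
  have h9 : A.valuation a = 1 := (A.valuation_eq_one_iff ⟨a, ha⟩).1 h8
  exact hlt.ne h9

omit [CharZero k] [Algebra k K] [Algebra k Ω] [IsScalarTower k K Ω] [IsAlgClosure K Ω] [Field k] in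
theorem mem_inertia_of {V : ValuationSubring Ω} {σ : Ω ≃ₐ[K] Ω}
    (hdec : σ ∈ V.decompositionSubgroup K) (h : ∀ y ∈ V, V.valuation (σ y - y) < 1) :
    σ ∈ inertia K V := by
  refine ⟨⟨σ, hdec⟩, ?_, rfl⟩
  show MulSemiringAction.toRingAut (V.decompositionSubgroup K) (IsLocalRing.ResidueField V)
    ⟨σ, hdec⟩ = 1
  ext r
  obtain ⟨y, rfl⟩ := IsLocalRing.residue_surjective r
  show (⟨σ, hdec⟩ : V.decompositionSubgroup K) • (IsLocalRing.residue V y) =
    IsLocalRing.residue V y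
  rw [← IsLocalRing.ResidueField.residue_smul, ← sub_eq_zero, ← map_sub,
    IsLocalRing.residue_eq_zero_iff, ValuationSubring.valuation_lt_one_iff]
  exact h y y.2

omit [CharZero k] [Algebra k K] [Algebra k Ω] [IsScalarTower k K Ω] [IsAlgClosure K Ω] [Field k]
  [Algebra K Ω] [Field K] in
theorem valuation_lt_one_iff_mem (V : ValuationSubring Ω) (u : Ω) :
    V.valuation u < 1 ↔ u = 0 ∨ u⁻¹ ∉ V := by
  by_cases hu : u = 0
  · simp [hu]
  · rw [← V.valuation_le_one_iff, map_inv₀, inv_le_one₀, not_le]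
    · simp [hu]
    · exact zero_lt_iff.2 ((Valuation.ne_zero_iff _).2 hu)

omit [CharZero k] [Algebra k K] [Algebra k Ω] [IsScalarTower k K Ω] [IsAlgClosure K Ω] [Field k] in
/-- Conjugation of inertia groups. -/
theorem inertia_conj {V : ValuationSubring Ω} {σ τ : Ω ≃ₐ[K] Ω} (hτ : τ ∈ inertia K V) :
    σ⁻¹ * τ * σ ∈ inertia K (σ⁻¹ • V) := by
  have hdec : τ • V = V := by
    obtain ⟨τ', -, rfl⟩ := hτ
    exact τ'.2
  refine mem_inertia_of ?_ fun y hy => ?_
  · rw [MulAction.mem_stabilizer_iff, smul_smul, mul_assoc, mul_inv_cancel, mul_one, ← smul_smul,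
      hdec]
  · rw [ValuationSubring.mem_inv_pointwise_smul_iff] at hy
    have h1 := inertia_valuation hτ hy
    rw [valuation_lt_one_iff_mem] at h1 ⊢
    have h2 : σ ((σ⁻¹ * τ * σ) y - y) = τ (σ y) - σ y := by
      rw [map_sub]
      show (σ * (σ⁻¹ * τ * σ)) y - σ y = _
      rw [mul_assoc, mul_inv_cancel_left]
      rfl
    rcases h1 with h1 | h1
    · left
      apply σ.injective
      rw [h2, map_zero]
      exact h1
    · right
      rw [ValuationSubring.mem_inv_pointwise_smul_iff]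
      intro h3
      apply h1
      have h4 : σ • ((σ⁻¹ * τ * σ) y - y)⁻¹ = (τ (σ y) - σ y)⁻¹ := by
        rw [← h2]
        exact map_inv₀ σ _
      rw [h4] at h3
      exact h3

theorem maxUnramified_stable (σ : Ω ≃ₐ[K] Ω) {z : Ω} (hz : z ∈ maxUnramified k K Ω) :
    σ z ∈ maxUnramified k K Ω := by
  refine mem_maxUnramified fun B hB τ hτ => ?_
  have hB' : ∀ c : k, algebraMap k Ω c ∈ σ⁻¹ • B := by
    intro c
    rw [ValuationSubring.mem_inv_pointwise_smul_iff]
    have h1 : σ • algebraMap k Ω c = algebraMap k Ω c := by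
      rw [IsScalarTower.algebraMap_apply k K Ω]
      exact σ.commutes _
    rw [h1]
    exact hB c
  have h1 := inertia_ur hB' (inertia_conj (σ := σ) hτ) hz
  have h2 : σ ((σ⁻¹ * τ * σ) z) = σ z := by rw [h1]
  have h3 : σ ((σ⁻¹ * τ * σ) z) = τ (σ z) := by
    show (σ * (σ⁻¹ * τ * σ)) z = _
    rw [mul_assoc, mul_inv_cancel_left]
    rfl
  rw [← h3, h2]

variable (k K Ω) in
theorem normal_maxUnramified : Normal K (maxUnramified k K Ω) := by
  have : Normal K Ω := IsAlgClosure.normal K Ω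
  rw [IntermediateField.normal_iff_forall_map_le']
  rintro σ _ ⟨z, hz, rfl⟩
  exact maxUnramified_stable σ hz

end

end Pool.Agent.Lib.MP_c385f6_ag
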