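import Mathlib
import Pool.Agent.Lib.MP_c385f6_ag.Core

/-!
Curves over a conic `x ^ 2 - a y ^ 2 = b` without rational points.
-/

namespace Pool.Agent.Lib.MP_c385f6_ag

open Finset Polynomial IntermediateField

section
variable {k F : Type*} [Field k] [CharZero k] [Field F] [Algebra k F]
  {a : k} (ha : ∀ t : k, t ^ 2 ≠ a) {α : F} (hα : α ^ 2 = algebraMap k F a)
include ha hα

theorem quad_minpoly : minpoly k α = X ^ 2 - C a := by
  symm
  refine minpoly.eq_of_irreducible_of_monic (X_pow_sub_C_irreducible_of_prime Nat.prime_two ha) ?_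
    (monic_X_pow_sub_C a two_ne_zero)
  simp [hα]

theorem quad_integral : IsIntegral k α :=
  ⟨X ^ 2 - C a, monic_X_pow_sub_C a two_ne_zero, by simp [hα]⟩

theorem quad_finrank : Module.finrank k k⟮α⟯ = 2 := by
  rw [adjoin.finrank (quad_integral ha hα), quad_minpoly ha hα, natDegree_X_pow_sub_C]

theorem quad_isGalois : IsGalois k k⟮α⟯ := by
  have hint := quad_integral ha hα
  have : FiniteDimensional k k⟮α⟯ := adjoin.finiteDimensional hint
  have hn : Normal k k⟮α⟯ := by
    have h1 : k⟮α⟯ = adjoin k ((X ^ 2 - C a : k[X]).rootSet F) := by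
      apply le_antisymm
      · rw [adjoin_simple_le_iff]
        apply subset_adjoin
        rw [mem_rootSet]
        exact ⟨(monic_X_pow_sub_C a two_ne_zero).ne_zero, by simp [hα]⟩
      · rw [adjoin_le_iff]
        intro z hz
        rw [mem_rootSet] at hz
        have h2 : z ^ 2 = α ^ 2 := by
          have := hz.2
          rw [map_sub, map_pow, aeval_X, aeval_C, sub_eq_zero] at this
          rw [this, hα]
        rcases sq_eq_sq_iff_eq_or_eq_neg.1 h2 with h3 | h3
        · rw [h3]; exact mem_adjoin_simple_self k α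
        · rw [h3]; exact neg_mem (mem_adjoin_simple_self k α)
    have hsplit : ((X ^ 2 - C a : k[X]).map (algebraMap k F)).Splits := by
      have h4 : (X ^ 2 - C a : k[X]).map (algebraMap k F) = (X - C α) * (X + C α) := by
        rw [Polynomial.map_sub, Polynomial.map_pow, Polynomial.map_X, Polynomial.map_C, ← hα, C_pow]
        ring
      rw [h4]
      refine Splits.mul (Splits.X_sub_C _) ?_
      have : (X + C α : F[X]) = X - C (-α) := by rw [C_neg, sub_neg_eq_add]
      rw [this]
      exact Splits.X_sub_C _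
    have h5 : (X ^ 2 - C a : k[X]).IsSplittingField k k⟮α⟯ := by
      rw [h1]
      exact adjoin_rootSet_isSplittingField hsplit
    exact Normal.of_isSplittingField (X ^ 2 - C a)
  exact ⟨⟩

theorem quad_exists (z : k⟮α⟯) : ∃ u v : k, z = algebraMap k _ u +
    algebraMap k _ v * AdjoinSimple.gen k α := by
  have hint := quad_integral ha hα
  have hdim := quad_finrank ha hα
  let pb := adjoin.powerBasis hint
  have hd : pb.dim = 2 := by
    rw [← hdim, pb.finrank]
  obtain ⟨f, hf, hz⟩ := pb.exists_eq_aeval z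
  rw [hd] at hf
  have hgen : pb.gen = AdjoinSimple.gen k α := adjoin.powerBasis_gen hint
  rw [hgen] at hz
  have h1 : f = C (f.coeff 1) * X + C (f.coeff 0) := by
    apply eq_X_add_C_of_natDegree_le_one
    omega
  refine ⟨f.coeff 0, f.coeff 1, ?_⟩
  rw [hz]
  conv_lhs => rw [h1]
  rw [map_add, map_mul, aeval_X, aeval_C, aeval_C]
  ring

theorem quad_adjoin : Algebra.adjoin k {AdjoinSimple.gen k α} = ⊤ := by
  have hint := quad_integral ha hα
  have h := (adjoin.powerBasis hint).adjoin_gen_eq_top
  rwa [adjoin.powerBasis_gen hint] at h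

theorem quad_gen_sq : (AdjoinSimple.gen k α) ^ 2 = algebraMap k k⟮α⟯ a := by
  apply Subtype.ext
  push_cast
  rw [AdjoinSimple.coe_gen, hα]

theorem quad_generator : ∃ σ : k⟮α⟯ ≃ₐ[k] k⟮α⟯, (∀ g, g ∈ Subgroup.zpowers σ) ∧
    σ (AdjoinSimple.gen k α) = -AdjoinSimple.gen k α := by
  have hint := quad_integral ha hα
  have : FiniteDimensional k k⟮α⟯ := adjoin.finiteDimensional hint
  have hG := quad_isGalois ha hα
  have hdim := quad_finrank ha hα
  have hcard : Nat.card (k⟮α⟯ ≃ₐ[k] k⟮α⟯) = 2 := by
    rw [IsGalois.card_aut_eq_finrank, hdim]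
  have hcyc : IsCyclic (k⟮α⟯ ≃ₐ[k] k⟮α⟯) := isCyclic_of_prime_card (p := 2) hcard
  obtain ⟨σ, hσ⟩ := hcyc.exists_generator
  refine ⟨σ, hσ, ?_⟩
  have h1 : (σ (AdjoinSimple.gen k α)) ^ 2 = (AdjoinSimple.gen k α) ^ 2 := by
    rw [← map_pow, quad_gen_sq ha hα, AlgEquiv.commutes]
  rcases sq_eq_sq_iff_eq_or_eq_neg.1 h1 with h2 | h2
  · exfalso
    have := pow_gen_injOn (quad_adjoin ha hα) hσ (i := 0) (j := 1) (by rw [hdim]; norm_num)
      (by rw [hdim]; norm_num) (by simpa using h2.symm)
    omega
  · exact h2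

theorem quad_norm (u v : k) : Algebra.norm k (algebraMap k k⟮α⟯ u +
    algebraMap k k⟮α⟯ v * AdjoinSimple.gen k α) = u ^ 2 - a * v ^ 2 := by
  have hint := quad_integral ha hα
  have : FiniteDimensional k k⟮α⟯ := adjoin.finiteDimensional hint
  have hG := quad_isGalois ha hα
  obtain ⟨σ, hσ, hσα⟩ := quad_generator ha hα
  apply (algebraMap k k⟮α⟯).injective
  rw [norm_eq_prod_pow hσ, quad_finrank ha hα, Finset.prod_range_succ, Finset.prod_range_one,
    pow_zero, pow_one, AlgEquiv.one_apply, map_add, map_mul, AlgEquiv.commutes,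
    AlgEquiv.commutes, hσα, map_sub, map_mul, map_pow, map_pow, ← quad_gen_sq ha hα]
  ring

end

section
variable {k K Ω : Type*} [Field k] [CharZero k] [Field K] [Field Ω] [Algebra k K] [Algebra k Ω]
  [Algebra K Ω] [IsScalarTower k K Ω] [IsAlgClosure K Ω]
  {a b : k} (ha : ∀ t : k, t ^ 2 ≠ a) (hb : ∀ u v : k, u ^ 2 - a * v ^ 2 ≠ b)
  {x y g : K} (hxy : x ^ 2 - algebraMap k K a * y ^ 2 = algebraMap k K b) (hg : g ≠ 0)
  (hpar : ∀ A : ValuationSubring K, (∀ c : k, algebraMap k K c ∈ A) → ∃ h : K, h ≠ 0 ∧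
    ((x ∈ A ∧ A.valuation g = A.valuation (h ^ 2)) ∨
      (x ∉ A ∧ A.valuation (g * x) = A.valuation (h ^ 2))))
include ha hb hxy hg hpar

theorem conic_no_section (s : AbsGal k Ω →* PiOne k K Ω) : ¬ IsSection k K Ω s := by
  classical
  have hac : IsAlgClosed Ω := IsAlgClosure.isAlgClosed K
  have hacF : IsAlgClosed (algebraicClosure k Ω) := IsAlgClosure.isAlgClosed k
  obtain ⟨α, hα⟩ : ∃ α : algebraicClosure k Ω, α ^ 2 = algebraMap k _ a :=
    IsAlgClosed.exists_pow_nat_eq _ two_pos
  have hint := quad_integral ha hα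
  have : FiniteDimensional k k⟮α⟯ := adjoin.finiteDimensional hint
  have hG := quad_isGalois ha hα
  obtain ⟨σ, hσ, hσα⟩ := quad_generator ha hα
  have hdim := quad_finrank ha hα
  have hbn : ∀ z : k⟮α⟯, Algebra.norm k z ≠ b := by
    intro z hz
    obtain ⟨u, v, rfl⟩ := quad_exists ha hα z
    rw [quad_norm ha hα] at hz
    exact hb u v hz
  have hb0 : b ≠ 0 := by
    intro h
    apply hb 0 0
    rw [h]; ring
  have hαΩ : (α : Ω) ^ 2 = algebraMap k Ω a := by
    have := congrArg (fun z : algebraicClosure k Ω => (z : Ω)) hα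
    push_cast at this
    exact this
  have ha0 : a ≠ 0 := by
    intro h; exact ha 0 (by rw [h]; ring)
  have hα0 : (α : Ω) ≠ 0 := by
    intro h
    rw [h] at hαΩ
    apply ha0
    apply (algebraMap k Ω).injective
    rw [← hαΩ, map_zero]; ring
  set X' := algebraMap K Ω x with hX'
  set Y' := algebraMap K Ω y with hY'
  set G' := algebraMap K Ω g with hG'
  have hxyΩ : (X' - α * Y') * (X' + α * Y') = algebraMap k Ω b := by
    have h1 := congrArg (algebraMap K Ω) hxy
    rw [map_sub, map_mul, map_pow, map_pow, ← IsScalarTower.algebraMap_apply k K Ω,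
      ← IsScalarTower.algebraMap_apply k K Ω, ← hαΩ] at h1
    rw [← h1]; ring
  let f : K[X] := C g * (C x - C y * X)
  obtain ⟨γ, hγ⟩ := IsAlgClosed.exists_pow_nat_eq (G' * (X' + α * Y')) two_pos
  have hγm : γ ∈ maxUnramified k K Ω := by
    refine mem_maxUnramified fun B hB σ' hσ' => ?_
    have hσα' : σ' (α : Ω) = α := inertia_const hB hσ' α.2
    have hσγ : σ' (γ ^ 2) = γ ^ 2 := by
      rw [hγ, map_mul, map_add, map_mul, AlgEquiv.commutes, AlgEquiv.commutes,
        AlgEquiv.commutes, hσα']
    let A : ValuationSubring K := B.comap (algebraMap K Ω)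
    have hA : ∀ z : K, z ∈ A ↔ algebraMap K Ω z ∈ B := fun z => Iff.rfl
    have hAk : ∀ c : k, algebraMap k K c ∈ A := by
      intro c
      rw [hA, ← IsScalarTower.algebraMap_apply k K Ω]
      exact hB c
    have htrans : ∀ z w : K, A.valuation z = A.valuation w →
        B.valuation (algebraMap K Ω z) = B.valuation (algebraMap K Ω w) := by
      intro z w hzw
      obtain ⟨u, hu⟩ := (A.valuation_eq_iff z w).1 hzw
      rw [← hu, map_mul, map_mul]
      have h1 : B.valuation (algebraMap K Ω ((u : A) : K)) = 1 := by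
        have h2 : B.valuation (algebraMap K Ω ((u : A) : K)) ≤ 1 :=
          (B.valuation_le_one_iff _).2 ((hA _).1 (u : A).2)
        have h3 : B.valuation (algebraMap K Ω (((u⁻¹ : Aˣ) : A) : K)) ≤ 1 :=
          (B.valuation_le_one_iff _).2 ((hA _).1 ((u⁻¹ : Aˣ) : A).2)
        have h4 : (((u : A) : K)) * (((u⁻¹ : Aˣ) : A) : K) = 1 := by
          rw [← MulMemClass.coe_mul, Units.mul_inv]
          rfl
        have h5 : B.valuation (algebraMap K Ω ((u : A) : K)) *
            B.valuation (algebraMap K Ω (((u⁻¹ : Aˣ) : A) : K)) = 1 := by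
          rw [← map_mul, ← map_mul, h4, map_one, map_one]
        refine le_antisymm h2 ?_
        calc (1 : ValuationSubring.ValueGroup B) = _ := h5.symm
          _ ≤ B.valuation (algebraMap K Ω ((u : A) : K)) * 1 := by gcongr
          _ = _ := mul_one _
      rw [h1, one_mul]
    have hbv : B.valuation (algebraMap k Ω b) = 1 := by
      refine valuation_eq_one hB ((algebraicClosure k Ω).algebraMap_mem b) ?_
      intro h; exact hb0 ((algebraMap k Ω).injective (by rw [map_zero]; exact h))
    have h2v : B.valuation (2 : Ω) = 1 := by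
      have : (2 : Ω) = algebraMap k Ω 2 := (map_ofNat (algebraMap k Ω) 2).symm
      rw [this]
      refine valuation_eq_one hB ((algebraicClosure k Ω).algebraMap_mem _) ?_
      rw [← this]
      have : CharZero Ω := charZero_of_injective_algebraMap (algebraMap k Ω).injective
      exact two_ne_zero
    set v := B.valuation with hv
    have hpq : v (X' - α * Y') * v (X' + α * Y') = 1 := by rw [← map_mul, hxyΩ, hbv]
    have hsum : (X' - α * Y') + (X' + α * Y') = 2 * X' := by ring
    have hinj : ∀ p q : ValuationSubring.ValueGroup B, p ^ 2 = q ^ 2 → p = q := by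
      intro p q h
      exact (pow_left_inj₀ zero_le zero_le two_ne_zero).1 h
    have hp0 : v (X' - α * Y') ≠ 0 := left_ne_zero_of_mul_eq_one hpq
    have hq0 : v (X' + α * Y') ≠ 0 := right_ne_zero_of_mul_eq_one hpq
    obtain ⟨h, hh0, hcase⟩ := hpar A hAk
    have hH0 : algebraMap K Ω h ≠ 0 := by
      intro h'; exact hh0 ((algebraMap K Ω).injective (by rw [map_zero]; exact h'))
    rcases hcase with ⟨hxA, hval⟩ | ⟨hxA, hval⟩
    · -- x integral
      have hval' := htrans _ _ hval
      rw [map_pow, map_pow] at hval'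
      have hX1 : v X' ≤ 1 := (B.valuation_le_one_iff _).2 hxA
      have hY1 : v (α * Y') ≤ 1 := by
        have h3 : (α * Y' : Ω) ^ 2 = X' ^ 2 - algebraMap k Ω b := by
          rw [← hxyΩ]; ring
        have h4 : v (α * Y' : Ω) ^ 2 ≤ 1 := by
          rw [← map_pow, h3]
          refine (Valuation.map_sub _ _ _).trans (max_le ?_ hbv.le)
          rw [map_pow]
          exact pow_le_one₀ zero_le hX1
        by_contra hcon
        push Not at hcon
        exact absurd h4 (not_le.2 (one_lt_pow₀ hcon two_ne_zero))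
      have hp1 : v (X' - α * Y') ≤ 1 := (Valuation.map_sub _ _ _).trans (max_le hX1 hY1)
      have hq1 : v (X' + α * Y') ≤ 1 := (Valuation.map_add _ _ _).trans (max_le hX1 hY1)
      have hq : v (X' + α * Y') = 1 := by
        refine le_antisymm hq1 ?_
        calc (1 : ValuationSubring.ValueGroup B) = _ := hpq.symm
          _ ≤ 1 * v (X' + α * Y') := by gcongr
          _ = _ := one_mul _
      refine inertia_kummer hB hσ' two_ne_zero hH0 (AlgEquiv.commutes σ' h) hσγ ?_
      apply hinj
      rw [← map_pow, hγ, map_mul, hq, mul_one]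
      exact hval'
    · -- pole
      have hval' := htrans _ _ hval
      rw [map_mul, map_mul, map_pow, map_pow] at hval'
      have hX1 : 1 < v X' := by
        rw [← not_le, B.valuation_le_one_iff]
        exact hxA
      have hX0 : v X' ≠ 0 := (zero_lt_one.trans hX1).ne'
      have h2X : v (2 * X') = v X' := by rw [map_mul, h2v, one_mul]
      rcases lt_or_ge 1 (v (X' + α * Y')) with hq | hq
      · -- v (x + αy) = v x
        have hp : v (X' - α * Y') < v (X' + α * Y') := by
          by_contra hcon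
          push Not at hcon
          have : 1 < v (X' - α * Y') * v (X' + α * Y') := by
            calc (1 : ValuationSubring.ValueGroup B) = 1 * 1 := (one_mul 1).symm
              _ < v (X' + α * Y') * v (X' + α * Y') := mul_lt_mul'' hq hq zero_le zero_le
              _ ≤ v (X' - α * Y') * v (X' + α * Y') := by gcongr
          rw [hpq] at this
          exact lt_irrefl _ this
        have h4 := v.map_add_eq_of_lt_right hp
        rw [hsum, h2X] at h4
        refine inertia_kummer hB hσ' two_ne_zero hH0 (AlgEquiv.commutes σ' h) hσγ ?_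
        apply hinj
        rw [← map_pow, hγ, map_mul, ← h4]
        exact hval'
      · -- v (x - αy) = v x
        have hp : 1 < v (X' - α * Y') := by
          by_contra hcon
          push Not at hcon
          have h5 : v (2 * X') ≤ 1 := by
            rw [← hsum]
            exact (Valuation.map_add _ _ _).trans (max_le hcon hq)
          rw [h2X] at h5
          exact absurd hX1 (not_lt.2 h5)
        have h4 := v.map_add_eq_of_lt_left (lt_of_le_of_lt hq hp)
        rw [hsum, h2X] at h4
        rw [← h4] at hpq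
        refine inertia_kummer hB hσ' two_ne_zero (θ := algebraMap K Ω h / X')
          (div_ne_zero hH0 ?_) ?_ hσγ ?_
        · intro h'
          rw [h', map_zero] at hX0
          exact hX0 rfl
        · rw [map_div₀, AlgEquiv.commutes, AlgEquiv.commutes]
        · apply hinj
          rw [← map_pow, hγ, map_mul, map_div₀, div_pow, eq_div_iff (pow_ne_zero _ hX0), ← hval']
          calc v G' * v (X' + α * Y') * v X' ^ 2 = v G' * v X' * (v X' * v (X' + α * Y')) := by
                rw [sq]; ac_rfl
            _ = _ := by rw [hpq, mul_one]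
  have ht0 : ((k⟮α⟯.val ((σ ^ 0) (AdjoinSimple.gen k α)) : algebraicClosure k Ω) : Ω) = α := by
    simp
  have ht1 : ((k⟮α⟯.val ((σ ^ 1) (AdjoinSimple.gen k α)) : algebraicClosure k Ω) : Ω) = -α := by
    rw [pow_one, hσα]
    simp
  refine no_section' hσ k⟮α⟯.val hbn (θ := AdjoinSimple.gen k α) f g hg ?_ γ ?_ hγm s
  · rw [hdim, Finset.prod_range_succ, Finset.prod_range_one, ht0, ht1, ← hxyΩ]
    simp only [f, map_sub, map_mul, aeval_C, aeval_X]
    ring
  · rw [hdim, Finset.prod_range_succ, Finset.prod_range_one, ht0, ht1, hγ]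
    simp only [f, map_sub, map_mul, aeval_C, aeval_X]
    ring

end

section
variable {k K : Type*} [Field k] [Field K] [Algebra k K]
  {a b : k} (ha : ∀ t : k, t ^ 2 ≠ a) (hb : ∀ u v : k, u ^ 2 - a * v ^ 2 ≠ b)
  {x y : K} (hxy : x ^ 2 - algebraMap k K a * y ^ 2 = algebraMap k K b)
include ha hb hxy

theorem conic_no_place (A : ValuationSubring K) : ¬ IsRationalPlace k K A := by
  classical
  intro hA
  have hcA : ∀ c : k, algebraMap k K c ∈ A := hA.const_mem
  let j : k →+* IsLocalRing.ResidueField A :=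
    (IsLocalRing.residue A).comp ((algebraMap k K).codRestrict A hcA)
  have hj : ∀ c : k, j c = IsLocalRing.residue A ⟨algebraMap k K c, hcA c⟩ := fun c => rfl
  have hres : ∀ z : A, ∃ c : k, IsLocalRing.residue A z = j c := by
    intro z
    obtain ⟨c, hc⟩ := hA.residue z z.2
    refine ⟨c, ?_⟩
    rw [hj, ← sub_eq_zero, ← map_sub, IsLocalRing.residue_eq_zero_iff,
      ValuationSubring.valuation_lt_one_iff]
    exact hc
  have hsq : ∀ z : K, z ^ 2 ∈ A → z ∈ A := by
    intro z hz
    rw [← A.valuation_le_one_iff, map_pow] at hz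
    rw [← A.valuation_le_one_iff]
    by_contra hcon
    push Not at hcon
    exact absurd hz (not_le.2 (one_lt_pow₀ hcon two_ne_zero))
  by_cases hy : y ∈ A
  · have hx : x ∈ A := by
      apply hsq
      have h1 : x ^ 2 = algebraMap k K b + algebraMap k K a * y ^ 2 := by rw [← hxy]; ring
      rw [h1]
      exact add_mem (hcA b) (mul_mem (hcA a) (pow_mem hy 2))
    obtain ⟨c, hc⟩ := hres ⟨x, hx⟩
    obtain ⟨d, hd⟩ := hres ⟨y, hy⟩
    have h1 : (⟨x, hx⟩ : A) ^ 2 - ⟨algebraMap k K a, hcA a⟩ * ⟨y, hy⟩ ^ 2 =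
        ⟨algebraMap k K b, hcA b⟩ := by
      apply Subtype.ext
      push_cast
      exact hxy
    have h2 := congrArg (IsLocalRing.residue A) h1
    rw [map_sub, map_mul, map_pow, map_pow, hc, hd, ← hj, ← hj, ← map_pow, ← map_pow, ← map_mul,
      ← map_sub] at h2
    exact hb c d (j.injective h2)
  · have hy0 : y ≠ 0 := by
      intro h; rw [h] at hy; exact hy A.zero_mem
    have hy1 : 1 < A.valuation y := by
      rw [← not_le, A.valuation_le_one_iff]; exact hy
    have hvi : A.valuation y⁻¹ < 1 := by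
      rw [map_inv₀]
      exact inv_lt_one_of_one_lt₀ hy1
    have hinv : y⁻¹ ∈ A := (A.valuation_le_one_iff _).1 hvi.le
    have hquot : (x / y) ^ 2 = algebraMap k K a + algebraMap k K b * y⁻¹ ^ 2 := by
      rw [← hxy]
      field_simp
      ring
    have hq : x / y ∈ A := by
      apply hsq
      rw [hquot]
      exact add_mem (hcA a) (mul_mem (hcA b) (pow_mem hinv 2))
    obtain ⟨c, hc⟩ := hres ⟨x / y, hq⟩
    have h1 : (⟨x / y, hq⟩ : A) ^ 2 = ⟨algebraMap k K a, hcA a⟩ +
        ⟨algebraMap k K b, hcA b⟩ * ⟨y⁻¹, hinv⟩ ^ 2 := by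
      apply Subtype.ext
      push_cast
      exact hquot
    have h2 := congrArg (IsLocalRing.residue A) h1
    have h3 : IsLocalRing.residue A ⟨y⁻¹, hinv⟩ = 0 := by
      rw [IsLocalRing.residue_eq_zero_iff, ValuationSubring.valuation_lt_one_iff]
      exact hvi
    rw [map_add, map_mul, map_pow, map_pow, hc, h3, ← hj, zero_pow two_ne_zero, mul_zero,
      add_zero, ← map_pow] at h2
    exact ha c (j.injective h2)

end

end Pool.Agent.Lib.MP_c385f6_ag
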