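import Mathlib
import Pool.Agent.Lib.MP_c385f6_ag.Twist
import Pool.Agent.Lib.MP_c385f6_ag.Conic

/-!
A section and a conic without rational points with a point whose coordinates are fixed by the
section.
-/

namespace Pool.Agent.Lib.MP_c385f6_ag

open Finset Polynomial IntermediateField

section
variable {k K Ω : Type*} [Field k] [CharZero k] [Field K] [Field Ω] [Algebra k K] [Algebra k Ω]
  [Algebra K Ω] [IsScalarTower k K Ω] [IsAlgClosure K Ω]
  {s : AbsGal k Ω →* PiOne k K Ω} (hs : IsSection k K Ω s)
  {a b : k} (ha : ∀ t : k, t ^ 2 ≠ a) (hb : ∀ u v : k, u ^ 2 - a * v ^ 2 ≠ b)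
  {x y g : maxUnramified k K Ω} (hx : ∀ σ, s σ x = x) (hy : ∀ σ, s σ y = y) (hgs : ∀ σ, s σ g = g)
  (hxy : (x : Ω) ^ 2 - algebraMap k Ω a * (y : Ω) ^ 2 = algebraMap k Ω b) (hg : g ≠ 0)
  (hpar : ∀ B : ValuationSubring Ω, (∀ c : k, algebraMap k Ω c ∈ B) →
    ∃ h : maxUnramified k K Ω, h ≠ 0 ∧
    (((x : Ω) ∈ B ∧ B.valuation (g : Ω) = B.valuation ((h : Ω) ^ 2)) ∨
      ((x : Ω) ∉ B ∧ B.valuation ((g : Ω) * x) = B.valuation ((h : Ω) ^ 2))))
include hs ha hb hx hy hgs hxy hg hpar

theorem conic_fixed : False := by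
  classical
  have hac : IsAlgClosed Ω := IsAlgClosure.isAlgClosed K
  have hacF : IsAlgClosed (algebraicClosure k Ω) := IsAlgClosure.isAlgClosed k
  obtain ⟨α, hα⟩ : ∃ α : algebraicClosure k Ω, α ^ 2 = algebraMap k _ a :=
    IsAlgClosed.exists_pow_nat_eq _ two_pos
  have hint := quad_integral ha hα
  have : FiniteDimensional k k⟮α⟯ := adjoin.finiteDimensional hint
  have hG := quad_isGalois ha hα
  obtain ⟨σ, hσ, hσα⟩ := quad_generator ha hα
  have hdim := quad_finrank ha hα
  have hbn : ∀ z : k⟮α⟯, Algebra.norm k z ≠ b := by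
    intro z hz
    obtain ⟨u, v, rfl⟩ := quad_exists ha hα z
    rw [quad_norm ha hα] at hz
    exact hb u v hz
  have hb0 : b ≠ 0 := by
    intro h
    apply hb 0 0
    rw [h]; ring
  have hαΩ : (α : Ω) ^ 2 = algebraMap k Ω a := by
    have := congrArg (fun z : algebraicClosure k Ω => (z : Ω)) hα
    push_cast at this
    exact this
  set X' : Ω := (x : Ω) with hX'
  set Y' : Ω := (y : Ω) with hY'
  set G' : Ω := (g : Ω) with hG'
  have hxyΩ : (X' - α * Y') * (X' + α * Y') = algebraMap k Ω b := by
    rw [← hxy, ← hαΩ]; ring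
  obtain ⟨γ, hγ⟩ := IsAlgClosed.exists_pow_nat_eq (G' * (X' + α * Y')) two_pos
  have hγm : γ ∈ maxUnramified k K Ω := by
    refine mem_ur_of_pow two_ne_zero ?_ fun B hB => ?_
    · rw [hγ]
      exact mul_mem g.2 (add_mem x.2 (mul_mem (const_mem_maxUnramified α.2) y.2))
    have hbv : B.valuation (algebraMap k Ω b) = 1 := by
      refine valuation_eq_one hB ((algebraicClosure k Ω).algebraMap_mem b) ?_
      intro h; exact hb0 ((algebraMap k Ω).injective (by rw [map_zero]; exact h))
    have h2v : B.valuation (2 : Ω) = 1 := by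
      have : (2 : Ω) = algebraMap k Ω 2 := (map_ofNat (algebraMap k Ω) 2).symm
      rw [this]
      refine valuation_eq_one hB ((algebraicClosure k Ω).algebraMap_mem _) ?_
      rw [← this]
      have : CharZero Ω := charZero_of_injective_algebraMap (algebraMap k Ω).injective
      exact two_ne_zero
    set v := B.valuation with hv
    have hpq : v (X' - α * Y') * v (X' + α * Y') = 1 := by rw [← map_mul, hxyΩ, hbv]
    have hsum : (X' - α * Y') + (X' + α * Y') = 2 * X' := by ring
    have hinj : ∀ p q : ValuationSubring.ValueGroup B, p ^ 2 = q ^ 2 → p = q := by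
      intro p q h
      exact (pow_left_inj₀ zero_le zero_le two_ne_zero).1 h
    have hp0 : v (X' - α * Y') ≠ 0 := left_ne_zero_of_mul_eq_one hpq
    have hq0 : v (X' + α * Y') ≠ 0 := right_ne_zero_of_mul_eq_one hpq
    obtain ⟨h, hh0, hcase⟩ := hpar B hB
    have hH0 : (h : Ω) ≠ 0 := by
      intro h'; exact hh0 (Subtype.ext h')
    rcases hcase with ⟨hxA, hval'⟩ | ⟨hxA, hval'⟩
    · -- x integral
      rw [map_pow] at hval'
      have hX1 : v X' ≤ 1 := (B.valuation_le_one_iff _).2 hxA
      have hY1 : v (α * Y') ≤ 1 := by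
        have h3 : (α * Y' : Ω) ^ 2 = X' ^ 2 - algebraMap k Ω b := by
          rw [← hxyΩ]; ring
        have h4 : v (α * Y' : Ω) ^ 2 ≤ 1 := by
          rw [← map_pow, h3]
          refine (Valuation.map_sub _ _ _).trans (max_le ?_ hbv.le)
          rw [map_pow]
          exact pow_le_one₀ zero_le hX1
        by_contra hcon
        push Not at hcon
        exact absurd h4 (not_le.2 (one_lt_pow₀ hcon two_ne_zero))
      have hp1 : v (X' - α * Y') ≤ 1 := (Valuation.map_sub _ _ _).trans (max_le hX1 hY1)
      have hq1 : v (X' + α * Y') ≤ 1 := (Valuation.map_add _ _ _).trans (max_le hX1 hY1)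
      have hq : v (X' + α * Y') = 1 := by
        refine le_antisymm hq1 ?_
        calc (1 : ValuationSubring.ValueGroup B) = _ := hpq.symm
          _ ≤ 1 * v (X' + α * Y') := by gcongr
          _ = _ := one_mul _
      refine ⟨h, h.2, hH0, ?_⟩
      apply hinj
      rw [← map_pow, hγ, map_mul, hq, mul_one]
      exact hval'
    · -- pole
      rw [map_mul, map_pow] at hval'
      have hX1 : 1 < v X' := by
        rw [← not_le, B.valuation_le_one_iff]
        exact hxA
      have hX0 : v X' ≠ 0 := (zero_lt_one.trans hX1).ne'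
      have h2X : v (2 * X') = v X' := by rw [map_mul, h2v, one_mul]
      rcases lt_or_ge 1 (v (X' + α * Y')) with hq | hq
      · -- v (x + αy) = v x
        have hp : v (X' - α * Y') < v (X' + α * Y') := by
          by_contra hcon
          push Not at hcon
          have : 1 < v (X' - α * Y') * v (X' + α * Y') := by
            calc (1 : ValuationSubring.ValueGroup B) = 1 * 1 := (one_mul 1).symm
              _ < v (X' + α * Y') * v (X' + α * Y') := mul_lt_mul'' hq hq zero_le zero_le
              _ ≤ v (X' - α * Y') * v (X' + α * Y') := by gcongr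
          rw [hpq] at this
          exact lt_irrefl _ this
        have h4 := v.map_add_eq_of_lt_right hp
        rw [hsum, h2X] at h4
        refine ⟨h, h.2, hH0, ?_⟩
        apply hinj
        rw [← map_pow, hγ, map_mul, ← h4]
        exact hval'
      · -- v (x - αy) = v x
        have hp : 1 < v (X' - α * Y') := by
          by_contra hcon
          push Not at hcon
          have h5 : v (2 * X') ≤ 1 := by
            rw [← hsum]
            exact (Valuation.map_add _ _ _).trans (max_le hcon hq)
          rw [h2X] at h5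
          exact absurd hX1 (not_lt.2 h5)
        have h4 := v.map_add_eq_of_lt_left (lt_of_le_of_lt hq hp)
        rw [hsum, h2X] at h4
        rw [← h4] at hpq
        have hX'0 : X' ≠ 0 := by
          intro h'
          rw [h', map_zero] at hX0
          exact hX0 rfl
        refine ⟨(h : Ω) / X', div_mem h.2 x.2, div_ne_zero hH0 hX'0, ?_⟩
        apply hinj
        rw [← map_pow, hγ, map_mul, map_div₀, div_pow, eq_div_iff (pow_ne_zero _ hX0), ← hval']
        calc v G' * v (X' + α * Y') * v X' ^ 2 = v G' * v X' * (v X' * v (X' + α * Y')) := by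
              rw [sq]; ac_rfl
          _ = _ := by rw [hpq, mul_one]
  let φ : k⟮α⟯ →ₐ[k] algebraicClosure k Ω := k⟮α⟯.val
  let δ : ℕ → maxUnramified k K Ω := fun i =>
    g * (x - constHom k K Ω (φ ((σ ^ i) (AdjoinSimple.gen k α))) * y)
  have h0 : (δ 0 : Ω) = G' * (X' - α * Y') := by
    show ((g * (x - constHom k K Ω (φ ((σ ^ 0) (AdjoinSimple.gen k α))) * y) :
      maxUnramified k K Ω) : Ω) = _
    push_cast
    rw [coe_constHom, pow_zero, AlgEquiv.one_apply]
    simp [φ, hX', hY', hG']
  have h1 : (δ 1 : Ω) = G' * (X' + α * Y') := by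
    show ((g * (x - constHom k K Ω (φ ((σ ^ 1) (AdjoinSimple.gen k α))) * y) :
      maxUnramified k K Ω) : Ω) = _
    push_cast
    rw [coe_constHom, pow_one, hσα]
    simp [φ, hX', hY', hG']
  refine section_core hσ φ hbn hs δ ?_ g hgs hg ?_ γ ?_ hγm
  · intro τ i j hij
    have h2 : s τ (constHom k K Ω (φ ((σ ^ i) (AdjoinSimple.gen k α)))) =
        constHom k K Ω (φ ((σ ^ j) (AdjoinSimple.gen k α))) := by
      rw [← hij]
      apply Subtype.ext
      exact hs.restrict τ _ (constHom k K Ω (φ ((σ ^ i) (AdjoinSimple.gen k α)))) rfl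
    show s τ (g * (x - constHom k K Ω (φ ((σ ^ i) (AdjoinSimple.gen k α))) * y)) = _
    rw [map_mul, map_sub, map_mul, hgs, hx, hy, h2]
  · rw [hdim, Finset.prod_range_succ, Finset.prod_range_one, h0, h1, ← hxyΩ]
    ring
  · rw [hdim, Finset.prod_range_succ, Finset.prod_range_one, h0, h1, hγ]
    ring

end

end Pool.Agent.Lib.MP_c385f6_ag
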