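import Mathlib
import Pool.Agent.Lib.MP_c385f6_ag.FixConic

/-!
Curves over the projective line with even ramification over rational points, and the conics
belonging to their two-coverings.
-/

namespace Pool.Agent.Lib.MP_c385f6_ag

open Finset

/-- The value `α j * w + β j` of the `j`-th linear form. -/
def form {k K ι : Type*} [Field k] [Field K] [Algebra k K] (α β : ι → k) (w : K) (j : ι) : K :=
  algebraMap k K (α j) * w + algebraMap k K (β j)

/-- The conic belonging to three of the linear forms `α j * w + β j`, twisted by `d`, has a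
rational point. -/
def ConicPoint {k ι : Type*} [Field k] (α β d : ι → k) (a b c : ι) : Prop :=
  ∃ r t : k, (α b * β c - α c * β b) * d b * d c * r ^ 2 +
    (α c * β a - α a * β c) * d c * d a * t ^ 2 + (α a * β b - α b * β a) * d a * d b = 0

/-- An isotropic diagonal ternary form represents zero with last coordinate one. -/
theorem exists_point {k : Type*} [Field k] [CharZero k] {A B C : k} (hA : A ≠ 0) (hB : B ≠ 0)
    {p q e : k} (hpqe : p ≠ 0 ∨ q ≠ 0 ∨ e ≠ 0) (h : A * p ^ 2 + B * q ^ 2 + C * e ^ 2 = 0) :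
    ∃ r t : k, A * r ^ 2 + B * t ^ 2 + C = 0 := by
  by_cases he : e = 0
  · subst he
    have hp : p ≠ 0 := by
      rintro rfl
      have h1 : B * q ^ 2 = 0 := by linear_combination h
      rcases mul_eq_zero.1 h1 with h3 | h3
      · exact hB h3
      · simp [pow_eq_zero_iff two_ne_zero |>.1 h3] at hpqe
    have hq : q ≠ 0 := by
      rintro rfl
      have h1 : A * p ^ 2 = 0 := by linear_combination h
      rcases mul_eq_zero.1 h1 with h3 | h3
      · exact hA h3
      · exact hp (pow_eq_zero_iff two_ne_zero |>.1 h3)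
    have hB' : B = -A * (p / q) ^ 2 := by
      field_simp
      linear_combination h
    refine ⟨(1 - C / A) / 2, (1 + C / A) / 2 * (q / p), ?_⟩
    rw [hB']
    field_simp
    ring
  · refine ⟨p / e, q / e, ?_⟩
    field_simp
    linear_combination h

/-- If `- B / A` is a square then the conic has a point. -/
theorem exists_point_of_sq {k : Type*} [Field k] [CharZero k] {A B C : k} (hA : A ≠ 0)
    (hB : B ≠ 0) {t : k} (ht : t ^ 2 = -B / A) : ∃ r t : k, A * r ^ 2 + B * t ^ 2 + C = 0 := by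
  refine exists_point hA hB (p := t) (q := 1) (e := 0) (Or.inr (Or.inl one_ne_zero)) ?_
  rw [ht]
  field_simp
  ring

section
variable {k K Ω : Type*} [Field k] [Field K] [Field Ω] [Algebra k K] [Algebra k Ω]
  [Algebra K Ω] [IsScalarTower k K Ω]

/-- Equal values at the place of `K` below `B` give equal values at `B`. -/
theorem comap_valuation {B : ValuationSubring Ω} {z w : K}
    (hzw : (B.comap (algebraMap K Ω)).valuation z = (B.comap (algebraMap K Ω)).valuation w) :
    B.valuation (algebraMap K Ω z) = B.valuation (algebraMap K Ω w) := by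
  set A : ValuationSubring K := B.comap (algebraMap K Ω) with hAdef
  have hA : ∀ z : K, z ∈ A ↔ algebraMap K Ω z ∈ B := fun z => Iff.rfl
  obtain ⟨u, hu⟩ := (A.valuation_eq_iff z w).1 hzw
  rw [← hu, map_mul, map_mul]
  have h1 : B.valuation (algebraMap K Ω ((u : A) : K)) = 1 := by
    have h2 : B.valuation (algebraMap K Ω ((u : A) : K)) ≤ 1 :=
      (B.valuation_le_one_iff _).2 ((hA _).1 (u : A).2)
    have h3 : B.valuation (algebraMap K Ω (((u⁻¹ : Aˣ) : A) : K)) ≤ 1 :=
      (B.valuation_le_one_iff _).2 ((hA _).1 ((u⁻¹ : Aˣ) : A).2)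
    have h4 : (((u : A) : K)) * (((u⁻¹ : Aˣ) : A) : K) = 1 := by
      rw [← MulMemClass.coe_mul, Units.mul_inv]
      rfl
    have h5 : B.valuation (algebraMap K Ω ((u : A) : K)) *
        B.valuation (algebraMap K Ω (((u⁻¹ : Aˣ) : A) : K)) = 1 := by
      rw [← map_mul, ← map_mul, h4, map_one, map_one]
    refine le_antisymm h2 ?_
    calc (1 : ValuationSubring.ValueGroup B) = _ := h5.symm
      _ ≤ B.valuation (algebraMap K Ω ((u : A) : K)) * 1 := by gcongr
      _ = _ := mul_one _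
  rw [h1, one_mul]

omit [Field K] [Algebra k K] [Algebra K Ω] [IsScalarTower k K Ω] in
/-- The tangent line at a rational point of a conic. -/
theorem tangent_parity [CharZero k] {B : ValuationSubring Ω} (hB : ∀ c : k, algebraMap k Ω c ∈ B)
    {A₀ B₀ C₀ r t : k} (hA₀ : A₀ ≠ 0) (hB₀ : B₀ ≠ 0) (hC₀ : C₀ ≠ 0)
    (hrt : A₀ * r ^ 2 + B₀ * t ^ 2 + C₀ = 0) {X Y Z θ : Ω} (hθ : θ ∈ algebraicClosure k Ω)
    (hθ2 : θ ^ 2 = algebraMap k Ω (-B₀ / A₀))
    (hXYZ : algebraMap k Ω A₀ * X ^ 2 + algebraMap k Ω B₀ * Y ^ 2 + algebraMap k Ω C₀ * Z ^ 2 = 0) :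
    ∃ ν : Ω, (ν = X + θ * Y - (algebraMap k Ω r + θ * algebraMap k Ω t) * Z ∨
        ν = X - θ * Y - (algebraMap k Ω r - θ * algebraMap k Ω t) * Z) ∧
      B.valuation (algebraMap k Ω r * X + algebraMap k Ω (B₀ / A₀ * t) * Y +
        algebraMap k Ω (C₀ / A₀) * Z) * max (B.valuation X) (B.valuation Y) =
        B.valuation ν ^ 2 := by
  set R := algebraMap k Ω r with hR
  set T := algebraMap k Ω t with hT
  set A' := algebraMap k Ω A₀ with hA'
  set B' := algebraMap k Ω B₀ with hB'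
  set C' := algebraMap k Ω C₀ with hC'
  have hinj := (algebraMap k Ω).injective
  have hA0 : A' ≠ 0 := (map_ne_zero _).2 hA₀
  have hB0 : B' ≠ 0 := (map_ne_zero _).2 hB₀
  have hC0 : C' ≠ 0 := (map_ne_zero _).2 hC₀
  have hrt' : A' * R ^ 2 + B' * T ^ 2 + C' = 0 := by
    have := congrArg (algebraMap k Ω) hrt
    rw [map_add, map_add, map_mul, map_mul, map_pow, map_pow, map_zero] at this
    exact this
  have hθ2' : θ ^ 2 = -B' / A' := by rw [hθ2, map_div₀, map_neg]
  rw [map_mul, map_div₀, map_div₀, ← hT, ← hA', ← hB', ← hC']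
  have hΩ : CharZero Ω := charZero_of_injective_algebraMap hinj
  set v := B.valuation with hv
  have halg : ∀ c : k, algebraMap k Ω c ∈ algebraicClosure k Ω := fun c =>
    (algebraicClosure k Ω).algebraMap_mem c
  have h2v : v (2 : Ω) = 1 := by
    have : (2 : Ω) = algebraMap k Ω 2 := (map_ofNat (algebraMap k Ω) 2).symm
    rw [this]
    refine valuation_eq_one hB (halg _) ?_
    rw [← this]
    exact two_ne_zero
  have hθ0 : θ ≠ 0 := by
    rintro rfl
    rw [zero_pow two_ne_zero] at hθ2'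
    exact div_ne_zero (neg_ne_zero.2 hB0) hA0 hθ2'.symm
  have hθv : v θ = 1 := valuation_eq_one hB hθ hθ0
  set ρ := R + θ * T with hρ
  set ρ' := R - θ * T with hρ'
  have hρρ : ρ * ρ' = -C' / A' := by
    have : ρ * ρ' = R ^ 2 - θ ^ 2 * T ^ 2 := by rw [hρ, hρ']; ring
    rw [this, hθ2', eq_div_iff hA0]
    field_simp
    linear_combination hrt'
  have hρρ0 : ρ * ρ' ≠ 0 := by rw [hρρ]; exact div_ne_zero (neg_ne_zero.2 hC0) hA0
  have hρv : v ρ = 1 := valuation_eq_one hB (add_mem (halg r) (mul_mem hθ (halg t)))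
    (left_ne_zero_of_mul hρρ0)
  have hρ'v : v ρ' = 1 := valuation_eq_one hB (sub_mem (halg r) (mul_mem hθ (halg t)))
    (right_ne_zero_of_mul hρρ0)
  set Δ := X + θ * Y with hΔ
  set Δ' := X - θ * Y with hΔ'
  have hΔΔ : Δ * Δ' = ρ * ρ' * Z ^ 2 := by
    have : Δ * Δ' = X ^ 2 - θ ^ 2 * Y ^ 2 := by rw [hΔ, hΔ']; ring
    rw [this, hθ2', hρρ]
    field_simp
    linear_combination hXYZ
  set l := R * X + B' / A' * T * Y + C' / A' * Z with hl
  have hl2 : 2 * l = ρ' * Δ + ρ * Δ' - 2 * (ρ * ρ') * Z := by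
    have h1 : ρ' * Δ + ρ * Δ' = 2 * R * X - 2 * θ ^ 2 * (T * Y) := by
      rw [hρ, hρ', hΔ, hΔ']; ring
    rw [h1, hρρ, hθ2', hl]
    field_simp
    ring
  have hi1 : 2 * l * Δ = ρ' * (Δ - ρ * Z) ^ 2 := by
    rw [hl2]
    linear_combination ρ * hΔΔ
  have hi2 : 2 * l * Δ' = ρ * (Δ' - ρ' * Z) ^ 2 := by
    rw [hl2]
    linear_combination ρ' * hΔΔ
  have hv1 : v l * v Δ = v (Δ - ρ * Z) ^ 2 := by
    have := congrArg v hi1
    rw [map_mul, map_mul, map_mul, map_pow, h2v, hρ'v, one_mul, one_mul] at this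
    exact this
  have hv2 : v l * v Δ' = v (Δ' - ρ' * Z) ^ 2 := by
    have := congrArg v hi2
    rw [map_mul, map_mul, map_mul, map_pow, h2v, hρv, one_mul, one_mul] at this
    exact this
  have hX : v X ≤ max (v Δ) (v Δ') := by
    have h1 : 2 * X = Δ + Δ' := by rw [hΔ, hΔ']; ring
    have h2 := Valuation.map_add v Δ Δ'
    rw [← h1, map_mul, h2v, one_mul] at h2
    exact h2
  have hY : v Y ≤ max (v Δ) (v Δ') := by
    have h1 : 2 * (θ * Y) = Δ - Δ' := by rw [hΔ, hΔ']; ring
    have h2 := Valuation.map_sub v Δ Δ'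
    rw [← h1, map_mul, h2v, one_mul, map_mul, hθv, one_mul] at h2
    exact h2
  have hd : v Δ ≤ max (v X) (v Y) := by
    have h2 := Valuation.map_add v X (θ * Y)
    rw [map_mul, hθv, one_mul] at h2
    exact h2
  have hd' : v Δ' ≤ max (v X) (v Y) := by
    have h2 := Valuation.map_sub v X (θ * Y)
    rw [map_mul, hθv, one_mul] at h2
    exact h2
  rcases le_total (v Δ) (v Δ') with h | h
  · refine ⟨Δ' - ρ' * Z, Or.inr rfl, ?_⟩
    rw [max_eq_right h] at hX hY
    rw [← hv2, le_antisymm (max_le hX hY) hd']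
  · refine ⟨Δ - ρ * Z, Or.inl rfl, ?_⟩
    rw [max_eq_left h] at hX hY
    rw [← hv1, le_antisymm (max_le hX hY) hd]

end

/-- A point of the conic on the tangent line at `(r, t, 1)` is the point `(r, t, 1)`. -/
theorem tangent_zero {k Ω : Type*} [Field k] [Field Ω] [Algebra k Ω] {A B C r t : k}
    (hA : A ≠ 0) (hB : B ≠ 0) (hC : C ≠ 0) (hrt : A * r ^ 2 + B * t ^ 2 + C = 0) {X Y Z : Ω}
    (hXYZ : algebraMap k Ω A * X ^ 2 + algebraMap k Ω B * Y ^ 2 + algebraMap k Ω C * Z ^ 2 = 0)
    (hl : algebraMap k Ω r * X + algebraMap k Ω (B / A * t) * Y + algebraMap k Ω (C / A) * Z = 0) :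
    X = algebraMap k Ω r * Z := by
  have hA' : algebraMap k Ω A ≠ 0 := (map_ne_zero _).2 hA
  have hB' : algebraMap k Ω B ≠ 0 := (map_ne_zero _).2 hB
  have hC' : algebraMap k Ω C ≠ 0 := (map_ne_zero _).2 hC
  have h1 : algebraMap k Ω A * algebraMap k Ω r ^ 2 + algebraMap k Ω B * algebraMap k Ω t ^ 2 +
      algebraMap k Ω C = 0 := by
    have := congrArg (algebraMap k Ω) hrt
    rw [map_add, map_add, map_mul, map_mul, map_pow, map_pow, map_zero] at this
    exact this
  rw [map_mul, map_div₀, map_div₀] at hl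
  generalize algebraMap k Ω A = A' at *
  generalize algebraMap k Ω B = B' at *
  generalize algebraMap k Ω C = C' at *
  generalize algebraMap k Ω r = R at *
  generalize algebraMap k Ω t = T at *
  have hl' : A' * R * X + B' * T * Y + C' * Z = 0 := by
    field_simp at hl
    linear_combination hl
  have h2 : A' * (X - R * Z) ^ 2 + B' * (Y - T * Z) ^ 2 = 0 := by
    linear_combination hXYZ - 2 * Z * hl' + Z ^ 2 * h1
  have h3 : A' * R * (X - R * Z) + B' * T * (Y - T * Z) = 0 := by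
    linear_combination hl' - Z * h1
  have h4 : B' * C' * (Y - T * Z) ^ 2 = 0 := by
    linear_combination B' * (Y - T * Z) ^ 2 * h1 - A' * R ^ 2 * h2 +
      (A' * R * (X - R * Z) - B' * T * (Y - T * Z)) * h3
  have h5 : (Y - T * Z) ^ 2 = 0 := (mul_eq_zero.1 h4).resolve_left (mul_ne_zero hB' hC')
  rw [h5, mul_zero, add_zero] at h2
  have h6 : (X - R * Z) ^ 2 = 0 := (mul_eq_zero.1 h2).resolve_left hA'
  exact sub_eq_zero.1 (pow_eq_zero_iff two_ne_zero |>.1 h6)

end Pool.Agent.Lib.MP_c385f6_ag
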