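import Mathlib
import Pool.Agent.Lib.MP_c385f6_ag.Forms

/-!
No sections for curves over the line with even ramification over rational points, if each twist
has a conic with and a conic without rational points.
-/

namespace Pool.Agent.Lib.MP_c385f6_ag

open Finset

section
variable {k K Ω ι : Type*} [Field k] [CharZero k] [Field K] [Field Ω] [Algebra k K] [Algebra k Ω]
  [Algebra K Ω] [IsScalarTower k K Ω] [IsAlgClosure K Ω] [Nonempty ι]
  {α β : ι → k} (hne : ∀ i j, i ≠ j → α i * β j ≠ α j * β i) {w : K}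
  (hram : ∀ A : ValuationSubring K, (∀ c : k, algebraMap k K c ∈ A) → ∀ j, ∃ h : K, h ≠ 0 ∧
    ((w ∈ A ∧ A.valuation (form α β w j) = A.valuation (h ^ 2)) ∨
      (w ∉ A ∧ A.valuation (form α β w j) = A.valuation (w * h ^ 2))))
include hram

omit [CharZero k] [Nonempty ι] in
theorem form_ne_zero (j : ι) : form α β w j ≠ 0 := by
  intro h0
  obtain ⟨h, hh, hc⟩ := hram ⊤ (fun c => trivial) j
  rcases hc with ⟨_, h1⟩ | ⟨h2, _⟩
  · rw [h0, map_zero] at h1
    exact pow_ne_zero 2 hh ((map_eq_zero _).1 h1.symm)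
  · exact h2 trivial

/-- The twists picked by a section. -/
theorem exists_twists {s : AbsGal k Ω →* PiOne k K Ω} (hs : IsSection k K Ω s) (j₀ : ι) :
    ∃ (d : ι → k) (Y : ι → maxUnramified k K Ω), (∀ j, d j ≠ 0) ∧ (∀ j g, s g (Y j) = Y j) ∧
      ∀ j, (Y j : Ω) ^ 2 = algebraMap k Ω (d j) *
        algebraMap K Ω (form α β w j / form α β w j₀) := by
  classical
  have hac : IsAlgClosed Ω := IsAlgClosure.isAlgClosed K
  have hf := form_ne_zero hram
  have key : ∀ j, ∃ d : k, d ≠ 0 ∧ ∃ y : maxUnramified k K Ω,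
      (y : Ω) ^ 2 = algebraMap k Ω d * algebraMap K Ω (form α β w j / form α β w j₀) ∧
        ∀ g, s g y = y := by
    intro j
    have hu0 : form α β w j / form α β w j₀ ≠ 0 := div_ne_zero (hf j) (hf j₀)
    obtain ⟨γ, hγ⟩ := IsAlgClosed.exists_pow_nat_eq
      (algebraMap K Ω (form α β w j / form α β w j₀)) two_pos
    have hγ0 : γ ≠ 0 := by
      rintro rfl
      rw [zero_pow two_ne_zero] at hγ
      exact (map_ne_zero (algebraMap K Ω)).2 hu0 hγ.symm
    have hγm : γ ∈ maxUnramified k K Ω := by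
      refine mem_ur_of_pow two_ne_zero ?_ fun B hB => ?_
      · rw [hγ]; exact (maxUnramified k K Ω).algebraMap_mem _
      · have hAk : ∀ c : k, algebraMap k K c ∈ B.comap (algebraMap K Ω) := by
          intro c
          show algebraMap K Ω (algebraMap k K c) ∈ B
          rw [← IsScalarTower.algebraMap_apply k K Ω]
          exact hB c
        obtain ⟨h, hh, hc⟩ := hram _ hAk j
        obtain ⟨h₀, hh₀, hc₀⟩ := hram _ hAk j₀
        refine ⟨algebraMap K Ω (h / h₀), (maxUnramified k K Ω).algebraMap_mem _,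
          (map_ne_zero _).2 (div_ne_zero hh hh₀), ?_⟩
        have hsq : B.valuation γ ^ 2 = B.valuation (algebraMap K Ω (h / h₀)) ^ 2 := by
          rw [← map_pow, hγ, ← map_pow, ← map_pow]
          have hv0 : ∀ z : K, z ≠ 0 → B.valuation (algebraMap K Ω z) ≠ 0 := fun z hz =>
            (Valuation.ne_zero_iff _).2 ((map_ne_zero _).2 hz)
          rcases hc with ⟨hw, h1⟩ | ⟨hw, h1⟩ <;> rcases hc₀ with ⟨hw₀, h2⟩ | ⟨hw₀, h2⟩
          · rw [map_div₀, map_div₀, comap_valuation h1, comap_valuation h2, ← map_div₀,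
              ← map_div₀, div_pow]
          · exact absurd hw hw₀
          · exact absurd hw₀ hw
          · have hw0 : w ≠ 0 := by
              rintro rfl
              exact hw (ValuationSubring.zero_mem _)
            rw [map_div₀, map_div₀, comap_valuation h1, comap_valuation h2, ← map_div₀,
              ← map_div₀, div_pow, mul_div_mul_left _ _ hw0]
        exact (pow_left_inj₀ zero_le zero_le two_ne_zero).1 hsq
    obtain ⟨d, hd, y, hy, hys⟩ := exists_twist hs (γ := ⟨γ, hγm⟩)
      (u := algebraMap K _ (form α β w j / form α β w j₀))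
      (fun h => hγ0 (congrArg Subtype.val h)) (Subtype.ext hγ) (fun g => (s g).commutes _)
    exact ⟨d, hd, y, hy, hys⟩
  choose d hd Y hY hYs using key
  exact ⟨d, Y, hd, hYs, hY⟩

omit [Nonempty ι] hram in
/-- The relations between the twists. -/
theorem twist_relation {s : AbsGal k Ω →* PiOne k K Ω} (hs : IsSection k K Ω s) {j₀ : ι}
    (hf0 : form α β w j₀ ≠ 0)
    {d : ι → k} {Y : ι → maxUnramified k K Ω} (hYs : ∀ j g, s g (Y j) = Y j)
    (hY : ∀ j, (Y j : Ω) ^ 2 = algebraMap k Ω (d j) *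
        algebraMap K Ω (form α β w j / form α β w j₀))
    (S : Finset ι) (c : k) (z : K) (hS : Even S.card) (hz : z ≠ 0)
    (hzc : z ^ 2 = algebraMap k K c * ∏ j ∈ S, form α β w j) :
    ∃ e : k, ∏ j ∈ S, d j = c * e ^ 2 := by
  classical
  obtain ⟨m, hm⟩ := hS
  have hac : IsAlgClosed Ω := IsAlgClosure.isAlgClosed K
  have hc0 : c ≠ 0 := by
    rintro rfl
    rw [map_zero, zero_mul] at hzc
    exact hz (pow_eq_zero_iff two_ne_zero |>.1 hzc)
  let e' : maxUnramified k K Ω := (∏ j ∈ S, Y j) * algebraMap K _ (form α β w j₀ ^ m / z)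
  have he's : ∀ g, s g e' = e' := by
    intro g
    show s g ((∏ j ∈ S, Y j) * algebraMap K _ (form α β w j₀ ^ m / z)) = _
    rw [map_mul, map_prod, (s g).commutes, Finset.prod_congr rfl (fun j _ => hYs j g)]
  have hcoe : (e' : Ω) = (∏ j ∈ S, (Y j : Ω)) * algebraMap K Ω (form α β w j₀ ^ m / z) := by
    show (((∏ j ∈ S, Y j) * algebraMap K _ (form α β w j₀ ^ m / z) :
      maxUnramified k K Ω) : Ω) = _
    rw [MulMemClass.coe_mul]
    refine congrArg₂ (· * ·) ?_ rfl
    exact map_prod (maxUnramified k K Ω).val (fun j => Y j) S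
  have he'2 : (e' : Ω) ^ 2 = algebraMap k Ω ((∏ j ∈ S, d j) / c) := by
    rw [hcoe, mul_pow, ← Finset.prod_pow, Finset.prod_congr rfl (fun j _ => hY j),
      Finset.prod_mul_distrib, ← map_prod, ← map_prod, Finset.prod_div_distrib,
      Finset.prod_const, hm, mul_assoc, ← map_pow, ← map_mul]
    have h2 : (∏ j ∈ S, form α β w j) / form α β w j₀ ^ (m + m) *
        (form α β w j₀ ^ m / z) ^ 2 = algebraMap k K c⁻¹ := by
      have hck : algebraMap k K c ≠ 0 := (map_ne_zero _).2 hc0
      rw [map_inv₀, div_pow, hzc, pow_add]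
      have hP : ∏ j ∈ S, form α β w j ≠ 0 := by
        intro h
        rw [h, mul_zero] at hzc
        exact hz (pow_eq_zero_iff two_ne_zero |>.1 hzc)
      field_simp
    rw [h2, ← IsScalarTower.algebraMap_apply k K Ω, ← map_mul, div_eq_mul_inv]
  have halg : (e' : Ω) ∈ algebraicClosure k Ω := by
    rw [mem_algebraicClosure_iff]
    refine ⟨Polynomial.X ^ 2 - Polynomial.C ((∏ j ∈ S, d j) / c),
      (Polynomial.monic_X_pow_sub_C _ two_ne_zero).ne_zero, ?_⟩
    rw [map_sub, map_pow, Polynomial.aeval_X, Polynomial.aeval_C, he'2, sub_self]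
  obtain ⟨e, he⟩ := fixed_const hs he's halg
  refine ⟨e, ?_⟩
  rw [he, ← map_pow] at he'2
  have := (algebraMap k Ω).injective he'2
  rw [this]
  field_simp

include hne

theorem forms_no_section
    (hcon : ∀ d : ι → k, (∀ j, d j ≠ 0) →
      (∀ (S : Finset ι) (c : k) (z : K), Even S.card → z ≠ 0 →
        z ^ 2 = algebraMap k K c * ∏ j ∈ S, form α β w j → ∃ e : k, ∏ j ∈ S, d j = c * e ^ 2) →
      (∃ a b c, a ≠ b ∧ b ≠ c ∧ a ≠ c ∧ ConicPoint α β d a b c) ∧
      (∃ a b c, a ≠ b ∧ b ≠ c ∧ a ≠ c ∧ ¬ ConicPoint α β d a b c))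
    (s : AbsGal k Ω →* PiOne k K Ω) : ¬ IsSection k K Ω s := by
  classical
  intro hs
  have hac : IsAlgClosed Ω := IsAlgClosure.isAlgClosed K
  have hacF : IsAlgClosed (algebraicClosure k Ω) := IsAlgClosure.isAlgClosed k
  obtain ⟨j₀⟩ := ‹Nonempty ι›
  have hf := form_ne_zero hram
  obtain ⟨d, Y, hd, hYs, hY⟩ := exists_twists hram hs j₀
  obtain ⟨⟨a, b, c, hab, hbc, hac', r, t, hrt⟩, a', b', c', hab', hbc', hac'', hnot⟩ := hcon d hd
    (fun S c z hS hz hzc => twist_relation hs (hf j₀) hYs hY S c z hS hz hzc)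
  have hkK := (algebraMap k K).injective
  have hkΩ := (algebraMap k Ω).injective
  have hKΩ := (algebraMap K Ω).injective
  -- determinants
  have hdet : ∀ i j, i ≠ j → α i * β j - α j * β i ≠ 0 := fun i j h => sub_ne_zero.2 (hne i j h)
  -- the conic relation
  have hrel : ∀ i j l, algebraMap k Ω ((α j * β l - α l * β j) * d j * d l) * (Y i : Ω) ^ 2 +
      algebraMap k Ω ((α l * β i - α i * β l) * d l * d i) * (Y j : Ω) ^ 2 +
      algebraMap k Ω ((α i * β j - α j * β i) * d i * d j) * (Y l : Ω) ^ 2 = 0 := by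
    intro i j l
    rw [hY, hY, hY]
    simp only [form, map_div₀, map_add, map_mul, map_sub,
      ← IsScalarTower.algebraMap_apply k K Ω]
    have h0 : algebraMap k Ω (α j₀) * algebraMap K Ω w + algebraMap k Ω (β j₀) ≠ 0 := by
      have := (map_ne_zero (algebraMap K Ω)).2 (hf j₀)
      simpa only [form, map_add, map_mul, ← IsScalarTower.algebraMap_apply k K Ω] using this
    field_simp
    ring
  set A₀ := (α b * β c - α c * β b) * d b * d c with hA₀
  set B₀ := (α c * β a - α a * β c) * d c * d a with hB₀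
  set C₀ := (α a * β b - α b * β a) * d a * d b with hC₀
  have hA0 : A₀ ≠ 0 := mul_ne_zero (mul_ne_zero (hdet _ _ hbc) (hd _)) (hd _)
  have hB0 : B₀ ≠ 0 := mul_ne_zero (mul_ne_zero (hdet _ _ hac'.symm) (hd _)) (hd _)
  have hC0 : C₀ ≠ 0 := mul_ne_zero (mul_ne_zero (hdet _ _ hab) (hd _)) (hd _)
  set A₁ := (α b' * β c' - α c' * β b') * d b' * d c' with hA₁
  set B₁ := (α c' * β a' - α a' * β c') * d c' * d a' with hB₁
  set C₁ := (α a' * β b' - α b' * β a') * d a' * d b' with hC₁
  have hA1 : A₁ ≠ 0 := mul_ne_zero (mul_ne_zero (hdet _ _ hbc') (hd _)) (hd _)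
  have hB1 : B₁ ≠ 0 := mul_ne_zero (mul_ne_zero (hdet _ _ hac''.symm) (hd _)) (hd _)
  have hC1 : C₁ ≠ 0 := mul_ne_zero (mul_ne_zero (hdet _ _ hab') (hd _)) (hd _)
  have hnot' : ∀ r t : k, A₁ * r ^ 2 + B₁ * t ^ 2 + C₁ ≠ 0 := fun r t h => hnot ⟨r, t, h⟩
  have hY0 : ∀ j, (Y j : Ω) ≠ 0 := by
    intro j h
    have h1 := hY j
    rw [h, zero_pow two_ne_zero] at h1
    exact mul_ne_zero ((map_ne_zero _).2 (hd j))
      ((map_ne_zero _).2 (div_ne_zero (hf j) (hf j₀))) h1.symm
  -- the constant case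
  by_cases hw : ∃ w₀ : k, w = algebraMap k K w₀
  · obtain ⟨w₀, hw₀⟩ := hw
    have hconst : ∀ j, ∃ c : k, (Y j : Ω) = algebraMap k Ω c := by
      intro j
      refine fixed_const hs (hYs j) ?_
      have h1 : (Y j : Ω) ^ 2 =
          algebraMap k Ω (d j * ((α j * w₀ + β j) / (α j₀ * w₀ + β j₀))) := by
        rw [hY j, map_mul, IsScalarTower.algebraMap_apply k K Ω
          ((α j * w₀ + β j) / (α j₀ * w₀ + β j₀))]
        congr 2
        simp only [form, hw₀, map_div₀, map_add, map_mul]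
      rw [mem_algebraicClosure_iff]
      refine ⟨Polynomial.X ^ 2 -
        Polynomial.C (d j * ((α j * w₀ + β j) / (α j₀ * w₀ + β j₀))),
        (Polynomial.monic_X_pow_sub_C _ two_ne_zero).ne_zero, ?_⟩
      rw [map_sub, map_pow, Polynomial.aeval_X, Polynomial.aeval_C, h1, sub_self]
    choose y hy using hconst
    have h1 := hrel a' b' c'
    rw [hy, hy, hy, ← map_pow, ← map_pow, ← map_pow, ← map_mul, ← map_mul, ← map_mul, ← map_add,
      ← map_add] at h1
    have h2 : A₁ * y a' ^ 2 + B₁ * y b' ^ 2 + C₁ * y c' ^ 2 = 0 :=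
      hkΩ (by rw [map_zero]; exact h1)
    have h3 : y a' ≠ 0 := by
      intro h
      apply hY0 a'
      rw [hy, h, map_zero]
    obtain ⟨r', t', h4⟩ := exists_point hA1 hB1 (Or.inl h3) h2
    exact hnot' r' t' h4
  -- square roots
  obtain ⟨θ, hθ⟩ : ∃ θ : algebraicClosure k Ω, θ ^ 2 = algebraMap k _ (-B₀ / A₀) :=
    IsAlgClosed.exists_pow_nat_eq _ two_pos
  have hθΩ : (θ : Ω) ^ 2 = algebraMap k Ω (-B₀ / A₀) := by
    have := congrArg (fun z : algebraicClosure k Ω => (z : Ω)) hθ
    push_cast at this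
    rw [map_div₀, map_neg]
    exact this
  -- the tangent line
  let ℓ : maxUnramified k K Ω := constHom k K Ω (algebraMap k _ r) * Y a +
    constHom k K Ω (algebraMap k _ (B₀ / A₀ * t)) * Y b +
    constHom k K Ω (algebraMap k _ (C₀ / A₀)) * Y c
  have hℓΩ : (ℓ : Ω) = algebraMap k Ω r * (Y a : Ω) + algebraMap k Ω (B₀ / A₀ * t) * (Y b : Ω) +
      algebraMap k Ω (C₀ / A₀) * (Y c : Ω) := rfl
  have hcs : ∀ g (c : k), s g (constHom k K Ω (algebraMap k _ c)) =
      constHom k K Ω (algebraMap k _ c) := by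
    intro g c
    apply Subtype.ext
    rw [hs.restrict g (algebraMap k _ c) _ rfl, AlgEquiv.commutes]
    rfl
  have hℓs : ∀ g, s g ℓ = ℓ := by
    intro g
    show s g (constHom k K Ω (algebraMap k _ r) * Y a +
      constHom k K Ω (algebraMap k _ (B₀ / A₀ * t)) * Y b +
      constHom k K Ω (algebraMap k _ (C₀ / A₀)) * Y c) = _
    rw [map_add, map_add, map_mul (s g), map_mul (s g), map_mul (s g), hcs, hcs, hcs, hYs, hYs,
      hYs]
  -- values
  have hmax : ∀ (B : ValuationSubring Ω), (∀ c : k, algebraMap k Ω c ∈ B) → ∀ i j, i ≠ j →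
      ∀ m, B.valuation (Y m : Ω) ≤ max (B.valuation (Y i : Ω)) (B.valuation (Y j : Ω)) := by
    intro B hB i j hij m
    set v := B.valuation with hv
    have hcv : ∀ c : k, v (algebraMap k Ω c) ≤ 1 := fun c => (B.valuation_le_one_iff _).2 (hB c)
    have h1 : (Y m : Ω) ^ 2 =
        algebraMap k Ω (d m * (α m * β j - α j * β m) / ((α i * β j - α j * β i) * d i)) *
          (Y i : Ω) ^ 2 +
        algebraMap k Ω (d m * (α i * β m - α m * β i) / ((α i * β j - α j * β i) * d j)) *
          (Y j : Ω) ^ 2 := by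
      have h2 := hrel i j m
      have h3 : algebraMap k Ω ((α i * β j - α j * β i) * d i * d j) ≠ 0 :=
        (map_ne_zero _).2 (mul_ne_zero (mul_ne_zero (hdet _ _ hij) (hd _)) (hd _))
      have h4 : algebraMap k Ω (α i * β j - α j * β i) ≠ 0 := (map_ne_zero _).2 (hdet _ _ hij)
      have h5 : algebraMap k Ω (d i) ≠ 0 := (map_ne_zero _).2 (hd i)
      have h6 : algebraMap k Ω (d j) ≠ 0 := (map_ne_zero _).2 (hd j)
      apply mul_left_cancel₀ h3
      simp only [map_mul, map_sub, map_div₀] at h2 h4 ⊢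
      field_simp
      linear_combination h2
    have h2 : v (Y m : Ω) ^ 2 ≤ (max (v (Y i : Ω)) (v (Y j : Ω))) ^ 2 := by
      rw [← map_pow, h1]
      refine (Valuation.map_add _ _ _).trans (max_le ?_ ?_)
      · rw [map_mul, map_pow]
        calc _ ≤ 1 * v (Y i : Ω) ^ 2 := by
              gcongr
              exact hcv _
          _ ≤ _ := by
              rw [one_mul]
              gcongr
              exact le_max_left _ _
      · rw [map_mul, map_pow]
        calc _ ≤ 1 * v (Y j : Ω) ^ 2 := by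
              gcongr
              exact hcv _
          _ ≤ _ := by
              rw [one_mul]
              gcongr
              exact le_max_right _ _
    exact (pow_le_pow_iff_left₀ zero_le zero_le two_ne_zero).1 h2
  -- the tangent line is not zero
  have hℓ0 : ℓ ≠ 0 := by
    intro hℓ
    have h0 : (ℓ : Ω) = 0 := congrArg Subtype.val hℓ
    rw [hℓΩ] at h0
    have hξ : (Y a : Ω) = algebraMap k Ω r * (Y c : Ω) :=
      tangent_zero hA0 hB0 hC0 hrt (hrel a b c) h0
    have h8 : (Y a : Ω) ^ 2 = algebraMap k Ω (r ^ 2) * (Y c : Ω) ^ 2 := by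
      rw [hξ, map_pow]; ring
    rw [hY, hY, IsScalarTower.algebraMap_apply k K Ω, IsScalarTower.algebraMap_apply k K Ω,
      IsScalarTower.algebraMap_apply k K Ω, ← map_mul, ← map_mul, ← map_mul] at h8
    have h9 := hKΩ h8
    have hf0 := hf j₀
    have h10 : algebraMap k K (d a) * form α β w a =
        algebraMap k K (r ^ 2) * algebraMap k K (d c) * form α β w c := by
      field_simp at h9
      linear_combination h9
    have h11 : algebraMap k K (d a * α a - r ^ 2 * d c * α c) * w =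
        algebraMap k K (r ^ 2 * d c * β c - d a * β a) := by
      simp only [form] at h10
      simp only [map_sub, map_mul, map_pow] at h10 ⊢
      linear_combination h10
    by_cases hp : d a * α a - r ^ 2 * d c * α c = 0
    · rw [hp, map_zero, zero_mul] at h11
      have h12 : r ^ 2 * d c * β c - d a * β a = 0 := hkK (by rw [map_zero]; exact h11.symm)
      apply mul_ne_zero (hd a) (hdet a c hac')
      linear_combination β c * hp + α c * h12
    · apply hw
      refine ⟨(r ^ 2 * d c * β c - d a * β a) / (d a * α a - r ^ 2 * d c * α c), ?_⟩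
      rw [map_div₀, eq_div_iff ((map_ne_zero _).2 hp), mul_comm]
      exact h11
  -- the conic without points
  have ha : ∀ u : k, u ^ 2 ≠ -B₁ / A₁ := by
    intro u hu
    obtain ⟨r', t', h4⟩ := exists_point_of_sq (C := C₁) hA1 hB1 hu
    exact hnot' r' t' h4
  have hb : ∀ u v : k, u ^ 2 - (-B₁ / A₁) * v ^ 2 ≠ -C₁ / A₁ := by
    intro u v h
    apply hnot' u v
    field_simp at h
    linear_combination h
  refine conic_fixed hs ha hb (x := Y a' / Y c') (y := Y b' / Y c') (g := ℓ / Y c')
    (fun g => by rw [map_div₀, hYs, hYs]) (fun g => by rw [map_div₀, hYs, hYs])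
    (fun g => by rw [map_div₀, hℓs, hYs]) ?_ ?_ ?_
  · have h1 := hrel a' b' c'
    have h2 := hY0 c'
    have h3 : algebraMap k Ω A₁ ≠ 0 := (map_ne_zero _).2 hA1
    have e1 : ((Y a' / Y c' : maxUnramified k K Ω) : Ω) = (Y a' : Ω) / (Y c' : Ω) := rfl
    have e2 : ((Y b' / Y c' : maxUnramified k K Ω) : Ω) = (Y b' : Ω) / (Y c' : Ω) := rfl
    rw [e1, e2, map_div₀, map_div₀, map_neg, map_neg]
    field_simp
    linear_combination h1
  · exact div_ne_zero hℓ0 (fun h => hY0 c' (congrArg Subtype.val h))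
  · intro B hB
    obtain ⟨ν, hν, hνv⟩ := tangent_parity hB hA0 hB0 hC0 hrt θ.2 hθΩ (hrel a b c)
    rw [← hℓΩ] at hνv
    have hνm : ν ∈ maxUnramified k K Ω := by
      have hcm : ∀ c : k, algebraMap k Ω c ∈ maxUnramified k K Ω := fun c =>
        const_mem_maxUnramified ((algebraicClosure k Ω).algebraMap_mem c)
      have hθm : (θ : Ω) ∈ maxUnramified k K Ω := const_mem_maxUnramified θ.2
      rcases hν with rfl | rfl
      · exact sub_mem (add_mem (Y a).2 (mul_mem hθm (Y b).2))
          (mul_mem (add_mem (hcm r) (mul_mem hθm (hcm t))) (Y c).2)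
      · exact sub_mem (sub_mem (Y a).2 (mul_mem hθm (Y b).2))
          (mul_mem (sub_mem (hcm r) (mul_mem hθm (hcm t))) (Y c).2)
    set v := B.valuation with hv
    have hv0 : ∀ j, v (Y j : Ω) ≠ 0 := fun j => (Valuation.ne_zero_iff _).2 (hY0 j)
    set M := max (v (Y a : Ω)) (v (Y b : Ω)) with hM
    have hM1 : ∀ j, v (Y j : Ω) ≤ M := fun j => hmax B hB a b hab j
    have hM2 : ∀ i j, i ≠ j → max (v (Y i : Ω)) (v (Y j : Ω)) = M := by
      intro i j hij
      refine le_antisymm (max_le (hM1 i) (hM1 j)) (max_le ?_ ?_)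
      · exact hmax B hB i j hij a
      · exact hmax B hB i j hij b
    have hM0 : M ≠ 0 := by
      intro h
      have := hM1 a
      rw [h] at this
      exact hv0 a (le_antisymm this zero_le)
    have hℓv0 : v (ℓ : Ω) ≠ 0 := (Valuation.ne_zero_iff _).2 (fun h => hℓ0 (Subtype.ext h))
    have hν0 : ν ≠ 0 := by
      intro h
      rw [h, map_zero, zero_pow two_ne_zero] at hνv
      exact mul_ne_zero hℓv0 hM0 hνv
    refine ⟨⟨ν, hνm⟩ / Y c', div_ne_zero (fun h => hν0 (congrArg Subtype.val h))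
      (fun h => hY0 c' (congrArg Subtype.val h)), ?_⟩
    push_cast
    rw [map_div₀, map_mul, map_div₀, map_div₀, map_pow, map_div₀, div_pow, ← hνv]
    rcases le_or_gt (v (Y a' : Ω)) (v (Y c' : Ω)) with h | h
    · left
      have h1 : v (Y c' : Ω) = M := by
        rw [← hM2 a' c' hac'', max_eq_right h]
      constructor
      · rw [← B.valuation_le_one_iff, ← hv, map_div₀]
        exact div_le_one_of_le₀ h zero_le
      · rw [h1, sq, mul_div_mul_right _ _ hM0]
    · right
      have h1 : v (Y a' : Ω) = M := by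
        rw [← hM2 a' c' hac'', max_eq_left h.le]
      constructor
      · rw [← B.valuation_le_one_iff, ← hv, map_div₀, not_le]
        exact (one_lt_div₀ (zero_lt_iff.2 (hv0 c'))).2 h
      · rw [h1, sq]
        rw [div_mul_div_comm]

end

section
variable {k K ι : Type*} [Field k] [CharZero k] [Field K] [Algebra k K]
  {α β : ι → k} (hne : ∀ i j, i ≠ j → α i * β j ≠ α j * β i) {w : K}
  (hram : ∀ A : ValuationSubring K, (∀ c : k, algebraMap k K c ∈ A) → ∀ j, ∃ h : K, h ≠ 0 ∧
    ((w ∈ A ∧ A.valuation (form α β w j) = A.valuation (h ^ 2)) ∨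
      (w ∉ A ∧ A.valuation (form α β w j) = A.valuation (w * h ^ 2))))
  (hcon : ∀ d : ι → k, (∀ j, d j ≠ 0) →
      (∀ (S : Finset ι) (c : k) (z : K), Even S.card → z ≠ 0 →
        z ^ 2 = algebraMap k K c * ∏ j ∈ S, form α β w j → ∃ e : k, ∏ j ∈ S, d j = c * e ^ 2) →
      (∃ a b c, a ≠ b ∧ b ≠ c ∧ a ≠ c ∧ ConicPoint α β d a b c) ∧
      (∃ a b c, a ≠ b ∧ b ≠ c ∧ a ≠ c ∧ ¬ ConicPoint α β d a b c))
include hne hram hcon

theorem forms_no_place (A : ValuationSubring K) : ¬ IsRationalPlace k K A := by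
  classical
  intro hA
  have hcA : ∀ c : k, algebraMap k K c ∈ A := hA.const_mem
  let j : k →+* IsLocalRing.ResidueField A :=
    (IsLocalRing.residue A).comp ((algebraMap k K).codRestrict A hcA)
  have hj : ∀ c : k, j c = IsLocalRing.residue A ⟨algebraMap k K c, hcA c⟩ := fun c => rfl
  have hres : ∀ z : A, ∃ c : k, IsLocalRing.residue A z = j c := by
    intro z
    obtain ⟨c, hc⟩ := hA.residue z z.2
    refine ⟨c, ?_⟩
    rw [hj, ← sub_eq_zero, ← map_sub, IsLocalRing.residue_eq_zero_iff,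
      ValuationSubring.valuation_lt_one_iff]
    exact hc
  have hsq : ∀ z : K, z ^ 2 ∈ A → z ∈ A := by
    intro z hz
    rw [← A.valuation_le_one_iff, map_pow] at hz
    rw [← A.valuation_le_one_iff]
    by_contra hcon
    push Not at hcon
    exact absurd hz (not_le.2 (one_lt_pow₀ hcon two_ne_zero))
  -- normalisation
  obtain ⟨N, hN0, p, q, hpq, hNA, hNr, hNh⟩ : ∃ N : K, N ≠ 0 ∧ ∃ p q : k, (p ≠ 0 ∨ q ≠ 0) ∧
      ∃ hNA : ∀ i, form α β w i / N ∈ A, (∀ i, IsLocalRing.residue A ⟨_, hNA i⟩ =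
        j (α i * p + β i * q)) ∧
      ∀ i, ∃ h : K, h ≠ 0 ∧ A.valuation (form α β w i) = A.valuation (N * h ^ 2) := by
    by_cases hw : w ∈ A
    · obtain ⟨w₀, hw₀⟩ := hres ⟨w, hw⟩
      refine ⟨1, one_ne_zero, w₀, 1, Or.inr one_ne_zero, ?_, ?_, ?_⟩
      · intro i
        rw [div_one]
        exact add_mem (mul_mem (hcA _) hw) (hcA _)
      · intro i
        rw [map_add, map_mul, map_mul, map_one, mul_one, ← hw₀, hj, hj, ← map_mul, ← map_add]
        congr 1
        apply Subtype.ext
        show form α β w i / 1 = _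
        rw [div_one]
        rfl
      · intro i
        obtain ⟨h, hh, hc⟩ := hram A hcA i
        rcases hc with ⟨_, h1⟩ | ⟨h1, _⟩
        · exact ⟨h, hh, by rw [one_mul]; exact h1⟩
        · exact absurd hw h1
    · have hw0 : w ≠ 0 := by
        rintro rfl
        exact hw A.zero_mem
      have hwv : A.valuation w⁻¹ < 1 := by
        rw [map_inv₀]
        apply inv_lt_one_of_one_lt₀
        rw [← not_le, A.valuation_le_one_iff]
        exact hw
      have hwi : w⁻¹ ∈ A := (A.valuation_le_one_iff _).1 hwv.le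
      have hform : ∀ i, form α β w i / w = algebraMap k K (α i) + algebraMap k K (β i) * w⁻¹ := by
        intro i
        rw [form]
        field_simp
      refine ⟨w, hw0, 1, 0, Or.inl one_ne_zero, ?_, ?_, ?_⟩
      · intro i
        rw [hform]
        exact add_mem (hcA _) (mul_mem (hcA _) hwi)
      · intro i
        have h1 : IsLocalRing.residue A ⟨w⁻¹, hwi⟩ = 0 := by
          rw [IsLocalRing.residue_eq_zero_iff, ValuationSubring.valuation_lt_one_iff]
          exact hwv
        have h2 : (⟨form α β w i / w, by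
            rw [hform]; exact add_mem (hcA _) (mul_mem (hcA _) hwi)⟩ : A) =
            ⟨algebraMap k K (α i), hcA _⟩ + ⟨algebraMap k K (β i), hcA _⟩ * ⟨w⁻¹, hwi⟩ :=
          Subtype.ext (hform i)
        rw [h2, map_add, map_mul, h1, mul_zero, add_zero, mul_one, mul_zero, add_zero, hj]
      · intro i
        obtain ⟨h, hh, hc⟩ := hram A hcA i
        rcases hc with ⟨h1, _⟩ | ⟨_, h1⟩
        · exact absurd h1 hw
        · exact ⟨h, hh, h1⟩
  choose h hh0 hhv using hNh
  have hf := form_ne_zero hram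
  -- units
  have hu1 : ∀ i, A.valuation (form α β w i / (N * h i ^ 2)) = 1 := by
    intro i
    rw [map_div₀, hhv i, div_self]
    exact (Valuation.ne_zero_iff _).2 (mul_ne_zero hN0 (pow_ne_zero _ (hh0 i)))
  have huA : ∀ i, form α β w i / (N * h i ^ 2) ∈ A := fun i =>
    (A.valuation_le_one_iff _).1 (hu1 i).le
  have hhA : ∀ i, h i ∈ A := by
    intro i
    apply hsq
    rw [← A.valuation_le_one_iff]
    have h1 : h i ^ 2 = form α β w i / N / (form α β w i / (N * h i ^ 2)) := by
      have := hf i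
      have := hh0 i
      field_simp
    rw [h1, map_div₀, hu1, div_one]
    exact (A.valuation_le_one_iff _).2 (hNA i)
  have hd' : ∀ i, ∃ c : k, IsLocalRing.residue A ⟨_, huA i⟩ = j c := fun i => hres _
  have he' : ∀ i, ∃ c : k, IsLocalRing.residue A ⟨_, hhA i⟩ = j c := fun i => hres _
  choose d hd using hd'
  choose e he using he'
  have hd0 : ∀ i, d i ≠ 0 := by
    intro i h0
    have h1 := hd i
    rw [h0, map_zero, IsLocalRing.residue_eq_zero_iff, ValuationSubring.valuation_lt_one_iff] at h1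
    have h2 : A.valuation (form α β w i / (N * h i ^ 2)) < 1 := h1
    rw [hu1] at h2
    exact lt_irrefl _ h2
  have hlam : ∀ i, α i * p + β i * q = d i * e i ^ 2 := by
    intro i
    apply j.injective
    rw [← hNr i, map_mul, map_pow, ← hd, ← he, ← map_pow, ← map_mul]
    congr 1
    apply Subtype.ext
    show form α β w i / N = form α β w i / (N * h i ^ 2) * h i ^ 2
    have := hh0 i
    field_simp
  obtain ⟨_, a, b, c, hab, hbc, hac, hnot⟩ := hcon d hd0 (by
    intro S c z hS hz hzc
    obtain ⟨m, hm⟩ := hS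
    have hc0 : c ≠ 0 := by
      rintro rfl
      rw [map_zero, zero_mul] at hzc
      exact hz (pow_eq_zero_iff two_ne_zero |>.1 hzc)
    have hz2 : (z / (N ^ m * ∏ i ∈ S, h i)) ^ 2 =
        algebraMap k K c * ∏ i ∈ S, (form α β w i / (N * h i ^ 2)) := by
      have hP : ∏ i ∈ S, h i ≠ 0 := Finset.prod_ne_zero_iff.2 fun i _ => hh0 i
      rw [div_pow, hzc, Finset.prod_div_distrib, Finset.prod_mul_distrib, Finset.prod_const, hm,
        Finset.prod_pow, mul_pow, ← pow_mul, mul_two]
      field_simp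
    have hprodA : ∀ T : Finset ι, ∏ i ∈ T, (form α β w i / (N * h i ^ 2)) ∈ A := fun T =>
      prod_mem fun i _ => huA i
    have hz'A : z / (N ^ m * ∏ i ∈ S, h i) ∈ A := by
      apply hsq
      rw [hz2]
      exact mul_mem (hcA c) (hprodA S)
    obtain ⟨e₀, he₀⟩ := hres ⟨_, hz'A⟩
    have h1 : (⟨_, hz'A⟩ : A) ^ 2 = ⟨algebraMap k K c, hcA c⟩ * ∏ i ∈ S, ⟨_, huA i⟩ := by
      apply Subtype.ext
      push_cast
      exact hz2
    have h2 := congrArg (IsLocalRing.residue A) h1
    rw [map_pow, he₀, map_mul, map_prod, Finset.prod_congr rfl (fun i _ => hd i), ← hj,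
      ← map_prod, ← map_mul, ← map_pow] at h2
    have h3 := j.injective h2
    refine ⟨e₀ / c, ?_⟩
    rw [div_pow, h3]
    field_simp)
  apply hnot
  have hdet : ∀ i j, i ≠ j → α i * β j - α j * β i ≠ 0 := fun i j h => sub_ne_zero.2 (hne i j h)
  refine exists_point (p := d a * e a) (q := d b * e b) (e := d c * e c)
    (mul_ne_zero (mul_ne_zero (hdet _ _ hbc) (hd0 _)) (hd0 _))
    (mul_ne_zero (mul_ne_zero (hdet _ _ hac.symm) (hd0 _)) (hd0 _)) ?_ ?_
  · by_contra hcon2
    push Not at hcon2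
    obtain ⟨h1, h2, _⟩ := hcon2
    have h3 : e a = 0 := (mul_eq_zero.1 h1).resolve_left (hd0 a)
    have h4 : e b = 0 := (mul_eq_zero.1 h2).resolve_left (hd0 b)
    have h5 := hlam a
    have h6 := hlam b
    rw [h3] at h5
    rw [h4] at h6
    have h7 : (α a * β b - α b * β a) * p = 0 := by linear_combination β b * h5 - β a * h6
    have h8 : (α a * β b - α b * β a) * q = 0 := by linear_combination α a * h6 - α b * h5
    rcases hpq with h9 | h9
    · exact mul_ne_zero (hdet a b hab) h9 h7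
    · exact mul_ne_zero (hdet a b hab) h9 h8
  · linear_combination (-(α b * β c - α c * β b) * d b * d c * d a) * hlam a -
      (α c * β a - α a * β c) * d c * d a * d b * hlam b -
      (α a * β b - α b * β a) * d a * d b * d c * hlam c

end

end Pool.Agent.Lib.MP_c385f6_ag
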