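import Mathlib
import Pool.Agent.Lib.MP_c385f6_ag.FormsMain

/-!
The twists picked by a section: if one of the conics has a rational point then all of them have.
-/

namespace Pool.Agent.Lib.MP_c385f6_ag

open Finset

section
variable {k K Ω ι : Type*} [Field k] [CharZero k] [Field K] [Field Ω] [Algebra k K] [Algebra k Ω]
  [Algebra K Ω] [IsScalarTower k K Ω] [IsAlgClosure K Ω]
  {α β : ι → k} (hne : ∀ i j, i ≠ j → α i * β j ≠ α j * β i) {w : K}
  (hram : ∀ A : ValuationSubring K, (∀ c : k, algebraMap k K c ∈ A) → ∀ j, ∃ h : K, h ≠ 0 ∧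
    ((w ∈ A ∧ A.valuation (form α β w j) = A.valuation (h ^ 2)) ∨
      (w ∉ A ∧ A.valuation (form α β w j) = A.valuation (w * h ^ 2))))
include hram hne

/-- If one conic belonging to the twists of a section has a point then all have. -/
theorem forms_conics {s : AbsGal k Ω →* PiOne k K Ω} (hs : IsSection k K Ω s) {j₀ : ι}
    {d : ι → k} (hd : ∀ j, d j ≠ 0) {Y : ι → maxUnramified k K Ω} (hYs : ∀ j g, s g (Y j) = Y j)
    (hY : ∀ j, (Y j : Ω) ^ 2 = algebraMap k Ω (d j) *
        algebraMap K Ω (form α β w j / form α β w j₀))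
    {a b c : ι} (hab : a ≠ b) (hbc : b ≠ c) (hac' : a ≠ c) (hpt : ConicPoint α β d a b c)
    {a' b' c' : ι} (hab' : a' ≠ b') (hbc' : b' ≠ c') (hac'' : a' ≠ c') :
    ConicPoint α β d a' b' c' := by
  classical
  by_contra hnot
  obtain ⟨r, t, hrt⟩ := hpt
  have hac : IsAlgClosed Ω := IsAlgClosure.isAlgClosed K
  have hacF : IsAlgClosed (algebraicClosure k Ω) := IsAlgClosure.isAlgClosed k
  have hf := form_ne_zero hram
  have hkK := (algebraMap k K).injective
  have hkΩ := (algebraMap k Ω).injective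
  have hKΩ := (algebraMap K Ω).injective
  -- determinants
  have hdet : ∀ i j, i ≠ j → α i * β j - α j * β i ≠ 0 := fun i j h => sub_ne_zero.2 (hne i j h)
  -- the conic relation
  have hrel : ∀ i j l, algebraMap k Ω ((α j * β l - α l * β j) * d j * d l) * (Y i : Ω) ^ 2 +
      algebraMap k Ω ((α l * β i - α i * β l) * d l * d i) * (Y j : Ω) ^ 2 +
      algebraMap k Ω ((α i * β j - α j * β i) * d i * d j) * (Y l : Ω) ^ 2 = 0 := by
    intro i j l
    rw [hY, hY, hY]
    simp only [form, map_div₀, map_add, map_mul, map_sub,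
      ← IsScalarTower.algebraMap_apply k K Ω]
    have h0 : algebraMap k Ω (α j₀) * algebraMap K Ω w + algebraMap k Ω (β j₀) ≠ 0 := by
      have := (map_ne_zero (algebraMap K Ω)).2 (hf j₀)
      simpa only [form, map_add, map_mul, ← IsScalarTower.algebraMap_apply k K Ω] using this
    field_simp
    ring
  set A₀ := (α b * β c - α c * β b) * d b * d c with hA₀
  set B₀ := (α c * β a - α a * β c) * d c * d a with hB₀
  set C₀ := (α a * β b - α b * β a) * d a * d b with hC₀
  have hA0 : A₀ ≠ 0 := mul_ne_zero (mul_ne_zero (hdet _ _ hbc) (hd _)) (hd _)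
  have hB0 : B₀ ≠ 0 := mul_ne_zero (mul_ne_zero (hdet _ _ hac'.symm) (hd _)) (hd _)
  have hC0 : C₀ ≠ 0 := mul_ne_zero (mul_ne_zero (hdet _ _ hab) (hd _)) (hd _)
  set A₁ := (α b' * β c' - α c' * β b') * d b' * d c' with hA₁
  set B₁ := (α c' * β a' - α a' * β c') * d c' * d a' with hB₁
  set C₁ := (α a' * β b' - α b' * β a') * d a' * d b' with hC₁
  have hA1 : A₁ ≠ 0 := mul_ne_zero (mul_ne_zero (hdet _ _ hbc') (hd _)) (hd _)
  have hB1 : B₁ ≠ 0 := mul_ne_zero (mul_ne_zero (hdet _ _ hac''.symm) (hd _)) (hd _)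
  have hC1 : C₁ ≠ 0 := mul_ne_zero (mul_ne_zero (hdet _ _ hab') (hd _)) (hd _)
  have hnot' : ∀ r t : k, A₁ * r ^ 2 + B₁ * t ^ 2 + C₁ ≠ 0 := fun r t h => hnot ⟨r, t, h⟩
  have hY0 : ∀ j, (Y j : Ω) ≠ 0 := by
    intro j h
    have h1 := hY j
    rw [h, zero_pow two_ne_zero] at h1
    exact mul_ne_zero ((map_ne_zero _).2 (hd j))
      ((map_ne_zero _).2 (div_ne_zero (hf j) (hf j₀))) h1.symm
  -- the constant case
  by_cases hw : ∃ w₀ : k, w = algebraMap k K w₀
  · obtain ⟨w₀, hw₀⟩ := hw
    have hconst : ∀ j, ∃ c : k, (Y j : Ω) = algebraMap k Ω c := by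
      intro j
      refine fixed_const hs (hYs j) ?_
      have h1 : (Y j : Ω) ^ 2 =
          algebraMap k Ω (d j * ((α j * w₀ + β j) / (α j₀ * w₀ + β j₀))) := by
        rw [hY j, map_mul, IsScalarTower.algebraMap_apply k K Ω
          ((α j * w₀ + β j) / (α j₀ * w₀ + β j₀))]
        congr 2
        simp only [form, hw₀, map_div₀, map_add, map_mul]
      rw [mem_algebraicClosure_iff]
      refine ⟨Polynomial.X ^ 2 -
        Polynomial.C (d j * ((α j * w₀ + β j) / (α j₀ * w₀ + β j₀))),
        (Polynomial.monic_X_pow_sub_C _ two_ne_zero).ne_zero, ?_⟩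
      rw [map_sub, map_pow, Polynomial.aeval_X, Polynomial.aeval_C, h1, sub_self]
    choose y hy using hconst
    have h1 := hrel a' b' c'
    rw [hy, hy, hy, ← map_pow, ← map_pow, ← map_pow, ← map_mul, ← map_mul, ← map_mul, ← map_add,
      ← map_add] at h1
    have h2 : A₁ * y a' ^ 2 + B₁ * y b' ^ 2 + C₁ * y c' ^ 2 = 0 :=
      hkΩ (by rw [map_zero]; exact h1)
    have h3 : y a' ≠ 0 := by
      intro h
      apply hY0 a'
      rw [hy, h, map_zero]
    obtain ⟨r', t', h4⟩ := exists_point hA1 hB1 (Or.inl h3) h2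
    exact hnot' r' t' h4
  -- square roots
  obtain ⟨θ, hθ⟩ : ∃ θ : algebraicClosure k Ω, θ ^ 2 = algebraMap k _ (-B₀ / A₀) :=
    IsAlgClosed.exists_pow_nat_eq _ two_pos
  have hθΩ : (θ : Ω) ^ 2 = algebraMap k Ω (-B₀ / A₀) := by
    have := congrArg (fun z : algebraicClosure k Ω => (z : Ω)) hθ
    push_cast at this
    rw [map_div₀, map_neg]
    exact this
  -- the tangent line
  let ℓ : maxUnramified k K Ω := constHom k K Ω (algebraMap k _ r) * Y a +
    constHom k K Ω (algebraMap k _ (B₀ / A₀ * t)) * Y b +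
    constHom k K Ω (algebraMap k _ (C₀ / A₀)) * Y c
  have hℓΩ : (ℓ : Ω) = algebraMap k Ω r * (Y a : Ω) + algebraMap k Ω (B₀ / A₀ * t) * (Y b : Ω) +
      algebraMap k Ω (C₀ / A₀) * (Y c : Ω) := rfl
  have hcs : ∀ g (c : k), s g (constHom k K Ω (algebraMap k _ c)) =
      constHom k K Ω (algebraMap k _ c) := by
    intro g c
    apply Subtype.ext
    rw [hs.restrict g (algebraMap k _ c) _ rfl, AlgEquiv.commutes]
    rfl
  have hℓs : ∀ g, s g ℓ = ℓ := by
    intro g
    show s g (constHom k K Ω (algebraMap k _ r) * Y a +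
      constHom k K Ω (algebraMap k _ (B₀ / A₀ * t)) * Y b +
      constHom k K Ω (algebraMap k _ (C₀ / A₀)) * Y c) = _
    rw [map_add, map_add, map_mul (s g), map_mul (s g), map_mul (s g), hcs, hcs, hcs, hYs, hYs,
      hYs]
  -- values
  have hmax : ∀ (B : ValuationSubring Ω), (∀ c : k, algebraMap k Ω c ∈ B) → ∀ i j, i ≠ j →
      ∀ m, B.valuation (Y m : Ω) ≤ max (B.valuation (Y i : Ω)) (B.valuation (Y j : Ω)) := by
    intro B hB i j hij m
    set v := B.valuation with hv
    have hcv : ∀ c : k, v (algebraMap k Ω c) ≤ 1 := fun c => (B.valuation_le_one_iff _).2 (hB c)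
    have h1 : (Y m : Ω) ^ 2 =
        algebraMap k Ω (d m * (α m * β j - α j * β m) / ((α i * β j - α j * β i) * d i)) *
          (Y i : Ω) ^ 2 +
        algebraMap k Ω (d m * (α i * β m - α m * β i) / ((α i * β j - α j * β i) * d j)) *
          (Y j : Ω) ^ 2 := by
      have h2 := hrel i j m
      have h3 : algebraMap k Ω ((α i * β j - α j * β i) * d i * d j) ≠ 0 :=
        (map_ne_zero _).2 (mul_ne_zero (mul_ne_zero (hdet _ _ hij) (hd _)) (hd _))
      have h4 : algebraMap k Ω (α i * β j - α j * β i) ≠ 0 := (map_ne_zero _).2 (hdet _ _ hij)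
      have h5 : algebraMap k Ω (d i) ≠ 0 := (map_ne_zero _).2 (hd i)
      have h6 : algebraMap k Ω (d j) ≠ 0 := (map_ne_zero _).2 (hd j)
      apply mul_left_cancel₀ h3
      simp only [map_mul, map_sub, map_div₀] at h2 h4 ⊢
      field_simp
      linear_combination h2
    have h2 : v (Y m : Ω) ^ 2 ≤ (max (v (Y i : Ω)) (v (Y j : Ω))) ^ 2 := by
      rw [← map_pow, h1]
      refine (Valuation.map_add _ _ _).trans (max_le ?_ ?_)
      · rw [map_mul, map_pow]
        calc _ ≤ 1 * v (Y i : Ω) ^ 2 := by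
              gcongr
              exact hcv _
          _ ≤ _ := by
              rw [one_mul]
              gcongr
              exact le_max_left _ _
      · rw [map_mul, map_pow]
        calc _ ≤ 1 * v (Y j : Ω) ^ 2 := by
              gcongr
              exact hcv _
          _ ≤ _ := by
              rw [one_mul]
              gcongr
              exact le_max_right _ _
    exact (pow_le_pow_iff_left₀ zero_le zero_le two_ne_zero).1 h2
  -- the tangent line is not zero
  have hℓ0 : ℓ ≠ 0 := by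
    intro hℓ
    have h0 : (ℓ : Ω) = 0 := congrArg Subtype.val hℓ
    rw [hℓΩ] at h0
    have hξ : (Y a : Ω) = algebraMap k Ω r * (Y c : Ω) :=
      tangent_zero hA0 hB0 hC0 hrt (hrel a b c) h0
    have h8 : (Y a : Ω) ^ 2 = algebraMap k Ω (r ^ 2) * (Y c : Ω) ^ 2 := by
      rw [hξ, map_pow]; ring
    rw [hY, hY, IsScalarTower.algebraMap_apply k K Ω, IsScalarTower.algebraMap_apply k K Ω,
      IsScalarTower.algebraMap_apply k K Ω, ← map_mul, ← map_mul, ← map_mul] at h8
    have h9 := hKΩ h8
    have hf0 := hf j₀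
    have h10 : algebraMap k K (d a) * form α β w a =
        algebraMap k K (r ^ 2) * algebraMap k K (d c) * form α β w c := by
      field_simp at h9
      linear_combination h9
    have h11 : algebraMap k K (d a * α a - r ^ 2 * d c * α c) * w =
        algebraMap k K (r ^ 2 * d c * β c - d a * β a) := by
      simp only [form] at h10
      simp only [map_sub, map_mul, map_pow] at h10 ⊢
      linear_combination h10
    by_cases hp : d a * α a - r ^ 2 * d c * α c = 0
    · rw [hp, map_zero, zero_mul] at h11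
      have h12 : r ^ 2 * d c * β c - d a * β a = 0 := hkK (by rw [map_zero]; exact h11.symm)
      apply mul_ne_zero (hd a) (hdet a c hac')
      linear_combination β c * hp + α c * h12
    · apply hw
      refine ⟨(r ^ 2 * d c * β c - d a * β a) / (d a * α a - r ^ 2 * d c * α c), ?_⟩
      rw [map_div₀, eq_div_iff ((map_ne_zero _).2 hp), mul_comm]
      exact h11
  -- the conic without points
  have ha : ∀ u : k, u ^ 2 ≠ -B₁ / A₁ := by
    intro u hu
    obtain ⟨r', t', h4⟩ := exists_point_of_sq (C := C₁) hA1 hB1 hu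
    exact hnot' r' t' h4
  have hb : ∀ u v : k, u ^ 2 - (-B₁ / A₁) * v ^ 2 ≠ -C₁ / A₁ := by
    intro u v h
    apply hnot' u v
    field_simp at h
    linear_combination h
  refine conic_fixed hs ha hb (x := Y a' / Y c') (y := Y b' / Y c') (g := ℓ / Y c')
    (fun g => by rw [map_div₀, hYs, hYs]) (fun g => by rw [map_div₀, hYs, hYs])
    (fun g => by rw [map_div₀, hℓs, hYs]) ?_ ?_ ?_
  · have h1 := hrel a' b' c'
    have h2 := hY0 c'
    have h3 : algebraMap k Ω A₁ ≠ 0 := (map_ne_zero _).2 hA1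
    have e1 : ((Y a' / Y c' : maxUnramified k K Ω) : Ω) = (Y a' : Ω) / (Y c' : Ω) := rfl
    have e2 : ((Y b' / Y c' : maxUnramified k K Ω) : Ω) = (Y b' : Ω) / (Y c' : Ω) := rfl
    rw [e1, e2, map_div₀, map_div₀, map_neg, map_neg]
    field_simp
    linear_combination h1
  · exact div_ne_zero hℓ0 (fun h => hY0 c' (congrArg Subtype.val h))
  · intro B hB
    obtain ⟨ν, hν, hνv⟩ := tangent_parity hB hA0 hB0 hC0 hrt θ.2 hθΩ (hrel a b c)
    rw [← hℓΩ] at hνv
    have hνm : ν ∈ maxUnramified k K Ω := by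
      have hcm : ∀ c : k, algebraMap k Ω c ∈ maxUnramified k K Ω := fun c =>
        const_mem_maxUnramified ((algebraicClosure k Ω).algebraMap_mem c)
      have hθm : (θ : Ω) ∈ maxUnramified k K Ω := const_mem_maxUnramified θ.2
      rcases hν with rfl | rfl
      · exact sub_mem (add_mem (Y a).2 (mul_mem hθm (Y b).2))
          (mul_mem (add_mem (hcm r) (mul_mem hθm (hcm t))) (Y c).2)
      · exact sub_mem (sub_mem (Y a).2 (mul_mem hθm (Y b).2))
          (mul_mem (sub_mem (hcm r) (mul_mem hθm (hcm t))) (Y c).2)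
    set v := B.valuation with hv
    have hv0 : ∀ j, v (Y j : Ω) ≠ 0 := fun j => (Valuation.ne_zero_iff _).2 (hY0 j)
    set M := max (v (Y a : Ω)) (v (Y b : Ω)) with hM
    have hM1 : ∀ j, v (Y j : Ω) ≤ M := fun j => hmax B hB a b hab j
    have hM2 : ∀ i j, i ≠ j → max (v (Y i : Ω)) (v (Y j : Ω)) = M := by
      intro i j hij
      refine le_antisymm (max_le (hM1 i) (hM1 j)) (max_le ?_ ?_)
      · exact hmax B hB i j hij a
      · exact hmax B hB i j hij b
    have hM0 : M ≠ 0 := by
      intro h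
      have := hM1 a
      rw [h] at this
      exact hv0 a (le_antisymm this zero_le)
    have hℓv0 : v (ℓ : Ω) ≠ 0 := (Valuation.ne_zero_iff _).2 (fun h => hℓ0 (Subtype.ext h))
    have hν0 : ν ≠ 0 := by
      intro h
      rw [h, map_zero, zero_pow two_ne_zero] at hνv
      exact mul_ne_zero hℓv0 hM0 hνv
    refine ⟨⟨ν, hνm⟩ / Y c', div_ne_zero (fun h => hν0 (congrArg Subtype.val h))
      (fun h => hY0 c' (congrArg Subtype.val h)), ?_⟩
    push_cast
    rw [map_div₀, map_mul, map_div₀, map_div₀, map_pow, map_div₀, div_pow, ← hνv]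
    rcases le_or_gt (v (Y a' : Ω)) (v (Y c' : Ω)) with h | h
    · left
      have h1 : v (Y c' : Ω) = M := by
        rw [← hM2 a' c' hac'', max_eq_right h]
      constructor
      · rw [← B.valuation_le_one_iff, ← hv, map_div₀]
        exact div_le_one_of_le₀ h zero_le
      · rw [h1, sq, mul_div_mul_right _ _ hM0]
    · right
      have h1 : v (Y a' : Ω) = M := by
        rw [← hM2 a' c' hac'', max_eq_left h.le]
      constructor
      · rw [← B.valuation_le_one_iff, ← hv, map_div₀, not_le]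
        exact (one_lt_div₀ (zero_lt_iff.2 (hv0 c'))).2 h
      · rw [h1, sq]
        rw [div_mul_div_comm]

end

end Pool.Agent.Lib.MP_c385f6_ag
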