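import Mathlib
import Pool.Agent.Lib.MP_c385f6_ag.Core

/-!
Curves `y ^ n = c N(h)(x)`, `h` a polynomial over a cyclic extension `E / k` of degree `n` that is
coprime to its conjugates.
-/

namespace Pool.Agent.Lib.MP_c385f6_ag

open Finset Polynomial

/-- The product over the Galois group as a product over the powers of a generator. -/
theorem prod_aut_eq {k E M : Type*} [Field k] [Field E] [Algebra k E] [FiniteDimensional k E]
    [IsGalois k E] [CommMonoid M] {σ : E ≃ₐ[k] E} (hσ : ∀ g, g ∈ Subgroup.zpowers σ)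
    (F : (E ≃ₐ[k] E) → M) :
    ∏ g : E ≃ₐ[k] E, F g = ∏ i ∈ range (Module.finrank k E), F (σ ^ i) := by
  classical
  have hord : orderOf σ = Module.finrank k E := by
    rw [orderOf_eq_card_of_forall_mem_zpowers hσ, IsGalois.card_aut_eq_finrank]
  have hinj : Set.InjOn (fun i => σ ^ i) (range (Module.finrank k E) : Finset ℕ) := by
    intro i hi j hj hij
    rw [← hord] at hi hj
    exact pow_injOn_Iio_orderOf (by simpa using hi) (by simpa using hj) hij
  have himg : (range (Module.finrank k E)).image (fun i => σ ^ i) = univ := by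
    apply Finset.eq_univ_of_card
    rw [Finset.card_image_of_injOn hinj, card_range, ← IsGalois.card_aut_eq_finrank k E,
      Nat.card_eq_fintype_card]
  rw [← himg, Finset.prod_image hinj]

theorem norm_inv_eq {k E : Type*} [Field k] [Field E] [Algebra k E] {z : E} (hz : z ≠ 0) :
    Algebra.norm k z⁻¹ = (Algebra.norm k z)⁻¹ :=
  eq_inv_of_mul_eq_one_left (by rw [← map_mul, inv_mul_cancel₀ hz, map_one])

theorem pow_ne_one' {k E : Type*} [Field k] [Field E] [Algebra k E] [FiniteDimensional k E]
    [IsGalois k E] {σ : E ≃ₐ[k] E} (hσ : ∀ g, g ∈ Subgroup.zpowers σ) {i j : ℕ}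
    (hi : i < Module.finrank k E) (hj : j < Module.finrank k E) (h : σ ^ i = σ ^ j) : i = j := by
  have hord : orderOf σ = Module.finrank k E := by
    rw [orderOf_eq_card_of_forall_mem_zpowers hσ, IsGalois.card_aut_eq_finrank]
  exact pow_injOn_Iio_orderOf (by simpa [hord] using hi) (by simpa [hord] using hj) h

section
variable {k K Ω E : Type*} [Field k] [Field K] [Field Ω] [Algebra k K] [Algebra k Ω]
  [Algebra K Ω] [IsScalarTower k K Ω] [Field E] [Algebra k E]
  [FiniteDimensional k E] [IsGalois k E]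
  {σ : E ≃ₐ[k] E} (hσ : ∀ g, g ∈ Subgroup.zpowers σ) (φ : E →ₐ[k] algebraicClosure k Ω)
  {h : E[X]} (hcop : ∀ g : E ≃ₐ[k] E, g ≠ 1 → IsCoprime h (h.map (g : E →+* E)))

/-- The embedding `φ ∘ σ ^ i` of `E` in `Ω`. -/
noncomputable def emb (φ : E →ₐ[k] algebraicClosure k Ω) (σ : E ≃ₐ[k] E) (i : ℕ) : E →+* Ω :=
  ((algebraicClosure k Ω).val : algebraicClosure k Ω →+* Ω).comp
    ((φ : E →+* algebraicClosure k Ω).comp ((σ ^ i : E ≃ₐ[k] E) : E →+* E))

theorem emb_mem (i : ℕ) (z : E) : emb φ σ i z ∈ algebraicClosure k Ω :=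
  (φ ((σ ^ i) z)).2

theorem conj_eq (x : K) (i : ℕ) : conj φ σ h x i = h.eval₂ (emb φ σ i) (algebraMap K Ω x) := rfl

theorem emb_comp (i : ℕ) : (emb φ σ i).comp (algebraMap k E) = algebraMap k Ω := by
  ext c
  show ((φ ((σ ^ i) (algebraMap k E c)) : algebraicClosure k Ω) : Ω) = _
  rw [AlgEquiv.commutes, φ.commutes]
  rfl

theorem prod_conj {f : k[X]} (hσ : ∀ g, g ∈ Subgroup.zpowers σ)
    (hf : f.map (algebraMap k E) = ∏ g : E ≃ₐ[k] E, h.map (g : E →+* E)) (x : K) :
    ∏ i ∈ range (Module.finrank k E), conj φ σ h x i = algebraMap K Ω (aeval x f) := by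
  have h1 : algebraMap K Ω (aeval x f) = (f.map (algebraMap k E)).eval₂ (emb φ σ 0)
      (algebraMap K Ω x) := by
    rw [eval₂_map, emb_comp]
    exact (Polynomial.aeval_algebraMap_apply Ω x f).symm
  rw [h1, hf, prod_aut_eq hσ, eval₂_finsetProd]
  refine Finset.prod_congr rfl fun i _ => ?_
  rw [eval₂_map, conj_eq]
  congr 1

include hcop hσ

/-- Two different conjugates have no common zero. -/
theorem conj_coprime {B : ValuationSubring Ω} (hB : ∀ c : k, algebraMap k Ω c ∈ B) {x : K}
    (hx : algebraMap K Ω x ∈ B) {i j : ℕ} (hi : i < Module.finrank k E)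
    (hj : j < Module.finrank k E) (hij : i < j) :
    ∃ u ∈ B, ∃ w ∈ B, u * conj φ σ h x i + w * conj φ σ h x j = 1 := by
  have hne : σ ^ (j - i) ≠ 1 := by
    intro h1
    have h2 := pow_ne_one' hσ (i := j - i) (j := 0) (by omega) (by omega) (by rw [h1, pow_zero])
    omega
  obtain ⟨p, q, hpq⟩ := hcop _ hne
  have h1 := congrArg (fun r => eval₂ (emb φ σ i) (algebraMap K Ω x) r) hpq
  simp only [eval₂_add, eval₂_mul, eval₂_one, eval₂_map] at h1
  have h2 : (emb φ σ i).comp ((σ ^ (j - i) : E ≃ₐ[k] E) : E →+* E) = emb φ σ j := by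
    ext z
    show ((φ ((σ ^ i) ((σ ^ (j - i)) z)) : algebraicClosure k Ω) : Ω) =
      ((φ ((σ ^ j) z) : algebraicClosure k Ω) : Ω)
    rw [← AlgEquiv.mul_apply, ← pow_add, Nat.add_sub_cancel' hij.le]
  rw [h2] at h1
  have hmem : ∀ r : E[X], r.eval₂ (emb φ σ i) (algebraMap K Ω x) ∈ B := by
    intro r
    rw [eval₂_eq_sum_range]
    exact sum_mem fun m _ => mul_mem (mem_of_algebraic hB (emb_mem φ i _)) (pow_mem hx m)
  exact ⟨_, hmem p, _, hmem q, h1⟩

end

section
variable {k K Ω E : Type*} [Field k] [Field K] [Field Ω] [Algebra k K] [Algebra k Ω]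
  [Algebra K Ω] [IsScalarTower k K Ω] [Field E] [Algebra k E]
  [FiniteDimensional k E] [IsGalois k E]
  {σ : E ≃ₐ[k] E} (hσ : ∀ g, g ∈ Subgroup.zpowers σ) (φ : E →ₐ[k] algebraicClosure k Ω)
  {h : E[X]} (hcop : ∀ g : E ≃ₐ[k] E, g ≠ 1 → IsCoprime h (h.map (g : E →+* E)))
  (hh : h ≠ 0) {B : ValuationSubring Ω} (hB : ∀ c : k, algebraMap k Ω c ∈ B)
  {x y : K} {c : k} (hc : c ≠ 0) (hy : y ≠ 0)
  (hxy : algebraMap K Ω y ^ (Module.finrank k E) = algebraMap k Ω c *
    ∏ i ∈ range (Module.finrank k E), conj φ σ h x i)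
  {r q : ℕ} (hr : r * h.natDegree * (Module.finrank k E - 1) = 2 * q)
  {γ : Ω} (hγ : γ ^ (Module.finrank k E) = ∏ i ∈ range (Module.finrank k E),
    ((conj φ σ h x i) ^ r) ^ i)
include hσ hcop hh hB hc hy hxy hr hγ

theorem valuation_gamma_norm : ∃ z : K, z ≠ 0 ∧ B.valuation γ = B.valuation (algebraMap K Ω z) := by
  classical
  set n := Module.finrank k E with hndef
  have hn : n ≠ 0 := Module.finrank_pos.ne'
  set v := B.valuation with hv
  have hinj : ∀ a c : ValuationSubring.ValueGroup B, a ^ n = c ^ n → a = c := by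
    intro a c h
    exact (pow_left_inj₀ zero_le zero_le hn).1 h
  have hγv : v γ ^ n = ∏ i ∈ range n, v (conj φ σ h x i) ^ (r * i) := by
    rw [← map_pow, hγ, map_prod]
    refine Finset.prod_congr rfl fun i _ => ?_
    rw [map_pow, map_pow, pow_mul]
  have hcv : v (algebraMap k Ω c) = 1 := by
    refine valuation_eq_one hB ((algebraicClosure k Ω).algebraMap_mem c) ?_
    intro h; exact hc ((algebraMap k Ω).injective (by rw [map_zero]; exact h))
  by_cases hx : algebraMap K Ω x ∈ B
  · have hle : ∀ i, v (conj φ σ h x i) ≤ 1 := by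
      intro i
      rw [conj_eq, eval₂_eq_sum_range]
      refine (B.valuation_le_one_iff _).2 ?_
      exact sum_mem fun m _ => mul_mem (mem_of_algebraic hB (emb_mem φ i _)) (pow_mem hx m)
    -- at most one conjugate has positive valuation
    have hone : ∀ i < n, ∀ j < n, i < j → v (conj φ σ h x i) < 1 → v (conj φ σ h x j) = 1 := by
      intro i hi j hj hij hlt
      obtain ⟨u, hu, w, hw, huw⟩ := conj_coprime hσ φ hcop hB hx hi hj hij
      refine le_antisymm (hle j) ?_
      by_contra hcon
      push Not at hcon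
      have h1 : v (u * conj φ σ h x i + w * conj φ σ h x j) < 1 := by
        refine (Valuation.map_add _ _ _).trans_lt (max_lt ?_ ?_)
        · rw [map_mul]
          calc v u * v (conj φ σ h x i) ≤ 1 * v (conj φ σ h x i) := by
                gcongr
                exact (B.valuation_le_one_iff _).2 hu
            _ < 1 := by rw [one_mul]; exact hlt
        · rw [map_mul]
          calc v w * v (conj φ σ h x j) ≤ 1 * v (conj φ σ h x j) := by
                gcongr
                exact (B.valuation_le_one_iff _).2 hw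
            _ < 1 := by rw [one_mul]; exact hcon
      rw [huw, map_one] at h1
      exact lt_irrefl _ h1
    obtain ⟨i₀, hi₀, hother⟩ : ∃ i₀ ∈ range n, ∀ i ∈ range n, i ≠ i₀ →
        v (conj φ σ h x i) = 1 := by
      by_cases hex : ∃ i₀ ∈ range n, v (conj φ σ h x i₀) < 1
      · obtain ⟨i₀, hi₀, hlt⟩ := hex
        refine ⟨i₀, hi₀, fun i hi hne => ?_⟩
        rw [Finset.mem_range] at hi hi₀
        rcases lt_or_gt_of_ne hne with h1 | h1
        · by_contra hcon
          have h2 := hone i hi i₀ hi₀ h1 (lt_of_le_of_ne (hle i) hcon)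
          rw [h2] at hlt
          exact lt_irrefl _ hlt
        · exact hone i₀ hi₀ i hi h1 hlt
      · push Not at hex
        refine ⟨0, Finset.mem_range.2 (Nat.pos_of_ne_zero hn), fun i hi _ => ?_⟩
        exact le_antisymm (hle i) (hex i hi)
    have hyv : v (algebraMap K Ω y) ^ n = v (conj φ σ h x i₀) := by
      rw [← map_pow, hxy, map_mul, hcv, one_mul, map_prod, ← Finset.mul_prod_erase _ _ hi₀]
      rw [Finset.prod_eq_one, mul_one]
      intro i hi
      exact hother i (Finset.mem_of_mem_erase hi) (Finset.ne_of_mem_erase hi)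
    refine ⟨y ^ (r * i₀), pow_ne_zero _ hy, ?_⟩
    apply hinj
    rw [hγv, ← Finset.mul_prod_erase _ _ hi₀, Finset.prod_eq_one, mul_one, map_pow, map_pow,
      ← hyv, ← pow_mul, ← pow_mul, mul_comm]
    intro i hi
    rw [hother i (Finset.mem_of_mem_erase hi) (Finset.ne_of_mem_erase hi), one_pow]
  · have hx1 : 1 < v (algebraMap K Ω x) := by
      rw [← not_le, B.valuation_le_one_iff]; exact hx
    have hx0 : x ≠ 0 := by
      rintro rfl
      rw [map_zero] at hx
      exact hx B.zero_mem
    have hval : ∀ i, v (conj φ σ h x i) = v (algebraMap K Ω x) ^ h.natDegree := by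
      intro i
      rw [conj_eq, eval₂_eq_sum_range, Finset.sum_range_succ]
      have hlead : v (emb φ σ i (h.coeff h.natDegree)) = 1 := by
        refine valuation_eq_one hB (emb_mem φ i _) ?_
        rw [map_ne_zero_iff _ (emb φ σ i).injective]
        exact leadingCoeff_ne_zero.2 hh
      have h1 : v (emb φ σ i (h.coeff h.natDegree) * algebraMap K Ω x ^ h.natDegree) =
          v (algebraMap K Ω x) ^ h.natDegree := by
        rw [map_mul, map_pow, hlead, one_mul]
      rw [← h1]
      refine Valuation.map_add_eq_of_lt_right v ?_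
      rw [h1]
      have h0 : v (algebraMap K Ω x) ^ h.natDegree ≠ 0 := by
        apply pow_ne_zero
        exact (zero_lt_one.trans hx1).ne'
      refine Valuation.map_sum_lt v h0 fun m hm => ?_
      rw [map_mul, map_pow]
      calc v (emb φ σ i (h.coeff m)) * v (algebraMap K Ω x) ^ m
          ≤ 1 * v (algebraMap K Ω x) ^ m := by
            gcongr
            exact (B.valuation_le_one_iff _).2 (mem_of_algebraic hB (emb_mem φ i _))
        _ = v (algebraMap K Ω x) ^ m := one_mul _
        _ < v (algebraMap K Ω x) ^ h.natDegree :=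
            pow_lt_pow_right₀ hx1 (Finset.mem_range.1 hm)
    refine ⟨x ^ q, pow_ne_zero _ hx0, ?_⟩
    apply hinj
    rw [hγv, map_pow, map_pow, ← pow_mul,
      Finset.prod_congr rfl (fun i _ => by rw [hval i, ← pow_mul]), Finset.prod_pow_eq_pow_sum]
    congr 1
    have h2 : ∑ i ∈ range n, h.natDegree * (r * i) = h.natDegree * r * ∑ i ∈ range n, i := by
      rw [Finset.mul_sum]
      exact Finset.sum_congr rfl fun i _ => by ring
    rw [h2]
    have h3 := Finset.sum_range_id_mul_two n
    have h4 : 2 * (h.natDegree * r * ∑ i ∈ range n, i) = 2 * (q * n) := by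
      calc 2 * (h.natDegree * r * ∑ i ∈ range n, i)
          = h.natDegree * r * ((∑ i ∈ range n, i) * 2) := by ring
        _ = h.natDegree * r * (n * (n - 1)) := by rw [h3]
        _ = (r * h.natDegree * (n - 1)) * n := by ring
        _ = 2 * (q * n) := by rw [hr]; ring
    omega

end

section
variable {k K Ω E : Type*} [Field k] [CharZero k] [Field K] [Field Ω] [Algebra k K] [Algebra k Ω]
  [Algebra K Ω] [IsScalarTower k K Ω] [IsAlgClosure K Ω] [Field E] [Algebra k E]
  [FiniteDimensional k E] [IsGalois k E] [IsCyclic (E ≃ₐ[k] E)]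
  {h : E[X]} (hcop : ∀ g : E ≃ₐ[k] E, g ≠ 1 → IsCoprime h (h.map (g : E →+* E)))
  {f : k[X]} (hf : f.map (algebraMap k E) = ∏ g : E ≃ₐ[k] E, h.map (g : E →+* E))
  {c : k} {r : ℕ} (hr : Even (r * h.natDegree * (Module.finrank k E - 1)))
  (hc : ∀ z : E, Algebra.norm k z ≠ c ^ r)
  {x y : K} (hy : y ≠ 0)
  (hxy : y ^ Module.finrank k E = algebraMap k K c * aeval x f)
include hcop hf hr hc hy hxy

theorem norm_curve_no_section (s : AbsGal k Ω →* PiOne k K Ω) : ¬ IsSection k K Ω s := by
  classical
  obtain ⟨σ, hσ⟩ := IsCyclic.exists_generator (α := E ≃ₐ[k] E)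
  set n := Module.finrank k E with hndef
  have hn : n ≠ 0 := Module.finrank_pos.ne'
  have hac : IsAlgClosed Ω := IsAlgClosure.isAlgClosed K
  have hacF : IsAlgClosed (algebraicClosure k Ω) := IsAlgClosure.isAlgClosed k
  let φ : E →ₐ[k] algebraicClosure k Ω := IsAlgClosed.lift
  have hc0 : c ≠ 0 := by
    rintro rfl
    rw [map_zero, zero_mul] at hxy
    exact hy (pow_eq_zero_iff hn |>.1 hxy)
  have hh : h ≠ 0 := by
    rintro rfl
    have h1 : f = 0 := by
      apply Polynomial.map_injective _ (algebraMap k E).injective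
      rw [hf, Polynomial.map_zero]
      exact Finset.prod_eq_zero (Finset.mem_univ 1) (by rw [Polynomial.map_zero])
    rw [h1, map_zero, mul_zero] at hxy
    exact hy (pow_eq_zero_iff hn |>.1 hxy)
  have hprod := prod_conj φ hσ hf x
  have hxyΩ : algebraMap K Ω y ^ n = algebraMap k Ω c * ∏ i ∈ range n, conj φ σ h x i := by
    rw [hprod, IsScalarTower.algebraMap_apply k K Ω c, ← map_mul, ← hxy, map_pow]
  obtain ⟨q, hq⟩ := hr.exists_two_nsmul
  rw [nsmul_eq_mul, Nat.cast_ofNat] at hq
  obtain ⟨γ, hγ⟩ := IsAlgClosed.exists_pow_nat_eq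
    (∏ i ∈ range n, ((conj φ σ h x i) ^ r) ^ i) (Nat.pos_of_ne_zero hn)
  have hγm : γ ∈ maxUnramified k K Ω := by
    refine mem_maxUnramified fun B hB σ' hσ' => ?_
    have hσc : ∀ i, σ' (conj φ σ h x i) = conj φ σ h x i := by
      intro i
      rw [conj_eq]
      have h1 := Polynomial.hom_eval₂ h (emb φ σ i) (σ' : Ω →+* Ω) (algebraMap K Ω x)
      have h2 : (σ' : Ω →+* Ω).comp (emb φ σ i) = emb φ σ i := by
        ext z
        exact inertia_const hB hσ' (emb_mem φ i z)
      have h3 : (σ' : Ω →+* Ω) (algebraMap K Ω x) = algebraMap K Ω x := σ'.commutes x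
      rw [h2, h3] at h1
      exact h1
    have hσγ : σ' (γ ^ n) = γ ^ n := by
      rw [hγ, map_prod]
      refine Finset.prod_congr rfl fun i _ => ?_
      rw [map_pow, map_pow, hσc]
    obtain ⟨z, hz0, hz⟩ := valuation_gamma_norm hσ φ hcop hh hB hc0 hy hxyΩ hq hγ
    refine inertia_kummer hB hσ' hn (θ := algebraMap K Ω z) ?_ (AlgEquiv.commutes σ' z) hσγ hz
    intro h0
    exact hz0 ((algebraMap K Ω).injective (by rw [map_zero]; exact h0))
  have hpow : ∀ i, conj φ σ (h ^ r) x i = (conj φ σ h x i) ^ r := by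
    intro i
    rw [conj_eq, conj_eq, eval₂_pow]
  have hbn : ∀ z : E, Algebra.norm k z ≠ (c ^ r)⁻¹ := by
    intro z hz
    have hz0 : z ≠ 0 := by
      rintro rfl
      rw [Algebra.norm_zero] at hz
      exact inv_ne_zero (pow_ne_zero _ hc0) hz.symm
    apply hc z⁻¹
    rw [norm_inv_eq hz0, hz, inv_inv]
  refine no_section hσ φ hbn (h ^ r) x (y ^ r) (pow_ne_zero _ hy) ?_ γ ?_ hγm s
  · rw [Finset.prod_congr rfl (fun i _ => hpow i), Finset.prod_pow]
    have hcΩ : algebraMap k Ω c ≠ 0 := by
      intro h; exact hc0 ((algebraMap k Ω).injective (by rw [map_zero]; exact h))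
    rw [map_inv₀, map_pow, map_pow, ← pow_mul, mul_comm r, pow_mul, hxyΩ, mul_pow,
      inv_mul_cancel_left₀ (pow_ne_zero _ hcΩ)]
  · rw [hγ]
    exact Finset.prod_congr rfl fun i _ => by rw [hpow]

omit [Field Ω] [Algebra k Ω] [Algebra K Ω] [IsScalarTower k K Ω] [IsAlgClosure K Ω] hr in
theorem norm_curve_no_place (A : ValuationSubring K) : ¬ IsRationalPlace k K A := by
  classical
  intro hA
  set n := Module.finrank k E with hndef
  have hn : n ≠ 0 := Module.finrank_pos.ne'
  have hc0 : c ≠ 0 := by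
    rintro rfl
    rw [map_zero, zero_mul] at hxy
    exact hy (pow_eq_zero_iff hn |>.1 hxy)
  have hcn : ∀ z : E, Algebra.norm k z ≠ c := by
    intro z hz
    exact hc (z ^ r) (by rw [map_pow, hz])
  have hn1 : ∃ g : E ≃ₐ[k] E, g ≠ 1 := by
    by_contra hcon
    push Not at hcon
    have h1 : Module.finrank k E = 1 := by
      rw [← IsGalois.card_aut_eq_finrank]
      have : Subsingleton (E ≃ₐ[k] E) := ⟨fun a b => by rw [hcon a, hcon b]⟩
      exact Nat.card_unique
    apply hcn (algebraMap k E c)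
    rw [Algebra.norm_algebraMap, h1, pow_one]
  have hh : h ≠ 0 := by
    rintro rfl
    have h1 : f = 0 := by
      apply Polynomial.map_injective _ (algebraMap k E).injective
      rw [hf, Polynomial.map_zero]
      exact Finset.prod_eq_zero (Finset.mem_univ 1) (by rw [Polynomial.map_zero])
    rw [h1, map_zero, mul_zero] at hxy
    exact hy (pow_eq_zero_iff hn |>.1 hxy)
  -- values of f are norms
  have hfval : ∀ d : k, f.eval d = Algebra.norm k (h.eval (algebraMap k E d)) := by
    intro d
    apply (algebraMap k E).injective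
    rw [Algebra.norm_eq_prod_automorphisms]
    have h1 : algebraMap k E (f.eval d) = (f.map (algebraMap k E)).eval (algebraMap k E d) := by
      rw [eval_map, eval₂_at_apply]
    rw [h1, hf, eval_prod]
    refine Finset.prod_congr rfl fun g _ => ?_
    rw [eval_map]
    have h2 := Polynomial.hom_eval₂ h (RingHom.id E) (g : E →+* E) (algebraMap k E d)
    rw [RingHom.comp_id] at h2
    have h3 : (g : E →+* E) (algebraMap k E d) = algebraMap k E d := g.commutes d
    rw [h3] at h2
    exact h2.symm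
  have hlead : f.leadingCoeff = Algebra.norm k h.leadingCoeff := by
    apply (algebraMap k E).injective
    rw [Algebra.norm_eq_prod_automorphisms, ← leadingCoeff_map, hf, leadingCoeff_prod]
    refine Finset.prod_congr rfl fun g _ => ?_
    rw [leadingCoeff_map]
    rfl
  have hdeg : f.natDegree = h.natDegree * n := by
    rw [← natDegree_map (algebraMap k E), hf, natDegree_prod]
    · have h1 : ∀ g : E ≃ₐ[k] E, (h.map (g : E →+* E)).natDegree = h.natDegree :=
        fun g => natDegree_map _
      rw [Finset.sum_congr rfl (fun g _ => h1 g), Finset.sum_const,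
        Finset.card_univ, ← Nat.card_eq_fintype_card, IsGalois.card_aut_eq_finrank, smul_eq_mul,
        mul_comm]
    · intro g _
      exact (Polynomial.map_ne_zero_iff (g : E →+* E).injective).2 hh
  have hnz : ∀ d : k, f.eval d ≠ 0 := by
    intro d hd
    rw [hfval, Algebra.norm_eq_zero_iff] at hd
    obtain ⟨g, hg⟩ := hn1
    obtain ⟨p, q, hpq⟩ := hcop g hg
    have h1 := congrArg (fun t => eval (algebraMap k E d) t) hpq
    simp only [eval_add, eval_mul, eval_one, hd, mul_zero, zero_add, eval_map] at h1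
    have h2 := Polynomial.hom_eval₂ h (RingHom.id E) (g : E →+* E) (algebraMap k E d)
    rw [RingHom.comp_id] at h2
    have h3 : (g : E →+* E) (algebraMap k E d) = algebraMap k E d := g.commutes d
    have h4 : eval₂ (RingHom.id E) (algebraMap k E d) h = 0 := hd
    rw [h3, h4, map_zero] at h2
    rw [← h2, mul_zero] at h1
    exact zero_ne_one h1
  have hfl : f.leadingCoeff ≠ 0 := by
    rw [hlead, Ne, Algebra.norm_eq_zero_iff]
    exact leadingCoeff_ne_zero.2 hh
  -- residue field
  have hcA : ∀ c : k, algebraMap k K c ∈ A := hA.const_mem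
  let j : k →+* IsLocalRing.ResidueField A :=
    (IsLocalRing.residue A).comp ((algebraMap k K).codRestrict A hcA)
  have hj : ∀ c : k, j c = IsLocalRing.residue A ⟨algebraMap k K c, hcA c⟩ := fun c => rfl
  have hres : ∀ z : A, ∃ c : k, IsLocalRing.residue A z = j c := by
    intro z
    obtain ⟨c, hc⟩ := hA.residue z z.2
    refine ⟨c, ?_⟩
    rw [hj, ← sub_eq_zero, ← map_sub, IsLocalRing.residue_eq_zero_iff,
      ValuationSubring.valuation_lt_one_iff]
    exact hc
  -- evaluate a polynomial over k modulo the maximal ideal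
  let _ : Algebra k A := ((algebraMap k K).codRestrict A hcA).toAlgebra
  have halg : ∀ c : k, algebraMap k A c = ⟨algebraMap k K c, hcA c⟩ := fun c => rfl
  have hcoe : ∀ (p : k[X]) (z : A), ((aeval z p : A) : K) = aeval (z : K) p := by
    intro p z
    rw [aeval_def, aeval_def]
    exact Polynomial.hom_eval₂ p (algebraMap k A) A.subtype z
  have hred : ∀ (p : k[X]) (z : A) (d : k), IsLocalRing.residue A z = j d →
      IsLocalRing.residue A (aeval z p) = j (p.eval d) := by
    intro p z d hd
    rw [aeval_def, Polynomial.hom_eval₂, hd]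
    have : (IsLocalRing.residue A).comp (algebraMap k A) = j := rfl
    rw [this, eval₂_at_apply]
  -- an element whose n-th power is a unit times a value
  have hfin : ∀ (w u : K) (N : k) (hu : u ∈ A), N ≠ 0 → (∃ z : E, Algebra.norm k z = N) →
      IsLocalRing.residue A ⟨u, hu⟩ = j N → w ^ n = algebraMap k K c * u → False := by
    intro w u N hu hN0 hN huN hw
    have hwA : w ∈ A := by
      have h1 : w ^ n ∈ A := by rw [hw]; exact mul_mem (hcA c) hu
      rw [← A.valuation_le_one_iff, map_pow] at h1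
      rw [← A.valuation_le_one_iff]
      by_contra hcon
      push Not at hcon
      exact absurd h1 (not_le.2 (one_lt_pow₀ hcon hn))
    obtain ⟨d, hd⟩ := hres ⟨w, hwA⟩
    have h2 : (⟨w, hwA⟩ : A) ^ n = ⟨algebraMap k K c, hcA c⟩ * ⟨u, hu⟩ := by
      apply Subtype.ext
      exact hw
    have h3 := congrArg (IsLocalRing.residue A) h2
    rw [map_pow, map_mul, hd, huN, ← hj, ← map_pow, ← map_mul] at h3
    have h4 := j.injective h3
    obtain ⟨z, hz⟩ := hN
    have hz0 : z ≠ 0 := by
      rintro rfl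
      rw [Algebra.norm_zero] at hz
      exact hN0 hz.symm
    apply hcn (algebraMap k E d * z⁻¹)
    rw [map_mul, norm_inv_eq hz0, Algebra.norm_algebraMap, hz, ← hndef, h4, mul_assoc,
      mul_inv_cancel₀ hN0, mul_one]
  by_cases hx : x ∈ A
  · obtain ⟨d, hd⟩ := hres ⟨x, hx⟩
    have hu : aeval x f ∈ A := by
      have := (aeval (⟨x, hx⟩ : A) f).2
      rwa [hcoe] at this
    refine hfin y (aeval x f) (f.eval d) hu (hnz d) ⟨_, (hfval d).symm⟩ ?_ hxy
    rw [← hred f ⟨x, hx⟩ d hd]
    congr 1
    apply Subtype.ext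
    exact (hcoe f ⟨x, hx⟩).symm
  · have hx0 : x ≠ 0 := by
      intro h; rw [h] at hx; exact hx A.zero_mem
    have hx1 : 1 < A.valuation x := by
      rw [← not_le, A.valuation_le_one_iff]; exact hx
    have hinv : x⁻¹ ∈ A := by
      rw [← A.valuation_le_one_iff, map_inv₀]
      exact inv_le_one_of_one_le₀ hx1.le
    have hres0 : IsLocalRing.residue A ⟨x⁻¹, hinv⟩ = j 0 := by
      rw [map_zero, IsLocalRing.residue_eq_zero_iff, ValuationSubring.valuation_lt_one_iff]
      show A.valuation x⁻¹ < 1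
      rw [map_inv₀]
      exact inv_lt_one_of_one_lt₀ hx1
    have hu : aeval x⁻¹ f.reverse ∈ A := by
      have := (aeval (⟨x⁻¹, hinv⟩ : A) f.reverse).2
      rwa [hcoe] at this
    have hrev : aeval x⁻¹ f.reverse * x ^ f.natDegree = aeval x f := by
      let _ := invertibleOfNonzero hx0
      have h1 := Polynomial.eval₂_reverse_mul_pow (algebraMap k K) x f
      rw [invOf_eq_inv] at h1
      exact h1
    refine hfin (y / x ^ h.natDegree) (aeval x⁻¹ f.reverse) f.leadingCoeff hu hfl
      ⟨_, hlead.symm⟩ ?_ ?_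
    · have h1 := hred f.reverse ⟨x⁻¹, hinv⟩ 0 hres0
      rw [← coeff_zero_eq_eval_zero, coeff_zero_reverse] at h1
      rw [← h1]
      congr 1
      apply Subtype.ext
      exact (hcoe f.reverse ⟨x⁻¹, hinv⟩).symm
    · rw [div_pow, hxy, ← pow_mul, ← hdeg, ← hrev]
      field_simp

end

end Pool.Agent.Lib.MP_c385f6_ag
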