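import Mathlib
import Pool.Agent.Lib.MP_c385f6_ag.NormCurve
import Pool.Agent.Lib.MP_c385f6_ag.Twist

/-!
The norm curve obstruction for elements that are fixed by a section.
-/

namespace Pool.Agent.Lib.MP_c385f6_ag

open Finset Polynomial

section
variable {k Ω E : Type*} [Field k] [Field Ω] [Algebra k Ω] [Field E] [Algebra k E]
  [FiniteDimensional k E] [IsGalois k E]
  {σ : E ≃ₐ[k] E} (hσ : ∀ g, g ∈ Subgroup.zpowers σ) (φ : E →ₐ[k] algebraicClosure k Ω)
  {h : E[X]} (hcop : ∀ g : E ≃ₐ[k] E, g ≠ 1 → IsCoprime h (h.map (g : E →+* E)))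

theorem prod_emb {f : k[X]} (hσ : ∀ g, g ∈ Subgroup.zpowers σ)
    (hf : f.map (algebraMap k E) = ∏ g : E ≃ₐ[k] E, h.map (g : E →+* E)) (X : Ω) :
    ∏ i ∈ range (Module.finrank k E), h.eval₂ (emb φ σ i) X = aeval X f := by
  have h1 : aeval X f = (f.map (algebraMap k E)).eval₂ (emb φ σ 0) X := by
    rw [eval₂_map, emb_comp (φ := φ) (σ := σ)]
    rfl
  rw [h1, hf, prod_aut_eq hσ, eval₂_finsetProd]
  refine Finset.prod_congr rfl fun i _ => ?_
  rw [eval₂_map]
  congr 1

include hcop hσ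

theorem emb_coprime {B : ValuationSubring Ω} (hB : ∀ c : k, algebraMap k Ω c ∈ B) {X : Ω}
    (hx : X ∈ B) {i j : ℕ} (hj : j < Module.finrank k E) (hij : i < j) :
    ∃ u ∈ B, ∃ w ∈ B, u * h.eval₂ (emb φ σ i) X + w * h.eval₂ (emb φ σ j) X = 1 := by
  have hne : σ ^ (j - i) ≠ 1 := by
    intro h1
    have h2 := pow_ne_one' hσ (i := j - i) (j := 0) (by omega) (by omega) (by rw [h1, pow_zero])
    omega
  obtain ⟨p, q, hpq⟩ := hcop _ hne
  have h1 := congrArg (fun r => eval₂ (emb φ σ i) X r) hpq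
  simp only [eval₂_add, eval₂_mul, eval₂_one, eval₂_map] at h1
  have h2 : (emb φ σ i).comp ((σ ^ (j - i) : E ≃ₐ[k] E) : E →+* E) = emb φ σ j := by
    ext z
    show ((φ ((σ ^ i) ((σ ^ (j - i)) z)) : algebraicClosure k Ω) : Ω) =
      ((φ ((σ ^ j) z) : algebraicClosure k Ω) : Ω)
    rw [← AlgEquiv.mul_apply, ← pow_add, Nat.add_sub_cancel' hij.le]
  rw [h2] at h1
  have hmem : ∀ r : E[X], r.eval₂ (emb φ σ i) X ∈ B := by
    intro r
    rw [eval₂_eq_sum_range]
    exact sum_mem fun m _ => mul_mem (mem_of_algebraic hB (emb_mem φ i _)) (pow_mem hx m)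
  exact ⟨_, hmem p, _, hmem q, h1⟩

variable (hh : h ≠ 0) {B : ValuationSubring Ω} (hB : ∀ c : k, algebraMap k Ω c ∈ B)
  {X Y : Ω} {c : k} (hc : c ≠ 0) (hy : Y ≠ 0)
  (hxy : Y ^ (Module.finrank k E) = algebraMap k Ω c *
    ∏ i ∈ range (Module.finrank k E), h.eval₂ (emb φ σ i) X)
  {r q : ℕ} (hr : r * h.natDegree * (Module.finrank k E - 1) = 2 * q)
  {γ : Ω} (hγ : γ ^ (Module.finrank k E) = ∏ i ∈ range (Module.finrank k E),
    ((h.eval₂ (emb φ σ i) X) ^ r) ^ i)
include hh hB hc hy hxy hr hγ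

theorem valuation_gamma_fixed : (∃ m : ℕ, B.valuation γ = B.valuation (Y ^ m)) ∨
    (X ≠ 0 ∧ B.valuation γ = B.valuation (X ^ q)) := by
  classical
  set n := Module.finrank k E with hndef
  have hn : n ≠ 0 := Module.finrank_pos.ne'
  set v := B.valuation with hv
  have hinj : ∀ a c : ValuationSubring.ValueGroup B, a ^ n = c ^ n → a = c := by
    intro a c h
    exact (pow_left_inj₀ zero_le zero_le hn).1 h
  have hγv : v γ ^ n = ∏ i ∈ range n, v (h.eval₂ (emb φ σ i) X) ^ (r * i) := by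
    rw [← map_pow, hγ, map_prod]
    refine Finset.prod_congr rfl fun i _ => ?_
    rw [map_pow, map_pow, pow_mul]
  have hcv : v (algebraMap k Ω c) = 1 := by
    refine valuation_eq_one hB ((algebraicClosure k Ω).algebraMap_mem c) ?_
    intro h; exact hc ((algebraMap k Ω).injective (by rw [map_zero]; exact h))
  by_cases hx : X ∈ B
  · have hle : ∀ i, v (h.eval₂ (emb φ σ i) X) ≤ 1 := by
      intro i
      rw [eval₂_eq_sum_range]
      refine (B.valuation_le_one_iff _).2 ?_
      exact sum_mem fun m _ => mul_mem (mem_of_algebraic hB (emb_mem φ i _)) (pow_mem hx m)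
    have hone : ∀ i < n, ∀ j < n, i < j → v (h.eval₂ (emb φ σ i) X) < 1 →
        v (h.eval₂ (emb φ σ j) X) = 1 := by
      intro i hi j hj hij hlt
      obtain ⟨u, hu, w, hw, huw⟩ := emb_coprime hσ φ hcop hB hx hj hij
      refine le_antisymm (hle j) ?_
      by_contra hcon
      push Not at hcon
      have h1 : v (u * h.eval₂ (emb φ σ i) X + w * h.eval₂ (emb φ σ j) X) < 1 := by
        refine (Valuation.map_add _ _ _).trans_lt (max_lt ?_ ?_)
        · rw [map_mul]
          calc v u * v (h.eval₂ (emb φ σ i) X) ≤ 1 * v (h.eval₂ (emb φ σ i) X) := by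
                gcongr
                exact (B.valuation_le_one_iff _).2 hu
            _ < 1 := by rw [one_mul]; exact hlt
        · rw [map_mul]
          calc v w * v (h.eval₂ (emb φ σ j) X) ≤ 1 * v (h.eval₂ (emb φ σ j) X) := by
                gcongr
                exact (B.valuation_le_one_iff _).2 hw
            _ < 1 := by rw [one_mul]; exact hcon
      rw [huw, map_one] at h1
      exact lt_irrefl _ h1
    obtain ⟨i₀, hi₀, hother⟩ : ∃ i₀ ∈ range n, ∀ i ∈ range n, i ≠ i₀ →
        v (h.eval₂ (emb φ σ i) X) = 1 := by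
      by_cases hex : ∃ i₀ ∈ range n, v (h.eval₂ (emb φ σ i₀) X) < 1
      · obtain ⟨i₀, hi₀, hlt⟩ := hex
        refine ⟨i₀, hi₀, fun i hi hne => ?_⟩
        rw [Finset.mem_range] at hi hi₀
        rcases lt_or_gt_of_ne hne with h1 | h1
        · by_contra hcon
          have h2 := hone i hi i₀ hi₀ h1 (lt_of_le_of_ne (hle i) hcon)
          rw [h2] at hlt
          exact lt_irrefl _ hlt
        · exact hone i₀ hi₀ i hi h1 hlt
      · push Not at hex
        refine ⟨0, Finset.mem_range.2 (Nat.pos_of_ne_zero hn), fun i hi _ => ?_⟩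
        exact le_antisymm (hle i) (hex i hi)
    have hyv : v Y ^ n = v (h.eval₂ (emb φ σ i₀) X) := by
      rw [← map_pow, hxy, map_mul, hcv, one_mul, map_prod, ← Finset.mul_prod_erase _ _ hi₀]
      rw [Finset.prod_eq_one, mul_one]
      intro i hi
      exact hother i (Finset.mem_of_mem_erase hi) (Finset.ne_of_mem_erase hi)
    left
    refine ⟨r * i₀, ?_⟩
    apply hinj
    rw [hγv, ← Finset.mul_prod_erase _ _ hi₀, Finset.prod_eq_one, mul_one, map_pow,
      ← hyv, ← pow_mul, ← pow_mul, mul_comm]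
    intro i hi
    rw [hother i (Finset.mem_of_mem_erase hi) (Finset.ne_of_mem_erase hi), one_pow]
  · right
    have hx1 : 1 < v X := by
      rw [← not_le, B.valuation_le_one_iff]; exact hx
    have hx0 : X ≠ 0 := by
      rintro rfl
      exact hx B.zero_mem
    have hval : ∀ i, v (h.eval₂ (emb φ σ i) X) = v X ^ h.natDegree := by
      intro i
      rw [eval₂_eq_sum_range, Finset.sum_range_succ]
      have hlead : v (emb φ σ i (h.coeff h.natDegree)) = 1 := by
        refine valuation_eq_one hB (emb_mem φ i _) ?_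
        rw [map_ne_zero_iff _ (emb φ σ i).injective]
        exact leadingCoeff_ne_zero.2 hh
      have h1 : v (emb φ σ i (h.coeff h.natDegree) * X ^ h.natDegree) =
          v X ^ h.natDegree := by
        rw [map_mul, map_pow, hlead, one_mul]
      rw [← h1]
      refine Valuation.map_add_eq_of_lt_right v ?_
      rw [h1]
      have h0 : v X ^ h.natDegree ≠ 0 := by
        apply pow_ne_zero
        exact (zero_lt_one.trans hx1).ne'
      refine Valuation.map_sum_lt v h0 fun m hm => ?_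
      rw [map_mul, map_pow]
      calc v (emb φ σ i (h.coeff m)) * v X ^ m
          ≤ 1 * v X ^ m := by
            gcongr
            exact (B.valuation_le_one_iff _).2 (mem_of_algebraic hB (emb_mem φ i _))
        _ = v X ^ m := one_mul _
        _ < v X ^ h.natDegree :=
            pow_lt_pow_right₀ hx1 (Finset.mem_range.1 hm)
    refine ⟨hx0, ?_⟩
    apply hinj
    rw [hγv, map_pow, ← pow_mul,
      Finset.prod_congr rfl (fun i _ => by rw [hval i, ← pow_mul]), Finset.prod_pow_eq_pow_sum]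
    congr 1
    have h2 : ∑ i ∈ range n, h.natDegree * (r * i) = h.natDegree * r * ∑ i ∈ range n, i := by
      rw [Finset.mul_sum]
      exact Finset.sum_congr rfl fun i _ => by ring
    rw [h2]
    have h3 := Finset.sum_range_id_mul_two n
    have h4 : 2 * (h.natDegree * r * ∑ i ∈ range n, i) = 2 * (q * n) := by
      calc 2 * (h.natDegree * r * ∑ i ∈ range n, i)
          = h.natDegree * r * ((∑ i ∈ range n, i) * 2) := by ring
        _ = h.natDegree * r * (n * (n - 1)) := by rw [h3]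
        _ = (r * h.natDegree * (n - 1)) * n := by ring
        _ = 2 * (q * n) := by rw [hr]; ring
    omega

end

section
variable {k K Ω E : Type*} [Field k] [CharZero k] [Field K] [Field Ω] [Algebra k K] [Algebra k Ω]
  [Algebra K Ω] [IsScalarTower k K Ω] [IsAlgClosure K Ω] [Field E] [Algebra k E]
  [FiniteDimensional k E] [IsGalois k E] [IsCyclic (E ≃ₐ[k] E)]
  {s : AbsGal k Ω →* PiOne k K Ω} (hs : IsSection k K Ω s)
  {h : E[X]} (hcop : ∀ g : E ≃ₐ[k] E, g ≠ 1 → IsCoprime h (h.map (g : E →+* E)))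
  {f : k[X]} (hf : f.map (algebraMap k E) = ∏ g : E ≃ₐ[k] E, h.map (g : E →+* E))
  {c : k} {r : ℕ} (hr : Even (r * h.natDegree * (Module.finrank k E - 1)))
  (hc : ∀ z : E, Algebra.norm k z ≠ c ^ r)
  {x y : maxUnramified k K Ω} (hxs : ∀ g, s g x = x) (hys : ∀ g, s g y = y) (hy : y ≠ 0)
  (hxy : (y : Ω) ^ Module.finrank k E = algebraMap k Ω c * aeval (x : Ω) f)
include hs hcop hf hr hc hxs hys hy hxy

theorem norm_fixed : False := by
  classical
  obtain ⟨σ, hσ⟩ := IsCyclic.exists_generator (α := E ≃ₐ[k] E)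
  set n := Module.finrank k E with hndef
  have hn : n ≠ 0 := Module.finrank_pos.ne'
  have hac : IsAlgClosed Ω := IsAlgClosure.isAlgClosed K
  have hacF : IsAlgClosed (algebraicClosure k Ω) := IsAlgClosure.isAlgClosed k
  let φ : E →ₐ[k] algebraicClosure k Ω := IsAlgClosed.lift
  have hyΩ : (y : Ω) ≠ 0 := fun h => hy (Subtype.ext h)
  have hc0 : c ≠ 0 := by
    rintro rfl
    rw [map_zero, zero_mul] at hxy
    exact hyΩ (pow_eq_zero_iff hn |>.1 hxy)
  have hh : h ≠ 0 := by
    rintro rfl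
    have h1 : f = 0 := by
      apply Polynomial.map_injective _ (algebraMap k E).injective
      rw [hf, Polynomial.map_zero]
      exact Finset.prod_eq_zero (Finset.mem_univ 1) (by rw [Polynomial.map_zero])
    rw [h1, map_zero, mul_zero] at hxy
    exact hyΩ (pow_eq_zero_iff hn |>.1 hxy)
  have hprod := prod_emb φ hσ hf (x : Ω)
  have hxyΩ : (y : Ω) ^ n = algebraMap k Ω c * ∏ i ∈ range n, h.eval₂ (emb φ σ i) (x : Ω) := by
    rw [hprod]; exact hxy
  obtain ⟨q, hq⟩ := hr.exists_two_nsmul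
  rw [nsmul_eq_mul, Nat.cast_ofNat] at hq
  obtain ⟨γ, hγ⟩ := IsAlgClosed.exists_pow_nat_eq
    (∏ i ∈ range n, ((h.eval₂ (emb φ σ i) (x : Ω)) ^ r) ^ i) (Nat.pos_of_ne_zero hn)
  -- the conjugates as elements of the maximal unramified extension
  let ψ : ℕ → (E →+* maxUnramified k K Ω) := fun i =>
    (constHom k K Ω).comp
      ((φ : E →+* algebraicClosure k Ω).comp ((σ ^ i : E ≃ₐ[k] E) : E →+* E))
  have hψ : ∀ i, ((maxUnramified k K Ω).val : maxUnramified k K Ω →+* Ω).comp (ψ i) =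
      emb φ σ i := fun i => rfl
  let δ : ℕ → maxUnramified k K Ω := fun i => (h ^ r).eval₂ (ψ i) x
  have hδ : ∀ i, ((δ i : maxUnramified k K Ω) : Ω) = (h.eval₂ (emb φ σ i) (x : Ω)) ^ r := by
    intro i
    have h1 := Polynomial.hom_eval₂ (h ^ r) (ψ i)
      ((maxUnramified k K Ω).val : maxUnramified k K Ω →+* Ω) x
    rw [hψ] at h1
    refine h1.trans ?_
    rw [eval₂_pow]
    rfl
  have hγm : γ ∈ maxUnramified k K Ω := by
    refine mem_ur_of_pow hn ?_ fun B hB => ?_
    · rw [hγ]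
      refine prod_mem fun i _ => ?_
      rw [← hδ i]
      exact pow_mem (δ i).2 i
    · rcases valuation_gamma_fixed hσ φ hcop hh hB hc0 hyΩ hxyΩ hq hγ with ⟨m, hm⟩ | ⟨hx0, hm⟩
      · exact ⟨_, pow_mem y.2 m, pow_ne_zero _ hyΩ, hm⟩
      · exact ⟨_, pow_mem x.2 q, pow_ne_zero _ hx0, hm⟩
  have hbn : ∀ z : E, Algebra.norm k z ≠ (c ^ r)⁻¹ := by
    intro z hz
    have hz0 : z ≠ 0 := by
      rintro rfl
      rw [Algebra.norm_zero] at hz
      exact inv_ne_zero (pow_ne_zero _ hc0) hz.symm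
    apply hc z⁻¹
    rw [norm_inv_eq hz0, hz, inv_inv]
  refine section_core hσ φ hbn hs δ ?_ (y ^ r) (fun g => by rw [map_pow, hys])
    (pow_ne_zero _ hy) ?_ γ ?_ hγm
  · intro g i j hij
    have h1 := Polynomial.hom_eval₂ (h ^ r) (ψ i)
      ((s g : maxUnramified k K Ω →ₐ[K] maxUnramified k K Ω) :
      maxUnramified k K Ω →+* maxUnramified k K Ω) x
    have h2 : (((s g : maxUnramified k K Ω →ₐ[K] maxUnramified k K Ω) :
      maxUnramified k K Ω →+* maxUnramified k K Ω)).comp (ψ i) = ψ j := by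
      ext z
      have h3 : s g (constHom k K Ω (φ ((σ ^ i) z))) = constHom k K Ω (g (φ ((σ ^ i) z))) := by
        apply Subtype.ext
        exact hs.restrict g _ (constHom k K Ω (φ ((σ ^ i) z))) rfl
      rw [hij] at h3
      exact congrArg _ h3
    rw [h2] at h1
    refine h1.trans ?_
    show eval₂ (ψ j) (s g x) (h ^ r) = _
    rw [hxs]
  · rw [Finset.prod_congr rfl (fun i _ => hδ i), Finset.prod_pow]
    have hcΩ : algebraMap k Ω c ≠ 0 := by
      intro h; exact hc0 ((algebraMap k Ω).injective (by rw [map_zero]; exact h))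
    have e1 : ((y ^ r : maxUnramified k K Ω) : Ω) = (y : Ω) ^ r := rfl
    rw [e1, ← pow_mul, mul_comm r, pow_mul, hxyΩ, mul_pow, map_inv₀, map_pow,
      inv_mul_cancel_left₀ (pow_ne_zero _ hcΩ)]
  · rw [hγ]
    exact Finset.prod_congr rfl fun i _ => by rw [hδ i]

end

end Pool.Agent.Lib.MP_c385f6_ag
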