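import Mathlib
import Pool.Agent.Lib.MP_c385f6_ag.NormFixed
import Pool.Agent.Lib.MP_c385f6_ag.FormsMain

/-!
Curves over the projective line whose ramification over rational points is divisible by `n`.
-/

namespace Pool.Agent.Lib.MP_c385f6_ag

open Finset Polynomial

/-- `X ^ n - a` is irreducible over `k` and `b ^ r` is not a norm from `k[X] / (X ^ n - a)`. -/
def SymbolNonzero {k : Type*} [Field k] (n r : ℕ) (a b : k) : Prop :=
  Irreducible (X ^ n - C a : k[X]) ∧
    ∀ z : AdjoinRoot (X ^ n - C a : k[X]), Algebra.norm k z ≠ b ^ r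

section
variable {k K Ω : Type*} [Field k] [CharZero k] [Field K] [Field Ω] [Algebra k K] [Algebra k Ω]
  [Algebra K Ω] [IsScalarTower k K Ω] [IsAlgClosure K Ω]
  {s : AbsGal k Ω →* PiOne k K Ω} (hs : IsSection k K Ω s)
include hs

/-- If `γ ^ n = u` is fixed by the section, then `d * u` has an `n`-th root fixed by the section
for some constant `d`. -/
theorem exists_twist_pow {n : ℕ} (hn : n ≠ 0) {γ u : maxUnramified k K Ω} (hγ0 : γ ≠ 0)
    (hγ : γ ^ n = u) (hu : ∀ g, s g u = u) : ∃ d : k, d ≠ 0 ∧ ∃ y : maxUnramified k K Ω,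
      (y : Ω) ^ n = algebraMap k Ω d * (u : Ω) ∧ ∀ g, s g y = y := by
  classical
  have hac : IsAlgClosed Ω := IsAlgClosure.isAlgClosed K
  have hacF : IsAlgClosed (algebraicClosure k Ω) := IsAlgClosure.isAlgClosed k
  have hγΩ : (γ : Ω) ≠ 0 := fun h => hγ0 (Subtype.ext h)
  have hpow : ∀ g, ((s g γ : maxUnramified k K Ω) : Ω) ^ n = (γ : Ω) ^ n := by
    intro g
    have h1 : (s g γ) ^ n = γ ^ n := by rw [← map_pow, hγ, hu]
    exact congrArg Subtype.val h1
  have halg : ∀ g, ((s g γ : maxUnramified k K Ω) : Ω) / (γ : Ω) ∈ algebraicClosure k Ω := by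
    intro g
    rw [mem_algebraicClosure_iff]
    refine ⟨X ^ n - C 1, (monic_X_pow_sub_C _ hn).ne_zero, ?_⟩
    rw [map_sub, map_pow, aeval_X, aeval_C, div_pow, hpow, div_self (pow_ne_zero _ hγΩ), map_one,
      sub_self]
  let χ : AbsGal k Ω → algebraicClosure k Ω := fun g => ⟨_, halg g⟩
  have hχγ : ∀ g, s g γ = constHom k K Ω (χ g) * γ := by
    intro g
    apply Subtype.ext
    show ((s g γ : maxUnramified k K Ω) : Ω) = ((s g γ : maxUnramified k K Ω) : Ω) / (γ : Ω) * γ
    field_simp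
  have hsc : ∀ g c, s g (constHom k K Ω c) = constHom k K Ω (g c) := by
    intro g c
    apply Subtype.ext
    exact hs.restrict g c (constHom k K Ω c) rfl
  have hinj : Function.Injective (constHom k K Ω) := (constHom k K Ω).injective
  have hχ0 : ∀ g, χ g ≠ 0 := by
    intro g h
    have h1 := hχγ g
    rw [h, map_zero, zero_mul] at h1
    exact hγ0 ((map_eq_zero _).1 h1)
  have hχn : ∀ g, χ g ^ n = 1 := by
    intro g
    apply Subtype.ext
    show (((s g γ : maxUnramified k K Ω) : Ω) / (γ : Ω)) ^ n = 1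
    rw [div_pow, hpow, div_self (pow_ne_zero _ hγΩ)]
  obtain ⟨κ, hκ0, hκ⟩ := exists_kummer (k := k) (F := algebraicClosure k Ω) ⊤ χ
    (fun g _ => hχ0 g)
    (by
      intro g _ h _
      apply hinj
      apply mul_right_cancel₀ hγ0
      rw [← hχγ, map_mul s, AlgEquiv.mul_apply, hχγ h, map_mul (s g), hsc, hχγ g, map_mul]
      ring)
    (by
      have h1 : IsOpen (MulAction.stabilizer (PiOne k K Ω) γ : Set (PiOne k K Ω)) := by
        have : Algebra.IsAlgebraic K Ω := IsAlgClosure.isAlgebraic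
        have : Algebra.IsIntegral K (maxUnramified k K Ω) := inferInstance
        exact stabilizer_isOpen_of_isIntegral γ
      have h3 : IsOpen (s ⁻¹' (MulAction.stabilizer (PiOne k K Ω) γ : Set (PiOne k K Ω))) :=
        h1.preimage hs.continuous
      refine h3.mem_nhds ?_ |> Filter.mem_of_superset <| ?_
      · show s 1 ∈ MulAction.stabilizer (PiOne k K Ω) γ
        rw [map_one]; exact Subgroup.one_mem _
      · intro g hg
        refine ⟨trivial, ?_⟩
        have h4 : s g γ = γ := MulAction.mem_stabilizer_iff.1 hg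
        apply Subtype.ext
        show ((s g γ : maxUnramified k K Ω) : Ω) / (γ : Ω) = 1
        rw [h4, div_self hγΩ])
  have hκn : ∀ g : AbsGal k Ω, g ((κ⁻¹) ^ n) = (κ⁻¹) ^ n := by
    intro g
    rw [map_pow, map_inv₀, hκ g trivial, mul_inv, mul_pow, inv_pow, hχn, inv_one, one_mul]
  obtain ⟨d, hd⟩ := (InfiniteGalois.mem_range_algebraMap_iff_fixed (k := k)
    ((κ⁻¹) ^ n : algebraicClosure k Ω)).2 hκn
  have hdΩ : algebraMap k Ω d = ((κ⁻¹ : algebraicClosure k Ω) : Ω) ^ n := by
    have := congrArg (fun w : algebraicClosure k Ω => (w : Ω)) hd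
    exact this
  refine ⟨d, ?_, constHom k K Ω κ⁻¹ * γ, ?_, ?_⟩
  · rintro rfl
    rw [map_zero] at hd
    exact pow_ne_zero n (inv_ne_zero hκ0) hd.symm
  · have h1 : ((constHom k K Ω κ⁻¹ * γ : maxUnramified k K Ω) : Ω) =
      ((κ⁻¹ : algebraicClosure k Ω) : Ω) * (γ : Ω) := rfl
    have h2 : (u : Ω) = (γ : Ω) ^ n := by rw [← hγ]; rfl
    rw [h1, mul_pow, hdΩ, h2]
  · intro g
    rw [map_mul (s g), hsc, hχγ, map_inv₀, hκ g trivial, mul_inv, map_mul, map_inv₀, mul_mul_mul_comm,
      mul_comm (constHom k K Ω κ⁻¹) , ← mul_assoc]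
    have h1 : (constHom k K Ω) (χ g) ≠ 0 := (_root_.map_ne_zero _).2 (hχ0 g)
    field_simp

end

section
variable {k E : Type*} [Field k] [Field E] [Algebra k E] [FiniteDimensional k E] [IsGalois k E]
  [IsCyclic (E ≃ₐ[k] E)] {θ : E} (hθ : Algebra.adjoin k {θ} = ⊤) {n : ℕ} {a : k}
  (hmin : minpoly k θ = X ^ n - C a)
include hθ

theorem gen_coprime (g : E ≃ₐ[k] E) (hg : g ≠ 1) :
    IsCoprime (X - C θ) ((X - C θ).map (g : E →+* E)) := by
  rw [Polynomial.map_sub, Polynomial.map_X, Polynomial.map_C]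
  apply Polynomial.isCoprime_X_sub_C_of_isUnit_sub
  rw [isUnit_iff_ne_zero, sub_ne_zero]
  intro h
  apply hg
  have h1 : (g : E →ₐ[k] E) = AlgHom.id k E := by
    apply AlgHom.ext_of_adjoin_eq_top hθ
    intro y hy
    rw [Set.mem_singleton_iff.1 hy]
    exact h.symm
  ext z
  exact DFunLike.congr_fun h1 z

include hmin

theorem gen_prod : (X ^ n - C a : k[X]).map (algebraMap k E) =
    ∏ g : E ≃ₐ[k] E, (X - C θ).map (g : E →+* E) := by
  obtain ⟨σ, hσ⟩ := IsCyclic.exists_generator (α := E ≃ₐ[k] E)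
  rw [← hmin, minpoly_eq_prod hθ hσ, prod_aut_eq hσ]
  refine Finset.prod_congr rfl fun i _ => ?_
  rw [Polynomial.map_sub, Polynomial.map_X, Polynomial.map_C]
  rfl

theorem gen_norm (hn : Module.finrank k E = n) (x y : k) :
    Algebra.norm k (algebraMap k E x - θ * algebraMap k E y) = x ^ n - a * y ^ n := by
  have h0 : ∀ d : k, Algebra.norm k (algebraMap k E d - θ) = d ^ n - a := by
    intro d
    apply (algebraMap k E).injective
    rw [Algebra.norm_eq_prod_automorphisms]
    have h1 := congrArg (Polynomial.eval (algebraMap k E d)) (gen_prod hθ hmin)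
    rw [eval_prod] at h1
    refine Eq.trans (Finset.prod_congr rfl fun g _ => ?_) (h1.symm.trans ?_)
    · rw [Polynomial.map_sub, Polynomial.map_X, Polynomial.map_C, eval_sub, eval_X, eval_C,
        map_sub, AlgEquiv.commutes]
      rfl
    · simp
  by_cases hy : y = 0
  · subst hy
    have hn0 : n ≠ 0 := by rw [← hn]; exact Module.finrank_pos.ne'
    rw [map_zero, mul_zero, sub_zero, Algebra.norm_algebraMap, hn, zero_pow hn0, mul_zero, sub_zero]
  · have h1 : algebraMap k E x - θ * algebraMap k E y =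
        algebraMap k E y * (algebraMap k E (x / y) - θ) := by
      rw [map_div₀]
      have : algebraMap k E y ≠ 0 := (_root_.map_ne_zero _).2 hy
      field_simp
    rw [h1, map_mul, h0, Algebra.norm_algebraMap, hn, div_pow, mul_sub,
      mul_div_cancel₀ _ (pow_ne_zero n hy)]
    ring

end

section
variable {k : Type*} [Field k] {n r : ℕ} {ζ : k} (hζ : IsPrimitiveRoot ζ n) {a b : k}
  (hab : SymbolNonzero n r a b)
include hζ hab

/-- At a rational point the symbol vanishes. -/
theorem symbol_point {x y z : k} (h0 : x ≠ 0 ∨ y ≠ 0) (h : x ^ n - a * y ^ n = b * z ^ n) :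
    False := by
  obtain ⟨H, hb⟩ := hab
  have hfact : Fact (Irreducible (X ^ n - C a : k[X])) := ⟨H⟩
  have hn0 : n ≠ 0 := ne_zero_of_irreducible_X_pow_sub_C H
  have hne : NeZero n := ⟨hn0⟩
  have hprim : (primitiveRoots n k).Nonempty :=
    ⟨ζ, (mem_primitiveRoots (Nat.pos_of_ne_zero hn0)).2 hζ⟩
  have hsf := isSplittingField_AdjoinRoot_X_pow_sub_C hprim H
  have hfd := Polynomial.IsSplittingField.finiteDimensional
    (AdjoinRoot (X ^ n - C a : k[X])) (X ^ n - C a)
  have hgal := isGalois_of_isSplittingField_X_pow_sub_C hprim H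
    (AdjoinRoot (X ^ n - C a : k[X]))
  have hcyc := isCyclic_of_isSplittingField_X_pow_sub_C hprim H
    (AdjoinRoot (X ^ n - C a : k[X]))
  have hfr : Module.finrank k (AdjoinRoot (X ^ n - C a : k[X])) = n :=
    finrank_of_isSplittingField_X_pow_sub_C hprim H _
  have hmin : minpoly k (AdjoinRoot.root (X ^ n - C a : k[X])) = X ^ n - C a := by
    rw [AdjoinRoot.minpoly_root H.ne_zero, (monic_X_pow_sub_C a hn0).leadingCoeff, inv_one, C_1,
      mul_one]
  have hnorm := gen_norm (θ := AdjoinRoot.root (X ^ n - C a : k[X]))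
    AdjoinRoot.adjoinRoot_eq_top hmin hfr
  by_cases hz : z = 0
  · subst hz
    rw [zero_pow hn0, mul_zero, sub_eq_zero] at h
    have hy : y ≠ 0 := by
      rintro rfl
      rw [zero_pow hn0, mul_zero] at h
      simp [pow_eq_zero_iff hn0 |>.1 h] at h0
    have h1 : (X ^ n - C a : k[X]).IsRoot (x / y) := by
      rw [IsRoot, eval_sub, eval_pow, eval_X, eval_C, div_pow, h]
      field_simp
      ring
    have h2 := degree_eq_one_of_irreducible_of_root H h1
    have h3 : n = 1 := by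
      rw [degree_X_pow_sub_C (Nat.pos_of_ne_zero hn0)] at h2
      exact_mod_cast h2
    apply hb (algebraMap k _ (b ^ r))
    have h4 := Algebra.norm_algebraMap (S := AdjoinRoot (X ^ n - C a : k[X])) (b ^ r)
    rw [hfr] at h4
    refine h4.trans ?_
    rw [h3, pow_one]
  · have h1 := hnorm (x / z) (y / z)
    apply hb ((algebraMap k _ (x / z) - AdjoinRoot.root (X ^ n - C a : k[X]) *
      algebraMap k _ (y / z)) ^ r)
    have h2 : (x / z) ^ n - a * (y / z) ^ n = b := by
      rw [div_pow, div_pow]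
      field_simp
      linear_combination h
    rw [h2] at h1
    rw [map_pow]
    exact congrArg (fun t => t ^ r) h1

end

section
variable {k K Ω : Type*} [Field k] [CharZero k] [Field K] [Field Ω] [Algebra k K] [Algebra k Ω]
  [Algebra K Ω] [IsScalarTower k K Ω] [IsAlgClosure K Ω]
  {s : AbsGal k Ω →* PiOne k K Ω} (hs : IsSection k K Ω s)
  {n r : ℕ} {ζ : k} (hζ : IsPrimitiveRoot ζ n) (hr : Even (r * (n - 1))) {a b : k}
  (hab : SymbolNonzero n r a b) {x y z : maxUnramified k K Ω} (hx : ∀ g, s g x = x)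
  (hy : ∀ g, s g y = y) (hz : ∀ g, s g z = z) (hy0 : y ≠ 0) (hz0 : z ≠ 0)
  (h : (x : Ω) ^ n - algebraMap k Ω a * (y : Ω) ^ n = algebraMap k Ω b * (z : Ω) ^ n)
include hs hζ hr hab hx hy hz hy0 hz0 h

theorem kummer_fixed : False := by
  obtain ⟨H, hb⟩ := hab
  have hfact : Fact (Irreducible (X ^ n - C a : k[X])) := ⟨H⟩
  have hn0 : n ≠ 0 := ne_zero_of_irreducible_X_pow_sub_C H
  have hne : NeZero n := ⟨hn0⟩
  have hprim : (primitiveRoots n k).Nonempty :=
    ⟨ζ, (mem_primitiveRoots (Nat.pos_of_ne_zero hn0)).2 hζ⟩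
  have hsf := isSplittingField_AdjoinRoot_X_pow_sub_C hprim H
  have hfd := Polynomial.IsSplittingField.finiteDimensional
    (AdjoinRoot (X ^ n - C a : k[X])) (X ^ n - C a)
  have hgal := isGalois_of_isSplittingField_X_pow_sub_C hprim H
    (AdjoinRoot (X ^ n - C a : k[X]))
  have hcyc := isCyclic_of_isSplittingField_X_pow_sub_C hprim H
    (AdjoinRoot (X ^ n - C a : k[X]))
  have hfr : Module.finrank k (AdjoinRoot (X ^ n - C a : k[X])) = n :=
    finrank_of_isSplittingField_X_pow_sub_C hprim H _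
  have hmin : minpoly k (AdjoinRoot.root (X ^ n - C a : k[X])) = X ^ n - C a := by
    rw [AdjoinRoot.minpoly_root H.ne_zero, (monic_X_pow_sub_C a hn0).leadingCoeff, inv_one, C_1,
      mul_one]
  have htop : Algebra.adjoin k {AdjoinRoot.root (X ^ n - C a : k[X])} = ⊤ :=
    AdjoinRoot.adjoinRoot_eq_top
  have hyΩ : (y : Ω) ≠ 0 := fun h => hy0 (Subtype.ext h)
  have hzΩ : (z : Ω) ≠ 0 := fun h => hz0 (Subtype.ext h)
  have hb0 : b ≠ 0 := by
    rintro rfl
    by_cases hr0 : r = 0
    · subst hr0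
      apply hb 1
      rw [map_one, pow_zero]
    · apply hb 0
      rw [zero_pow hr0]
      exact Algebra.norm_zero
  refine norm_fixed (E := AdjoinRoot (X ^ n - C a : k[X])) hs
    (h := X - C (AdjoinRoot.root (X ^ n - C a : k[X])))
    (gen_coprime htop) (gen_prod htop hmin) (c := b⁻¹) (r := r) ?_ ?_
    (x := x / y) (y := z / y) (fun g => by rw [map_div₀, hx, hy])
    (fun g => by rw [map_div₀, hz, hy]) (div_ne_zero hz0 hy0) ?_
  · rw [natDegree_X_sub_C, mul_one, hfr]
    exact hr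
  · intro u hu
    have hu0 : u ≠ 0 := by
      rintro rfl
      rw [Algebra.norm_zero] at hu
      exact pow_ne_zero _ (inv_ne_zero hb0) hu.symm
    apply hb u⁻¹
    have := norm_inv_eq (k := k) hu0
    rw [hu, inv_pow, inv_inv] at this
    exact this
  · have e1 : ((x / y : maxUnramified k K Ω) : Ω) = (x : Ω) / (y : Ω) := rfl
    have e2 : ((z / y : maxUnramified k K Ω) : Ω) = (z : Ω) / (y : Ω) := rfl
    have hbΩ : algebraMap k Ω b ≠ 0 := (_root_.map_ne_zero _).2 hb0
    rw [e1, e2, hfr, map_sub, map_pow, aeval_X, aeval_C, map_inv₀, div_pow, div_pow]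
    field_simp
    linear_combination -h

end

/-- The two coefficients of the twisted Fermat curve belonging to three of the linear forms
`α j * w + β j` and the twists `d`, divided by the third. -/
def coefA {k ι : Type*} [Field k] (α β d : ι → k) (a b c : ι) : k :=
  -((α c * β a - α a * β c) * d a) / ((α b * β c - α c * β b) * d b)

theorem coef_identity {F : Type*} [Field F] {a₁ a₂ b₁ b₂ c₁ c₂ da db dc p q : F}
    (h1 : b₁ * c₂ - c₁ * b₂ ≠ 0) (hdb : db ≠ 0) (hdc : dc ≠ 0) :
    da * (a₁ * p + a₂ * q) -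
      -((c₁ * a₂ - a₁ * c₂) * da) / ((b₁ * c₂ - c₁ * b₂) * db) * (db * (b₁ * p + b₂ * q)) =
      -((b₁ * a₂ - a₁ * b₂) * da) / ((c₁ * b₂ - b₁ * c₂) * dc) * (dc * (c₁ * p + c₂ * q)) := by
  have e1 : c₁ * b₂ - b₁ * c₂ = -(b₁ * c₂ - c₁ * b₂) := by ring
  rw [e1]
  set D := b₁ * c₂ - c₁ * b₂ with hD
  have e2 : -((c₁ * a₂ - a₁ * c₂) * da) / (D * db) * (db * (b₁ * p + b₂ * q)) =
      (-((c₁ * a₂ - a₁ * c₂) * da) * (b₁ * p + b₂ * q)) / D := by
    field_simp
  have e3 : -((b₁ * a₂ - a₁ * b₂) * da) / (-D * dc) * (dc * (c₁ * p + c₂ * q)) =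
      ((b₁ * a₂ - a₁ * b₂) * da * (c₁ * p + c₂ * q)) / D := by
    field_simp
  have e4 : da * (a₁ * p + a₂ * q) = (da * (a₁ * p + a₂ * q) * D) / D := by
    field_simp
  rw [e2, e3, e4, ← sub_div]
  congr 1
  rw [hD]
  ring

section
variable {k K Ω ι : Type*} [Field k] [CharZero k] [Field K] [Field Ω] [Algebra k K] [Algebra k Ω]
  [Algebra K Ω] [IsScalarTower k K Ω] [IsAlgClosure K Ω] {n : ℕ} (hn : n ≠ 0)
  {α β : ι → k} {w : K}
  (hram : ∀ A : ValuationSubring K, (∀ c : k, algebraMap k K c ∈ A) → ∀ j, ∃ h : K, h ≠ 0 ∧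
    ((w ∈ A ∧ A.valuation (form α β w j) = A.valuation (h ^ n)) ∨
      (w ∉ A ∧ A.valuation (form α β w j) = A.valuation (w * h ^ n))))
include hram

omit [CharZero k] in
theorem form_ne_zero_pow (j : ι) : form α β w j ≠ 0 := by
  intro h0
  obtain ⟨h, hh, hc⟩ := hram ⊤ (fun c => trivial) j
  rcases hc with ⟨_, h1⟩ | ⟨h2, _⟩
  · rw [h0, map_zero] at h1
    exact pow_ne_zero n hh ((map_eq_zero _).1 h1.symm)
  · exact h2 trivial

include hn

/-- The twists picked by a section. -/
theorem exists_twists_pow {s : AbsGal k Ω →* PiOne k K Ω} (hs : IsSection k K Ω s) (j₀ : ι) :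
    ∃ (d : ι → k) (Y : ι → maxUnramified k K Ω), (∀ j, d j ≠ 0) ∧ (∀ j g, s g (Y j) = Y j) ∧
      ∀ j, (Y j : Ω) ^ n = algebraMap k Ω (d j) *
        algebraMap K Ω (form α β w j / form α β w j₀) := by
  classical
  have hac : IsAlgClosed Ω := IsAlgClosure.isAlgClosed K
  have hf := form_ne_zero_pow hram
  have key : ∀ j, ∃ d : k, d ≠ 0 ∧ ∃ y : maxUnramified k K Ω,
      (y : Ω) ^ n = algebraMap k Ω d * algebraMap K Ω (form α β w j / form α β w j₀) ∧
        ∀ g, s g y = y := by
    intro j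
    have hu0 : form α β w j / form α β w j₀ ≠ 0 := div_ne_zero (hf j) (hf j₀)
    obtain ⟨γ, hγ⟩ := IsAlgClosed.exists_pow_nat_eq
      (algebraMap K Ω (form α β w j / form α β w j₀)) (Nat.pos_of_ne_zero hn)
    have hγ0 : γ ≠ 0 := by
      rintro rfl
      rw [zero_pow hn] at hγ
      exact (_root_.map_ne_zero (algebraMap K Ω)).2 hu0 hγ.symm
    have hγm : γ ∈ maxUnramified k K Ω := by
      refine mem_ur_of_pow hn ?_ fun B hB => ?_
      · rw [hγ]; exact (maxUnramified k K Ω).algebraMap_mem _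
      · have hAk : ∀ c : k, algebraMap k K c ∈ B.comap (algebraMap K Ω) := by
          intro c
          show algebraMap K Ω (algebraMap k K c) ∈ B
          rw [← IsScalarTower.algebraMap_apply k K Ω]
          exact hB c
        obtain ⟨h, hh, hc⟩ := hram _ hAk j
        obtain ⟨h₀, hh₀, hc₀⟩ := hram _ hAk j₀
        refine ⟨algebraMap K Ω (h / h₀), (maxUnramified k K Ω).algebraMap_mem _,
          (_root_.map_ne_zero _).2 (div_ne_zero hh hh₀), ?_⟩
        have hsq : B.valuation γ ^ n = B.valuation (algebraMap K Ω (h / h₀)) ^ n := by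
          rw [← map_pow, hγ, ← map_pow, ← map_pow]
          rcases hc with ⟨hw, h1⟩ | ⟨hw, h1⟩ <;> rcases hc₀ with ⟨hw₀, h2⟩ | ⟨hw₀, h2⟩
          · rw [map_div₀, map_div₀, comap_valuation h1, comap_valuation h2, ← map_div₀,
              ← map_div₀, div_pow]
          · exact absurd hw hw₀
          · exact absurd hw₀ hw
          · have hw0 : w ≠ 0 := by
              rintro rfl
              exact hw (ValuationSubring.zero_mem _)
            rw [map_div₀, map_div₀, comap_valuation h1, comap_valuation h2, ← map_div₀,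
              ← map_div₀, div_pow, mul_div_mul_left _ _ hw0]
        exact (pow_left_inj₀ zero_le zero_le hn).1 hsq
    obtain ⟨d, hd, y, hy, hys⟩ := exists_twist_pow hs hn (γ := ⟨γ, hγm⟩)
      (u := algebraMap K _ (form α β w j / form α β w j₀))
      (fun h => hγ0 (congrArg Subtype.val h)) (Subtype.ext hγ) (fun g => (s g).commutes _)
    exact ⟨d, hd, y, hy, hys⟩
  choose d hd Y hY hYs using key
  exact ⟨d, Y, hd, hYs, hY⟩

omit hram in
/-- The relations between the twists. -/
theorem twist_relation_pow {s : AbsGal k Ω →* PiOne k K Ω} (hs : IsSection k K Ω s) {j₀ : ι}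
    (hf0 : form α β w j₀ ≠ 0)
    {d : ι → k} {Y : ι → maxUnramified k K Ω} (hYs : ∀ j g, s g (Y j) = Y j)
    (hY : ∀ j, (Y j : Ω) ^ n = algebraMap k Ω (d j) *
        algebraMap K Ω (form α β w j / form α β w j₀))
    (S : Finset ι) (m : ι → ℕ) (c : k) (z : K) (hS : n ∣ ∑ j ∈ S, m j) (hz : z ≠ 0)
    (hzc : z ^ n = algebraMap k K c * ∏ j ∈ S, form α β w j ^ m j) :
    ∃ e : k, ∏ j ∈ S, d j ^ m j = c * e ^ n := by
  classical
  obtain ⟨t, ht⟩ := hS
  have hac : IsAlgClosed Ω := IsAlgClosure.isAlgClosed K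
  have hc0 : c ≠ 0 := by
    rintro rfl
    rw [map_zero, zero_mul] at hzc
    exact hz (pow_eq_zero_iff hn |>.1 hzc)
  let e' : maxUnramified k K Ω := (∏ j ∈ S, Y j ^ m j) * algebraMap K _ (form α β w j₀ ^ t / z)
  have he's : ∀ g, s g e' = e' := by
    intro g
    show s g ((∏ j ∈ S, Y j ^ m j) * algebraMap K _ (form α β w j₀ ^ t / z)) = _
    rw [map_mul, map_prod, (s g).commutes,
      Finset.prod_congr rfl (fun j _ => by rw [map_pow, hYs j g])]
  have hcoe : (e' : Ω) = (∏ j ∈ S, (Y j : Ω) ^ m j) *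
      algebraMap K Ω (form α β w j₀ ^ t / z) := by
    show (((∏ j ∈ S, Y j ^ m j) * algebraMap K _ (form α β w j₀ ^ t / z) :
      maxUnramified k K Ω) : Ω) = _
    rw [MulMemClass.coe_mul]
    refine congrArg₂ (· * ·) ?_ rfl
    exact map_prod (maxUnramified k K Ω).val (fun j => Y j ^ m j) S
  have he'2 : (e' : Ω) ^ n = algebraMap k Ω ((∏ j ∈ S, d j ^ m j) / c) := by
    have h3 : ∀ j ∈ S, ((Y j : Ω) ^ m j) ^ n = algebraMap k Ω (d j ^ m j) *
        algebraMap K Ω (form α β w j ^ m j / form α β w j₀ ^ m j) := by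
      intro j _
      rw [← pow_mul, mul_comm, pow_mul, hY j, mul_pow, ← map_pow, ← map_pow, div_pow]
    rw [hcoe, mul_pow, ← Finset.prod_pow, Finset.prod_congr rfl h3,
      Finset.prod_mul_distrib, ← map_prod, ← map_prod, Finset.prod_div_distrib,
      Finset.prod_pow_eq_pow_sum, ht, mul_assoc, ← map_pow, ← map_mul]
    have h2 : (∏ j ∈ S, form α β w j ^ m j) / form α β w j₀ ^ (n * t) *
        (form α β w j₀ ^ t / z) ^ n = algebraMap k K c⁻¹ := by
      have hck : algebraMap k K c ≠ 0 := (_root_.map_ne_zero _).2 hc0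
      have hP : ∏ j ∈ S, form α β w j ^ m j ≠ 0 := by
        intro h
        rw [h, mul_zero] at hzc
        exact hz (pow_eq_zero_iff hn |>.1 hzc)
      rw [map_inv₀, div_pow, hzc, ← pow_mul, mul_comm t n]
      have hfn : form α β w j₀ ^ (n * t) ≠ 0 := pow_ne_zero _ hf0
      field_simp
    rw [h2, ← IsScalarTower.algebraMap_apply k K Ω, ← map_mul, div_eq_mul_inv]
  have halg : (e' : Ω) ∈ algebraicClosure k Ω := by
    rw [mem_algebraicClosure_iff]
    refine ⟨Polynomial.X ^ n - Polynomial.C ((∏ j ∈ S, d j ^ m j) / c),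
      (Polynomial.monic_X_pow_sub_C _ hn).ne_zero, ?_⟩
    rw [map_sub, map_pow, Polynomial.aeval_X, Polynomial.aeval_C, he'2, sub_self]
  obtain ⟨e, he⟩ := fixed_const hs he's halg
  refine ⟨e, ?_⟩
  rw [he, ← map_pow] at he'2
  have := (algebraMap k Ω).injective he'2
  rw [this]
  field_simp

variable (hne : ∀ i j, i ≠ j → α i * β j ≠ α j * β i) {ζ : k} (hζ : IsPrimitiveRoot ζ n)
  {r : ℕ} (hr : Even (r * (n - 1)))
  (hcon : ∀ d : ι → k, (∀ j, d j ≠ 0) →
    (∀ (S : Finset ι) (m : ι → ℕ) (c : k) (z : K), n ∣ ∑ j ∈ S, m j → z ≠ 0 →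
      z ^ n = algebraMap k K c * ∏ j ∈ S, form α β w j ^ m j →
      ∃ e : k, ∏ j ∈ S, d j ^ m j = c * e ^ n) →
    ∃ a b c, a ≠ b ∧ b ≠ c ∧ a ≠ c ∧
      SymbolNonzero n r (coefA α β d a b c) (coefA α β d a c b))
include hne hζ hr hcon

theorem kummer_no_section [Nonempty ι] (s : AbsGal k Ω →* PiOne k K Ω) :
    ¬ IsSection k K Ω s := by
  classical
  intro hs
  obtain ⟨j₀⟩ := ‹Nonempty ι›
  have hf := form_ne_zero_pow hram
  obtain ⟨d, Y, hd, hYs, hY⟩ := exists_twists_pow hn hram hs j₀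
  obtain ⟨a, b, c, hab, hbc, hac, hsym⟩ := hcon d hd
    (fun S m c z hS hz hzc => twist_relation_pow hn hs (hf j₀) hYs hY S m c z hS hz hzc)
  have hY0 : ∀ j, Y j ≠ 0 := by
    intro j h
    have h1 := hY j
    have h2 : (Y j : Ω) = 0 := congrArg Subtype.val h
    rw [h2, zero_pow hn] at h1
    exact mul_ne_zero ((_root_.map_ne_zero _).2 (hd j))
      ((_root_.map_ne_zero _).2 (div_ne_zero (hf j) (hf j₀))) h1.symm
  refine kummer_fixed hs hζ hr hsym (hYs a) (hYs b) (hYs c) (hY0 b) (hY0 c) ?_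
  rw [hY, hY, hY]
  have h0 : algebraMap K Ω (form α β w j₀) ≠ 0 := (_root_.map_ne_zero (algebraMap K Ω)).2 (hf j₀)
  have h1 : algebraMap k Ω (α b) * algebraMap k Ω (β c) -
      algebraMap k Ω (α c) * algebraMap k Ω (β b) ≠ 0 := by
    rw [← map_mul, ← map_mul, ← map_sub]
    exact (_root_.map_ne_zero _).2 (sub_ne_zero.2 (hne b c hbc))
  have hdb : algebraMap k Ω (d b) ≠ 0 := (_root_.map_ne_zero _).2 (hd b)
  have hdc : algebraMap k Ω (d c) ≠ 0 := (_root_.map_ne_zero _).2 (hd c)
  have hform : ∀ j, algebraMap K Ω (form α β w j / form α β w j₀) =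
      algebraMap k Ω (α j) * (algebraMap K Ω w / algebraMap K Ω (form α β w j₀)) +
        algebraMap k Ω (β j) * (1 / algebraMap K Ω (form α β w j₀)) := by
    intro j
    have h2 : algebraMap K Ω (form α β w j) =
        algebraMap k Ω (α j) * algebraMap K Ω w + algebraMap k Ω (β j) := by
      simp only [form, map_add, map_mul, ← IsScalarTower.algebraMap_apply k K Ω]
    rw [map_div₀, h2]
    ring
  rw [hform, hform, hform]
  simp only [coefA, map_div₀, map_mul, map_sub, map_neg]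
  exact coef_identity h1 hdb hdc

end

section
variable {k K ι : Type*} [Field k] [CharZero k] [Field K] [Algebra k K] {n : ℕ} (hn : n ≠ 0)
  {α β : ι → k} (hne : ∀ i j, i ≠ j → α i * β j ≠ α j * β i) {w : K}
  (hram : ∀ A : ValuationSubring K, (∀ c : k, algebraMap k K c ∈ A) → ∀ j, ∃ h : K, h ≠ 0 ∧
    ((w ∈ A ∧ A.valuation (form α β w j) = A.valuation (h ^ n)) ∨
      (w ∉ A ∧ A.valuation (form α β w j) = A.valuation (w * h ^ n))))
  {ζ : k} (hζ : IsPrimitiveRoot ζ n) {r : ℕ}
  (hcon : ∀ d : ι → k, (∀ j, d j ≠ 0) →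
    (∀ (S : Finset ι) (m : ι → ℕ) (c : k) (z : K), n ∣ ∑ j ∈ S, m j → z ≠ 0 →
      z ^ n = algebraMap k K c * ∏ j ∈ S, form α β w j ^ m j →
      ∃ e : k, ∏ j ∈ S, d j ^ m j = c * e ^ n) →
    ∃ a b c, a ≠ b ∧ b ≠ c ∧ a ≠ c ∧
      SymbolNonzero n r (coefA α β d a b c) (coefA α β d a c b))
include hn hne hram hζ hcon

omit [CharZero k] in
theorem kummer_no_place (A : ValuationSubring K) : ¬ IsRationalPlace k K A := by
  classical
  intro hA
  have hcA : ∀ c : k, algebraMap k K c ∈ A := hA.const_mem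
  let j : k →+* IsLocalRing.ResidueField A :=
    (IsLocalRing.residue A).comp ((algebraMap k K).codRestrict A hcA)
  have hj : ∀ c : k, j c = IsLocalRing.residue A ⟨algebraMap k K c, hcA c⟩ := fun c => rfl
  have hres : ∀ z : A, ∃ c : k, IsLocalRing.residue A z = j c := by
    intro z
    obtain ⟨c, hc⟩ := hA.residue z z.2
    refine ⟨c, ?_⟩
    rw [hj, ← sub_eq_zero, ← map_sub, IsLocalRing.residue_eq_zero_iff,
      ValuationSubring.valuation_lt_one_iff]
    exact hc
  have hsq : ∀ z : K, z ^ n ∈ A → z ∈ A := by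
    intro z hz
    rw [← A.valuation_le_one_iff, map_pow] at hz
    rw [← A.valuation_le_one_iff]
    by_contra hcon
    push Not at hcon
    exact absurd hz (not_le.2 (one_lt_pow₀ hcon hn))
  -- normalisation
  obtain ⟨N, hN0, p, q, hpq, hNA, hNr, hNh⟩ : ∃ N : K, N ≠ 0 ∧ ∃ p q : k, (p ≠ 0 ∨ q ≠ 0) ∧
      ∃ hNA : ∀ i, form α β w i / N ∈ A, (∀ i, IsLocalRing.residue A ⟨_, hNA i⟩ =
        j (α i * p + β i * q)) ∧
      ∀ i, ∃ h : K, h ≠ 0 ∧ A.valuation (form α β w i) = A.valuation (N * h ^ n) := by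
    by_cases hw : w ∈ A
    · obtain ⟨w₀, hw₀⟩ := hres ⟨w, hw⟩
      refine ⟨1, one_ne_zero, w₀, 1, Or.inr one_ne_zero, ?_, ?_, ?_⟩
      · intro i
        rw [div_one]
        exact add_mem (mul_mem (hcA _) hw) (hcA _)
      · intro i
        rw [map_add, map_mul, map_mul, map_one, mul_one, ← hw₀, hj, hj, ← map_mul, ← map_add]
        congr 1
        apply Subtype.ext
        show form α β w i / 1 = _
        rw [div_one]
        rfl
      · intro i
        obtain ⟨h, hh, hc⟩ := hram A hcA i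
        rcases hc with ⟨_, h1⟩ | ⟨h1, _⟩
        · exact ⟨h, hh, by rw [one_mul]; exact h1⟩
        · exact absurd hw h1
    · have hw0 : w ≠ 0 := by
        rintro rfl
        exact hw A.zero_mem
      have hwv : A.valuation w⁻¹ < 1 := by
        rw [map_inv₀]
        apply inv_lt_one_of_one_lt₀
        rw [← not_le, A.valuation_le_one_iff]
        exact hw
      have hwi : w⁻¹ ∈ A := (A.valuation_le_one_iff _).1 hwv.le
      have hform : ∀ i, form α β w i / w = algebraMap k K (α i) + algebraMap k K (β i) * w⁻¹ := by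
        intro i
        rw [form]
        field_simp
      refine ⟨w, hw0, 1, 0, Or.inl one_ne_zero, ?_, ?_, ?_⟩
      · intro i
        rw [hform]
        exact add_mem (hcA _) (mul_mem (hcA _) hwi)
      · intro i
        have h1 : IsLocalRing.residue A ⟨w⁻¹, hwi⟩ = 0 := by
          rw [IsLocalRing.residue_eq_zero_iff, ValuationSubring.valuation_lt_one_iff]
          exact hwv
        have h2 : (⟨form α β w i / w, by
            rw [hform]; exact add_mem (hcA _) (mul_mem (hcA _) hwi)⟩ : A) =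
            ⟨algebraMap k K (α i), hcA _⟩ + ⟨algebraMap k K (β i), hcA _⟩ * ⟨w⁻¹, hwi⟩ :=
          Subtype.ext (hform i)
        rw [h2, map_add, map_mul, h1, mul_zero, add_zero, mul_one, mul_zero, add_zero, hj]
      · intro i
        obtain ⟨h, hh, hc⟩ := hram A hcA i
        rcases hc with ⟨h1, _⟩ | ⟨_, h1⟩
        · exact absurd h1 hw
        · exact ⟨h, hh, h1⟩
  choose h hh0 hhv using hNh
  have hf := form_ne_zero_pow hram
  -- units
  have hu1 : ∀ i, A.valuation (form α β w i / (N * h i ^ n)) = 1 := by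
    intro i
    rw [map_div₀, hhv i, div_self]
    exact (Valuation.ne_zero_iff _).2 (mul_ne_zero hN0 (pow_ne_zero _ (hh0 i)))
  have huA : ∀ i, form α β w i / (N * h i ^ n) ∈ A := fun i =>
    (A.valuation_le_one_iff _).1 (hu1 i).le
  have hhA : ∀ i, h i ∈ A := by
    intro i
    apply hsq
    rw [← A.valuation_le_one_iff]
    have h1 : h i ^ n = form α β w i / N / (form α β w i / (N * h i ^ n)) := by
      have := hf i
      have := pow_ne_zero n (hh0 i)
      field_simp
    rw [h1, map_div₀, hu1, div_one]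
    exact (A.valuation_le_one_iff _).2 (hNA i)
  have hd' : ∀ i, ∃ c : k, IsLocalRing.residue A ⟨_, huA i⟩ = j c := fun i => hres _
  have he' : ∀ i, ∃ c : k, IsLocalRing.residue A ⟨_, hhA i⟩ = j c := fun i => hres _
  choose d hd using hd'
  choose e he using he'
  have hd0 : ∀ i, d i ≠ 0 := by
    intro i h0
    have h1 := hd i
    rw [h0, map_zero, IsLocalRing.residue_eq_zero_iff, ValuationSubring.valuation_lt_one_iff] at h1
    have h2 : A.valuation (form α β w i / (N * h i ^ n)) < 1 := h1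
    rw [hu1] at h2
    exact lt_irrefl _ h2
  have hlam : ∀ i, α i * p + β i * q = d i * e i ^ n := by
    intro i
    apply j.injective
    rw [← hNr i, map_mul, map_pow, ← hd, ← he, ← map_pow, ← map_mul]
    congr 1
    apply Subtype.ext
    show form α β w i / N = form α β w i / (N * h i ^ n) * h i ^ n
    have := pow_ne_zero n (hh0 i)
    field_simp
  obtain ⟨a, b, c, hab, hbc, hac, hsym⟩ := hcon (fun i => (d i)⁻¹)
    (fun i => inv_ne_zero (hd0 i)) (by
    intro S m c z hS hz hzc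
    obtain ⟨t, ht⟩ := hS
    have hc0 : c ≠ 0 := by
      rintro rfl
      rw [map_zero, zero_mul] at hzc
      exact hz (pow_eq_zero_iff hn |>.1 hzc)
    have hz2 : (z / (N ^ t * ∏ i ∈ S, h i ^ m i)) ^ n =
        algebraMap k K c * ∏ i ∈ S, (form α β w i / (N * h i ^ n)) ^ m i := by
      have hP : ∏ i ∈ S, h i ^ m i ≠ 0 := Finset.prod_ne_zero_iff.2 fun i _ =>
        pow_ne_zero _ (hh0 i)
      have e1 : ∀ i ∈ S, (form α β w i / (N * h i ^ n)) ^ m i =
          form α β w i ^ m i / (N ^ m i * (h i ^ m i) ^ n) := by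
        intro i _
        rw [div_pow, mul_pow, ← pow_mul, ← pow_mul, mul_comm n]
      rw [div_pow, hzc, Finset.prod_congr rfl e1, Finset.prod_div_distrib,
        Finset.prod_mul_distrib, Finset.prod_pow_eq_pow_sum, ht,
        Finset.prod_pow, mul_pow, ← pow_mul, mul_comm t n, mul_div_assoc]
    have hprodA : ∀ T : Finset ι, ∏ i ∈ T, (form α β w i / (N * h i ^ n)) ^ m i ∈ A := fun T =>
      prod_mem fun i _ => pow_mem (huA i) _
    have hz'A : z / (N ^ t * ∏ i ∈ S, h i ^ m i) ∈ A := by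
      apply hsq
      rw [hz2]
      exact mul_mem (hcA c) (hprodA S)
    obtain ⟨e₀, he₀⟩ := hres ⟨_, hz'A⟩
    have h1 : (⟨_, hz'A⟩ : A) ^ n = ⟨algebraMap k K c, hcA c⟩ * ∏ i ∈ S, ⟨_, huA i⟩ ^ m i := by
      apply Subtype.ext
      push_cast
      exact hz2
    have h2 := congrArg (IsLocalRing.residue A) h1
    rw [map_pow, he₀, map_mul, map_prod, Finset.prod_congr rfl (fun i _ => by rw [map_pow, hd i]),
      ← hj] at h2
    simp only [← map_pow] at h2
    rw [← map_prod, ← map_mul] at h2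
    have h3 := j.injective h2
    have hP : ∏ i ∈ S, d i ^ m i ≠ 0 := Finset.prod_ne_zero_iff.2 fun i _ =>
      pow_ne_zero _ (hd0 i)
    refine ⟨e₀⁻¹, ?_⟩
    rw [Finset.prod_congr rfl (fun i _ => inv_pow (d i) (m i)), Finset.prod_inv_distrib, inv_pow,
      h3]
    field_simp)
  refine symbol_point hζ hsym (x := e a) (y := e b) (z := e c) ?_ ?_
  · by_contra hcon2
    push Not at hcon2
    obtain ⟨h3, h4⟩ := hcon2
    have h5 := hlam a
    have h6 := hlam b
    rw [h3, zero_pow hn, mul_zero] at h5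
    rw [h4, zero_pow hn, mul_zero] at h6
    have h7 : (α a * β b - α b * β a) * p = 0 := by linear_combination β b * h5 - β a * h6
    have h8 : (α a * β b - α b * β a) * q = 0 := by linear_combination α a * h6 - α b * h5
    rcases hpq with h9 | h9
    · exact mul_ne_zero (sub_ne_zero.2 (hne a b hab)) h9 h7
    · exact mul_ne_zero (sub_ne_zero.2 (hne a b hab)) h9 h8
  · have h1 := coef_identity (F := k) (a₁ := α a) (a₂ := β a) (b₁ := α b) (b₂ := β b)
      (c₁ := α c) (c₂ := β c) (da := (d a)⁻¹) (db := (d b)⁻¹) (dc := (d c)⁻¹) (p := p) (q := q)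
      (sub_ne_zero.2 (hne b c hbc)) (inv_ne_zero (hd0 b)) (inv_ne_zero (hd0 c))
    rw [hlam, hlam, hlam, inv_mul_cancel_left₀ (hd0 a), inv_mul_cancel_left₀ (hd0 b),
      inv_mul_cancel_left₀ (hd0 c)] at h1
    exact h1

end

end Pool.Agent.Lib.MP_c385f6_ag
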