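import Mathlib
import Pool.Agent.Lib.MP_c385f6_ag.Defs

set_option autoImplicit false

/-!
Rational places of elementary abelian `2`-covers of the line over unramified rational points.
-/

namespace Pool.Agent.Lib.MP_c385f6_ag

open Polynomial IntermediateField

section
variable {k : Type*} [Field k]

theorem series_const (c : k) : algebraMap (PowerSeries k) (LaurentSeries k) (PowerSeries.C c) =
    algebraMap k (LaurentSeries k) c := by
  rw [LaurentSeries.coe_algebraMap, HahnSeries.algebraMap_apply']
  rfl

/-- The power series variable is transcendental. -/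
theorem transcendental_T : Transcendental k (algebraMap (PowerSeries k) (LaurentSeries k)
    PowerSeries.X) := by
  rintro ⟨p, hp, h⟩
  apply hp
  have h1 : aeval (algebraMap (PowerSeries k) (LaurentSeries k) PowerSeries.X) p =
      algebraMap (PowerSeries k) (LaurentSeries k) (p : PowerSeries k) := by
    rw [← Polynomial.eval₂_C_X_eq_coe, Polynomial.hom_eval₂, Polynomial.aeval_def]
    congr 1
  rw [h1, ← map_zero (algebraMap (PowerSeries k) (LaurentSeries k))] at h
  have h2 := IsFractionRing.injective (PowerSeries k) (LaurentSeries k) h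
  exact_mod_cast h2

/-- The square root of `a + T`, up to the constant `a`. -/
theorem exists_sqrt [CharZero k] {a : k} (ha : a ≠ 0) : ∃ s : PowerSeries k,
    PowerSeries.C a * s ^ 2 = PowerSeries.C a + PowerSeries.X := by
  refine ⟨PowerSeries.rescale a⁻¹ (PowerSeries.binomialSeries k (1 / 2 : ℚ)), ?_⟩
  have h1 : (PowerSeries.binomialSeries k (1 / 2 : ℚ)) ^ 2 = 1 + PowerSeries.X := by
    rw [sq, ← PowerSeries.binomialSeries_add]
    have h2 : (1 / 2 + 1 / 2 : ℚ) = ((1 : ℕ) : ℚ) := by norm_num
    rw [h2, PowerSeries.binomialSeries_nat, pow_one]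
  rw [← map_pow, h1, map_add, map_one, PowerSeries.rescale_X, mul_add, mul_one, ← mul_assoc,
    ← map_mul, mul_inv_cancel₀ ha, map_one, one_mul]

end

section
variable {k K ι κ : Type*} [Field k] [CharZero k] [Field K] [Algebra k K]

/-- An embedding into a field of Laurent series gives a rational place. -/
theorem exists_place_of_series {M : Type*} [Field M] [Algebra (LaurentSeries k) M] (φ : K →+* M)
    (hc : ∀ c : k, φ (algebraMap k K c) =
      algebraMap (LaurentSeries k) M (algebraMap (PowerSeries k) _ (PowerSeries.C c)))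
    (hφ : ∀ y : K, ∃ f : LaurentSeries k, φ y = algebraMap (LaurentSeries k) M f) {u : K}
    (hu : φ u = algebraMap (LaurentSeries k) M (algebraMap (PowerSeries k) _ PowerSeries.X)) :
    ∃ A : ValuationSubring K, IsRationalPlace k K A ∧ A.valuation u < 1 := by
  classical
  let F := LaurentSeries k
  let q : PowerSeries k →+* M := (algebraMap F M).comp (algebraMap (PowerSeries k) F)
  have hq : Function.Injective q :=
    (algebraMap F M).injective.comp (IsFractionRing.injective (PowerSeries k) (LaurentSeries k))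
  let A : ValuationSubring K :=
    { carrier := {y | ∃ g, φ y = q g}
      mul_mem' := by
        rintro a b ⟨g, hg⟩ ⟨h, hh⟩
        exact ⟨g * h, by rw [map_mul, map_mul, hg, hh]⟩
      one_mem' := ⟨1, by rw [map_one, map_one]⟩
      add_mem' := by
        rintro a b ⟨g, hg⟩ ⟨h, hh⟩
        exact ⟨g + h, by rw [map_add, map_add, hg, hh]⟩
      zero_mem' := ⟨0, by rw [map_zero, map_zero]⟩
      neg_mem' := by
        rintro a ⟨g, hg⟩
        exact ⟨-g, by rw [map_neg, map_neg, hg]⟩
      mem_or_inv_mem' := by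
        intro y
        obtain ⟨f, hf⟩ := hφ y
        rcases ValuationRing.isInteger_or_isInteger (PowerSeries k) f with ⟨g, hg⟩ | ⟨g, hg⟩
        · left
          exact ⟨g, by rw [hf, ← hg]; rfl⟩
        · right
          exact ⟨g, by rw [map_inv₀, hf, ← map_inv₀, ← hg]; rfl⟩ }
  have hA : ∀ y, y ∈ A ↔ ∃ g, φ y = q g := fun y => Iff.rfl
  have hlt : ∀ y g, φ y = q g → PowerSeries.constantCoeff g = 0 → A.valuation y < 1 := by
    intro y g hg hg0
    rw [← not_le]
    intro h1
    have hy0 : y ≠ 0 := by
      rintro rfl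
      rw [map_zero] at h1
      exact absurd h1 (not_le.2 zero_lt_one)
    have h2 : y⁻¹ ∈ A := by
      rw [← A.valuation_le_one_iff, map_inv₀]
      exact inv_le_one_of_one_le₀ h1
    obtain ⟨g', hg'⟩ := (hA _).1 h2
    have h3 : q (g * g') = q 1 := by
      rw [map_mul, ← hg, ← hg', ← map_mul, mul_inv_cancel₀ hy0, map_one, map_one]
    have h4 := congrArg PowerSeries.constantCoeff (hq h3)
    rw [map_mul, hg0, zero_mul, map_one] at h4
    exact zero_ne_one h4
  have hu1 : A.valuation u < 1 := hlt u PowerSeries.X hu (by simp)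
  have hu0 : u ≠ 0 := by
    rintro rfl
    rw [map_zero] at hu
    have h1 : q 0 = q PowerSeries.X := by rw [map_zero]; exact hu
    exact PowerSeries.X_ne_zero (hq h1).symm
  refine ⟨A, ⟨?_, ?_, ?_⟩, hu1⟩
  · intro h
    have h1 : u⁻¹ ∈ A := by rw [h]; exact ValuationSubring.mem_top _
    rw [← A.valuation_le_one_iff, map_inv₀] at h1
    have h2 : A.valuation u ≠ 0 := (Valuation.ne_zero_iff _).2 hu0
    have h3 : 1 < (A.valuation u)⁻¹ := (one_lt_inv₀ (zero_lt_iff.2 h2)).2 hu1
    exact absurd h1 (not_le.2 h3)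
  · intro c
    exact ⟨PowerSeries.C c, hc c⟩
  · rintro y ⟨g, hg⟩
    refine ⟨PowerSeries.constantCoeff g, hlt _ (g - PowerSeries.C (PowerSeries.constantCoeff g)) ?_
      (by simp)⟩
    rw [map_sub, map_sub, hg, hc]
    rfl

/-- A rational place over the point `x` of the line. -/
theorem exists_rational_place (w : K) (hw : Transcendental k w) (b : κ → k) (c : ι → k)
    (S : ι → Finset κ) (z : ι → K)
    (hz : ∀ i, z i ^ 2 = algebraMap k K (c i) * ∏ j ∈ S i, (w - algebraMap k K (b j)))
    (htop : adjoin k (insert w (Set.range z)) = ⊤)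
    (x : k) (hx : ∀ j, x ≠ b j)
    (he : ∀ i, ∃ e : k, c i * ∏ j ∈ S i, (x - b j) = e ^ 2) :
    ∃ A : ValuationSubring K, IsRationalPlace k K A ∧ A.valuation (w - algebraMap k K x) < 1 := by
  classical
  let F := LaurentSeries k
  let M := AlgebraicClosure F
  let q : PowerSeries k →+* F := algebraMap (PowerSeries k) F
  have hq : Function.Injective q := IsFractionRing.injective (PowerSeries k) (LaurentSeries k)
  have hqk : ∀ c : k, q (PowerSeries.C c) = algebraMap k F c := series_const
  let t : F := algebraMap k F x + q PowerSeries.X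
  have ht : Transcendental k t := by
    intro h
    apply transcendental_T (k := k)
    have h1 : q PowerSeries.X = t - algebraMap k F x := by
      show q PowerSeries.X = algebraMap k F x + q PowerSeries.X - algebraMap k F x
      ring
    show IsAlgebraic k (q PowerSeries.X)
    rw [h1]
    exact h.sub (isAlgebraic_algebraMap x)
  let f : k⟮w⟯ →ₐ[k] F := (k⟮t⟯.val.comp (RatFunc.algEquivOfTranscendental t ht).toAlgHom).comp
    (RatFunc.algEquivOfTranscendental w hw).symm.toAlgHom
  have hfw : f (AdjoinSimple.gen k w) = t := by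
    show ((RatFunc.algEquivOfTranscendental t ht ((RatFunc.algEquivOfTranscendental w hw).symm
      (AdjoinSimple.gen k w)) : k⟮t⟯) : F) = t
    rw [RatFunc.algEquivOfTranscendental_symm_gen, RatFunc.algEquivOfTranscendental_X]
  let _ : Algebra k⟮w⟯ M := ((algebraMap F M).comp f.toRingHom).toAlgebra
  have hwM : ∀ y : k⟮w⟯, algebraMap k⟮w⟯ M y = algebraMap F M (f y) := fun y => rfl
  have htop' : adjoin k⟮w⟯ (Set.range z) = ⊤ := by
    have h1 := adjoin_adjoin_left k {w} (Set.range z)
    rw [Set.singleton_union, htop] at h1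
    rw [eq_top_iff]
    intro y _
    have : y ∈ (adjoin k⟮w⟯ (Set.range z)).restrictScalars k := by
      rw [h1]
      trivial
    exact this
  have halg : Algebra.IsAlgebraic k⟮w⟯ K := by
    have h1 : Algebra.IsAlgebraic k⟮w⟯ (adjoin k⟮w⟯ (Set.range z)) := by
      apply isAlgebraic_adjoin
      rintro _ ⟨i, rfl⟩
      have h2 : IsIntegral k⟮w⟯ (z i ^ 2) := by
        rw [hz i]
        have h3 : algebraMap k K (c i) * ∏ j ∈ S i, (w - algebraMap k K (b j)) =
            algebraMap k⟮w⟯ K (algebraMap k k⟮w⟯ (c i) *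
              ∏ j ∈ S i, (AdjoinSimple.gen k w - algebraMap k k⟮w⟯ (b j))) := by
          rw [map_mul, map_prod]
          rfl
        rw [h3]
        exact isIntegral_algebraMap
      exact h2.of_pow two_pos
    rw [htop'] at h1
    exact ⟨fun y => by
      have h2 := h1.isAlgebraic (⟨y, trivial⟩ : (⊤ : IntermediateField k⟮w⟯ K))
      exact (isAlgebraic_iff (S := ⊤) ).1 h2⟩
  let φ : K →ₐ[k⟮w⟯] M := IsAlgClosed.lift
  have hφw : φ w = algebraMap F M t := by
    have h1 := φ.commutes (AdjoinSimple.gen k w)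
    rw [hwM, hfw] at h1
    exact h1
  have hφc : ∀ c : k, φ (algebraMap k K c) = algebraMap F M (q (PowerSeries.C c)) := by
    intro c
    have h1 := φ.commutes (algebraMap k k⟮w⟯ c)
    rw [hwM, f.commutes] at h1
    rw [hqk]
    exact h1
  have hφb : ∀ j, φ (w - algebraMap k K (b j)) =
      algebraMap F M (q (PowerSeries.C (x - b j) + PowerSeries.X)) := by
    intro j
    rw [map_sub, hφw, hφc, ← map_sub]
    congr 1
    show algebraMap k F x + q PowerSeries.X - q (PowerSeries.C (b j)) = _
    rw [← hqk, map_sub, map_add, map_sub]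
    ring
  have hsub : ∀ j, x - b j ≠ 0 := fun j => sub_ne_zero.2 (hx j)
  choose s hs using fun j => exists_sqrt (hsub j)
  have hφz : ∀ i, ∃ g, φ (z i) = algebraMap F M g := by
    intro i
    obtain ⟨e, hei⟩ := he i
    have h1 : φ (z i) ^ 2 = (algebraMap F M (q (PowerSeries.C e * ∏ j ∈ S i, s j))) ^ 2 := by
      rw [← map_pow, hz i, map_mul, hφc, map_prod, Finset.prod_congr rfl fun j _ => hφb j,
        ← map_prod, ← map_mul, ← map_pow, ← map_pow, ← map_prod, ← map_mul]
      congr 2
      rw [Finset.prod_congr rfl fun j _ => (hs j).symm, Finset.prod_mul_distrib, ← map_prod,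
        ← mul_assoc, ← map_mul, hei, map_pow, mul_pow, Finset.prod_pow]
    rcases sq_eq_sq_iff_eq_or_eq_neg.1 h1 with h2 | h2
    · exact ⟨_, h2⟩
    · exact ⟨-(q (PowerSeries.C e * ∏ j ∈ S i, s j)), by rw [map_neg]; exact h2⟩
  have hφ : ∀ y : K, ∃ g : F, φ y = algebraMap F M g := by
    intro y
    have hy : y ∈ adjoin k (insert w (Set.range z)) := by rw [htop]; trivial
    induction hy using adjoin_induction with
    | mem y hy =>
      rcases hy with rfl | ⟨i, rfl⟩
      · exact ⟨_, hφw⟩
      · exact hφz i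
    | algebraMap c => exact ⟨_, hφc c⟩
    | add a b _ _ ha hb =>
      obtain ⟨g, hg⟩ := ha
      obtain ⟨h, hh⟩ := hb
      exact ⟨g + h, by rw [map_add, map_add, hg, hh]⟩
    | inv a _ ha =>
      obtain ⟨g, hg⟩ := ha
      exact ⟨g⁻¹, by rw [map_inv₀, map_inv₀, hg]⟩
    | mul a b _ _ ha hb =>
      obtain ⟨g, hg⟩ := ha
      obtain ⟨h, hh⟩ := hb
      exact ⟨g * h, by rw [map_mul, map_mul, hg, hh]⟩
  refine exists_place_of_series φ.toRingHom hφc hφ ?_
  show φ (w - algebraMap k K x) = _
  rw [map_sub, hφw, hφc, ← map_sub]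
  congr 1
  show algebraMap k F x + q PowerSeries.X - q (PowerSeries.C x) = _
  rw [hqk]
  ring

end

end Pool.Agent.Lib.MP_c385f6_ag
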