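import Mathlib
import Pool.Agent.Lib.MP_c385f6_ag.PlaceSection

set_option autoImplicit false

/-!
Lifting elements of the Galois group of the constants to the decomposition group of a rational
place.
-/

namespace Pool.Agent.Lib.MP_c385f6_ag

open Polynomial
open scoped Pointwise

section
variable {k K Ω : Type*} [Field k] [CharZero k] [Field K] [Field Ω] [Algebra k K] [Algebra k Ω]
  [Algebra K Ω] [IsScalarTower k K Ω] [IsAlgClosure K Ω]

/-- The prime of the integral closure below `V`. -/
def primeBelow (A : ValuationSubring K) (V : ValuationSubring Ω)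
    (hV : ∀ a ∈ A, algebraMap K Ω a ∈ V) : Ideal (integralClosure A Ω) where
  carrier := {s | V.valuation (s : Ω) < 1}
  zero_mem' := by simp
  add_mem' := by
    intro s t hs ht
    show V.valuation ((s : Ω) + (t : Ω)) < 1
    exact (Valuation.map_add _ _ _).trans_lt (max_lt hs ht)
  smul_mem' := by
    intro s t ht
    show V.valuation ((s : Ω) * (t : Ω)) < 1
    rw [map_mul]
    have h1 : V.valuation (s : Ω) ≤ 1 := (V.valuation_le_one_iff _).2 (integral_mem A hV s.2)
    calc _ ≤ 1 * V.valuation (t : Ω) := by gcongr
      _ < 1 := by rw [one_mul]; exact ht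

omit [CharZero k] [Algebra k K] [Algebra k Ω] [IsScalarTower k K Ω] [IsAlgClosure K Ω] [Field k] in
theorem mem_primeBelow {A : ValuationSubring K} {V : ValuationSubring Ω}
    (hV : ∀ a ∈ A, algebraMap K Ω a ∈ V) (s : integralClosure A Ω) :
    s ∈ primeBelow A V hV ↔ V.valuation (s : Ω) < 1 := Iff.rfl

omit [CharZero k] [Algebra k K] [Algebra k Ω] [IsScalarTower k K Ω] [IsAlgClosure K Ω] [Field k] in
theorem primeBelow_isPrime {A : ValuationSubring K} {V : ValuationSubring Ω}
    (hV : ∀ a ∈ A, algebraMap K Ω a ∈ V) : (primeBelow A V hV).IsPrime := by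
  constructor
  · intro h
    have h1 : (1 : integralClosure A Ω) ∈ primeBelow A V hV := by rw [h]; trivial
    rw [mem_primeBelow] at h1
    simp at h1
  · intro s t hst
    rw [mem_primeBelow] at hst
    by_contra hcon
    push Not at hcon
    simp only [mem_primeBelow, not_lt] at hcon
    have h1 : V.valuation (s : Ω) = 1 :=
      le_antisymm ((V.valuation_le_one_iff _).2 (integral_mem A hV s.2)) hcon.1
    have h2 : V.valuation (t : Ω) = 1 :=
      le_antisymm ((V.valuation_le_one_iff _).2 (integral_mem A hV t.2)) hcon.2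
    rw [MulMemClass.coe_mul, map_mul, h1, h2, one_mul] at hst
    exact lt_irrefl _ hst

omit [CharZero k] [Algebra k K] [Algebra k Ω] [IsScalarTower k K Ω] [IsAlgClosure K Ω] [Field k] in
theorem primeBelow_liesOver {A : ValuationSubring K} {V : ValuationSubring Ω}
    (hV : ∀ a ∈ A, algebraMap K Ω a ∈ V)
    (hV' : ∀ a ∈ A, A.valuation a < 1 → V.valuation (algebraMap K Ω a) < 1) :
    (primeBelow A V hV).LiesOver (IsLocalRing.maximalIdeal A) := by
  constructor
  ext a
  rw [Ideal.mem_comap, mem_primeBelow, ValuationSubring.valuation_lt_one_iff]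
  constructor
  · intro h
    exact hV' a a.2 h
  · intro h
    by_contra hcon
    have h1 : A.valuation (a : K) = 1 :=
      le_antisymm ((A.valuation_le_one_iff _).2 a.2) (not_lt.1 hcon)
    have h2 : IsUnit a := (A.valuation_eq_one_iff a).2 h1
    obtain ⟨b, hb⟩ := h2.exists_right_inv
    have h3 : V.valuation (algebraMap K Ω a) * V.valuation (algebraMap K Ω b) = 1 := by
      rw [← map_mul, ← map_mul]
      have h4 : (a : K) * (b : K) = 1 := congrArg Subtype.val hb
      rw [h4, map_one, map_one]
    have h4 : V.valuation (algebraMap K Ω b) ≤ 1 := (V.valuation_le_one_iff _).2 (hV b b.2)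
    have h5 : V.valuation (algebraMap K Ω a) < 1 := h
    have h6 : V.valuation (algebraMap K Ω a) * V.valuation (algebraMap K Ω b) < 1 := by
      calc _ ≤ V.valuation (algebraMap K Ω a) * 1 := by gcongr
        _ < 1 := by rwa [mul_one]
    exact h6.ne h3

/-- The Galois group of `Ω / K` acts continuously on the integral closure. -/
theorem closureAction_continuous (A : ValuationSubring K)
    [TopologicalSpace (integralClosure A Ω)] [DiscreteTopology (integralClosure A Ω)] :
    letI := closureAction (Ω := Ω) A
    ContinuousSMul (Ω ≃ₐ[K] Ω) (integralClosure A Ω) := by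
  have halg : Algebra.IsAlgebraic K Ω := IsAlgClosure.isAlgebraic
  let _ := closureAction (Ω := Ω) A
  rw [continuousSMul_iff_stabilizer_isOpen]
  intro s
  have h1 := stabilizer_isOpen_of_isIntegral (K := K) (s : Ω)
  convert h1 using 1
  ext σ
  rw [SetLike.mem_coe, SetLike.mem_coe, MulAction.mem_stabilizer_iff, MulAction.mem_stabilizer_iff]
  exact Subtype.ext_iff

/-- The fixed elements of the integral closure. -/
theorem closureAction_invariant [CharZero K] (A : ValuationSubring K) :
    letI := closureAction (Ω := Ω) A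
    Algebra.IsInvariant A (integralClosure A Ω) (Ω ≃ₐ[K] Ω) := by
  have hn : Normal K Ω := IsAlgClosure.normal K Ω
  have hg : IsGalois K Ω := {}
  let _ := closureAction (Ω := Ω) A
  constructor
  intro s hs
  have h1 : (s : Ω) ∈ Set.range (algebraMap K Ω) := by
    rw [InfiniteGalois.mem_range_algebraMap_iff_fixed]
    intro σ
    exact congrArg Subtype.val (hs σ)
  obtain ⟨a, ha⟩ := h1
  have h2 : IsIntegral A (algebraMap K Ω a) := by rw [ha]; exact s.2
  have h3 : IsIntegral A a := (isIntegral_algebraMap_iff (algebraMap K Ω).injective).1 h2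
  obtain ⟨b, hb⟩ := (IsIntegrallyClosed.isIntegral_iff (R := A) (K := K)).1 h3
  refine ⟨b, Subtype.ext ?_⟩
  rw [← ha, ← hb]
  rfl

end

end Pool.Agent.Lib.MP_c385f6_ag
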