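import Mathlib
import Pool.Agent.Lib.MP_c385f6_ag.PlaceLift

set_option autoImplicit false

/-!
The decomposition group of a rational place surjects onto the Galois group of the constants.
-/

namespace Pool.Agent.Lib.MP_c385f6_ag

open Polynomial
open scoped Pointwise

section
variable {k K Ω : Type*} [Field k] [CharZero k] [Field K] [Field Ω] [Algebra k K] [Algebra k Ω]
  [Algebra K Ω] [IsScalarTower k K Ω] [IsAlgClosure K Ω]

omit [CharZero k] [Algebra k K] [Algebra k Ω] [IsScalarTower k K Ω] [IsAlgClosure K Ω] [Field k]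
  [Algebra K Ω] [Field K] [Field Ω] in
theorem surjective_of_isIntegral {F R : Type*} [Field F] [IsAlgClosed F] [CommRing R] [IsDomain R]
    (e : F →+* R) (h : e.IsIntegral) : Function.Surjective e := by
  let _ : Algebra F R := e.toAlgebra
  have _ : Algebra.IsIntegral F R := ⟨h⟩
  exact (IsAlgClosed.algebraMap_bijective_of_isIntegral (k := F) (K := R)).2

/-- The elements of the Galois group that preserve the prime below `V`. -/
def decSub (A : ValuationSubring K) (V : ValuationSubring Ω) : Subgroup (Ω ≃ₐ[K] Ω) where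
  carrier := {σ | ∀ s : Ω, IsIntegral A s → (V.valuation (σ s) < 1 ↔ V.valuation s < 1)}
  one_mem' := fun s _ => Iff.rfl
  mul_mem' := by
    intro σ τ hσ hτ s hs
    have h1 : IsIntegral A (τ s) := IsIntegral.map (τ.toAlgHom.restrictScalars A) hs
    exact (hσ _ h1).trans (hτ s hs)
  inv_mem' := by
    intro σ hσ s hs
    have h1 : IsIntegral A (σ⁻¹ s) := IsIntegral.map (σ⁻¹.toAlgHom.restrictScalars A) hs
    have h2 : σ (σ⁻¹ s) = s := by
      show (σ * σ⁻¹) s = s
      rw [mul_inv_cancel]
      rfl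
    have h3 := hσ _ h1
    rw [h2] at h3
    exact h3.symm

/-- Integral elements are near constants, and the decomposition group surjects onto the Galois
group of the constants. -/
theorem exists_dec_lift {A : ValuationSubring K} (hA : IsRationalPlace k K A) {V : ValuationSubring Ω}
    (hV : ∀ a ∈ A, algebraMap K Ω a ∈ V)
    (hV' : ∀ a ∈ A, A.valuation a < 1 → V.valuation (algebraMap K Ω a) < 1)
    : (∀ s : Ω, IsIntegral A s → ∃ c : algebraicClosure k Ω, V.valuation (s - c) < 1) ∧
      ∀ g : AbsGal k Ω, ∃ σ ∈ decSub A V, ∀ c : algebraicClosure k Ω, σ (c : Ω) = (g c : Ω) := by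
  have hac : IsAlgClosed Ω := IsAlgClosure.isAlgClosed K
  have hack : IsAlgClosed (algebraicClosure k Ω) := IsAlgClosure.isAlgClosed k
  have hcK : CharZero K := charZero_of_injective_algebraMap (algebraMap k K).injective
  have halg : Algebra.IsAlgebraic K Ω := IsAlgClosure.isAlgebraic
  have hn : Normal K Ω := IsAlgClosure.normal K Ω
  have hg : IsGalois K Ω := {}
  let S := integralClosure A Ω
  let P := IsLocalRing.maximalIdeal A
  let Q : Ideal S := primeBelow A V hV
  have hQ : Q.IsPrime := primeBelow_isPrime hV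
  have hQP : Q.LiesOver P := primeBelow_liesOver hV hV'
  let _ : MulSemiringAction (Ω ≃ₐ[K] Ω) S := closureAction A
  let _ : TopologicalSpace S := ⊥
  have _ : DiscreteTopology S := ⟨rfl⟩
  have _ : ContinuousSMul (Ω ≃ₐ[K] Ω) S := closureAction_continuous A
  have _ : Algebra.IsInvariant A S (Ω ≃ₐ[K] Ω) := closureAction_invariant A
  have _ : SMulCommClass (Ω ≃ₐ[K] Ω) A S := by
    constructor
    intro σ a s
    apply Subtype.ext
    show σ (a • (s : Ω)) = a • σ (s : Ω)
    rw [Algebra.smul_def, map_mul, Algebra.smul_def]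
    congr 1
    exact σ.commutes _
  -- constants
  have hconst : ∀ c : algebraicClosure k Ω, IsIntegral A (c : Ω) := by
    intro c
    obtain ⟨p, hp, hpc⟩ : IsIntegral k (c : Ω) := c.2
    let f : k →+* A := (algebraMap k K).codRestrict A hA.const_mem
    refine ⟨p.map f, hp.map f, ?_⟩
    rw [eval₂_map]
    have h1 : (algebraMap A Ω).comp f = algebraMap k Ω := by
      ext x
      exact (IsScalarTower.algebraMap_apply k K Ω x).symm
    rw [h1]
    exact hpc
  let ι : algebraicClosure k Ω →+* S :=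
    { toFun := fun c => ⟨c, hconst c⟩
      map_one' := rfl
      map_mul' := fun _ _ => rfl
      map_zero' := rfl
      map_add' := fun _ _ => rfl }
  let e : algebraicClosure k Ω →+* S ⧸ Q := (Ideal.Quotient.mk Q).comp ι
  -- the residue map
  let j : k →+* IsLocalRing.ResidueField A :=
    (IsLocalRing.residue A).comp ((algebraMap k K).codRestrict A hA.const_mem)
  have hj : Function.Bijective j := by
    refine ⟨j.injective, fun r => ?_⟩
    obtain ⟨a, rfl⟩ := IsLocalRing.residue_surjective r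
    obtain ⟨c, hc⟩ := hA.residue a a.2
    refine ⟨c, ?_⟩
    show IsLocalRing.residue A _ = IsLocalRing.residue A a
    rw [← sub_eq_zero, ← map_sub, IsLocalRing.residue_eq_zero_iff,
      ValuationSubring.valuation_lt_one_iff, ← Valuation.map_neg]
    convert hc using 2
    show -((algebraMap k K c) - (a : K)) = _
    ring
  let ρ : A →+* k := (RingEquiv.ofBijective j hj).symm.toRingHom.comp (IsLocalRing.residue A)
  have hρ : ∀ a : A, A.valuation ((a : K) - algebraMap k K (ρ a)) < 1 := by
    intro a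
    have h1 : j (ρ a) = IsLocalRing.residue A a :=
      (RingEquiv.ofBijective j hj).apply_symm_apply (IsLocalRing.residue A a)
    have h2 : IsLocalRing.residue A (a - (algebraMap k K).codRestrict A hA.const_mem (ρ a)) = 0 := by
      rw [map_sub, ← h1, sub_eq_zero]
      rfl
    rw [IsLocalRing.residue_eq_zero_iff, ValuationSubring.valuation_lt_one_iff] at h2
    exact h2
  have he : e.comp ((algebraMap k (algebraicClosure k Ω)).comp ρ) =
      (Ideal.Quotient.mk Q).comp (algebraMap A S) := by
    ext a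
    show Ideal.Quotient.mk Q (ι (algebraMap k _ (ρ a))) = Ideal.Quotient.mk Q (algebraMap A S a)
    rw [eq_comm, Ideal.Quotient.eq]
    show V.valuation (algebraMap K Ω a - algebraMap k Ω (ρ a)) < 1
    rw [IsScalarTower.algebraMap_apply k K Ω, ← map_sub]
    refine hV' _ ?_ (hρ a)
    exact sub_mem a.2 (hA.const_mem _)
  have hint : ∀ x : S ⧸ Q, ∃ c, e c = x := by
    refine surjective_of_isIntegral (R := S ⧸ Q) e fun x => ?_
    obtain ⟨s, rfl⟩ := Ideal.Quotient.mk_surjective x
    obtain ⟨p, hp, hps⟩ := integralClosure.isIntegral (R := A) (A := Ω) s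
    refine ⟨p.map ((algebraMap k (algebraicClosure k Ω)).comp ρ), hp.map _, ?_⟩
    rw [eval₂_map, he, ← hom_eval₂, hps, map_zero]
  refine ⟨fun s hs => ?_, fun g => ?_⟩
  · obtain ⟨c, hc⟩ := hint (Ideal.Quotient.mk Q ⟨s, hs⟩)
    refine ⟨c, ?_⟩
    have h1 : (⟨s, hs⟩ : S) - ι c ∈ Q := (Ideal.Quotient.eq).1 hc.symm
    exact h1
  let E : algebraicClosure k Ω ≃+* S ⧸ Q := RingEquiv.ofBijective e ⟨e.injective, hint⟩
  let gbar : (S ⧸ Q) ≃ₐ[A ⧸ P] (S ⧸ Q) :=
    AlgEquiv.ofRingEquiv (f := (E.symm.trans g.toRingEquiv).trans E) (by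
      intro r
      obtain ⟨a, rfl⟩ := Ideal.Quotient.mk_surjective r
      have h1 : algebraMap (A ⧸ P) (S ⧸ Q) (Ideal.Quotient.mk P a) =
          E (algebraMap k _ (ρ a)) := (RingHom.congr_fun he a).symm
      rw [h1]
      show E (g (E.symm (E (algebraMap k _ (ρ a))))) = _
      rw [E.symm_apply_apply, g.commutes])
  obtain ⟨⟨σ, hσ⟩, h⟩ :=
    Ideal.Quotient.stabilizerHom_surjective_of_profinite (G := Ω ≃ₐ[K] Ω) P Q gbar
  refine ⟨σ, fun s hs => ?_, fun c => ?_⟩
  · rw [MulAction.mem_stabilizer_iff] at hσ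
    have h1 : σ • (⟨s, hs⟩ : S) ∈ σ • Q ↔ (⟨s, hs⟩ : S) ∈ Q := Ideal.smul_mem_pointwise_smul_iff
    rw [hσ] at h1
    exact h1
  · have h1 := AlgEquiv.congr_fun h (Ideal.Quotient.mk Q (ι c))
    have h2 : gbar (Ideal.Quotient.mk Q (ι c)) = e (g c) := by
      show E (g (E.symm (E c))) = _
      rw [E.symm_apply_apply]
      rfl
    have h3 : (Ideal.Quotient.stabilizerHom Q P (Ω ≃ₐ[K] Ω) ⟨σ, hσ⟩)
        (Ideal.Quotient.mk Q (ι c)) = Ideal.Quotient.mk Q (σ • (ι c)) := rfl
    rw [h2, h3] at h1
    have h4 : σ (c : Ω) ∈ algebraicClosure k Ω := by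
      rw [mem_algebraicClosure_iff]
      exact IsAlgebraic.algHom (σ.toAlgHom.restrictScalars k) c.2.isAlgebraic
    have h5 : e ⟨σ c, h4⟩ = e (g c) := h1
    exact congrArg Subtype.val (e.injective h5)

end

end Pool.Agent.Lib.MP_c385f6_ag
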