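import Mathlib
import Pool.Agent.Lib.MP_c385f6_ag.PlaceSurj

set_option autoImplicit false

/-!
A rational place gives a section.
-/

namespace Pool.Agent.Lib.MP_c385f6_ag

open Polynomial
open scoped Pointwise

section
variable {k K Ω : Type*} [Field k] [CharZero k] [Field K] [Field Ω] [Algebra k K] [Algebra k Ω]
  [Algebra K Ω] [IsScalarTower k K Ω] [IsAlgClosure K Ω]

omit [CharZero k] [Algebra k K] [Algebra k Ω] [IsScalarTower k K Ω] [Field k] in
/-- Conditions on the value at one point are clopen. -/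
theorem isOpen_point (s : Ω) (P : Ω → Prop) : IsOpen {σ : Ω ≃ₐ[K] Ω | P (σ s)} := by
  have halg : Algebra.IsAlgebraic K Ω := IsAlgClosure.isAlgebraic
  have h1 := stabilizer_isOpen_of_isIntegral (K := K) s
  rw [isOpen_iff_forall_mem_open]
  intro σ hσ
  refine ⟨(fun τ => σ * τ) '' (MulAction.stabilizer (Ω ≃ₐ[K] Ω) s : Set (Ω ≃ₐ[K] Ω)), ?_, ?_, ?_⟩
  · rintro _ ⟨τ, hτ, rfl⟩
    have h2 : τ s = s := hτ
    show P ((σ * τ) s)
    have h3 : (σ * τ) s = σ (τ s) := rfl
    rw [h3, h2]
    exact hσ
  · exact (Homeomorph.mulLeft σ).isOpenMap _ h1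
  · exact ⟨1, one_mem _, mul_one σ⟩

omit [CharZero k] [Algebra k K] [Algebra k Ω] [IsScalarTower k K Ω] [Field k] in
theorem decSub_isClosed (A : ValuationSubring K) (V : ValuationSubring Ω) :
    IsClosed (decSub A V : Set (Ω ≃ₐ[K] Ω)) := by
  have h1 : (decSub A V : Set (Ω ≃ₐ[K] Ω)) = ⋂ (s : Ω) (_ : IsIntegral A s),
      {σ : Ω ≃ₐ[K] Ω | V.valuation (σ s) < 1 ↔ V.valuation s < 1} := by
    ext σ
    simp only [Set.mem_iInter]
    exact Iff.rfl
  rw [h1]
  refine isClosed_iInter fun s => isClosed_iInter fun _ => ?_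
  rw [← isOpen_compl_iff]
  exact isOpen_point s fun t => ¬ (V.valuation t < 1 ↔ V.valuation s < 1)

variable (k K Ω) in
/-- Restriction to the constants. -/
noncomputable def resConst [Normal k (algebraicClosure k Ω)] : (Ω ≃ₐ[K] Ω) →* AbsGal k Ω :=
  (AlgEquiv.restrictNormalHom (algebraicClosure k Ω)).comp (AlgEquiv.restrictScalarsHom k)

omit [CharZero k] [IsAlgClosure K Ω] in
theorem resConst_apply [Normal k (algebraicClosure k Ω)] (σ : Ω ≃ₐ[K] Ω)
    (c : algebraicClosure k Ω) : ((resConst k K Ω σ c : algebraicClosure k Ω) : Ω) = σ c :=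
  AlgEquiv.restrictNormal_commutes (σ.restrictScalars k) (algebraicClosure k Ω) c

omit [CharZero k] in
theorem resConst_continuous [Normal k (algebraicClosure k Ω)] :
    Continuous (resConst k K Ω) := by
  apply continuous_of_continuousAt_one _ (continuousAt_def.mpr _)
  intro N hN
  rw [map_one, krullTopology_mem_nhds_one_iff] at hN
  obtain ⟨L, hL, hO⟩ := hN
  obtain ⟨b⟩ : Nonempty (Module.Basis (Module.Free.ChooseBasisIndex k L) k L) :=
    ⟨Module.Free.chooseBasis k L⟩
  have h1 : IsOpen (⋂ i, {σ : Ω ≃ₐ[K] Ω | σ ((b i : algebraicClosure k Ω) : Ω) =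
      ((b i : algebraicClosure k Ω) : Ω)}) :=
    isOpen_iInter_of_finite fun i => isOpen_point _ fun t => t = _
  refine mem_nhds_iff.2 ⟨_, ?_, h1, by simp⟩
  intro σ hσ
  apply hO
  simp only [SetLike.mem_coe, IntermediateField.mem_fixingSubgroup_iff]
  intro y hy
  have h2 : ((resConst k K Ω σ).toLinearMap.comp L.val.toLinearMap : L →ₗ[k] _) =
      L.val.toLinearMap := by
    apply b.ext
    intro i
    apply Subtype.ext
    show ((resConst k K Ω σ (b i : algebraicClosure k Ω) : algebraicClosure k Ω) : Ω) = _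
    rw [resConst_apply]
    exact Set.mem_iInter.1 hσ i
  exact LinearMap.congr_fun h2 ⟨y, hy⟩

/-- **A rational place gives a section.** -/
theorem exists_section {A : ValuationSubring K} (hA : IsRationalPlace k K A) :
    ∃ s : AbsGal k Ω →* PiOne k K Ω, IsSection k K Ω s := by
  have hac : IsAlgClosed Ω := IsAlgClosure.isAlgClosed K
  have hcK : CharZero K := charZero_of_injective_algebraMap (algebraMap k K).injective
  have halg : Algebra.IsAlgebraic K Ω := IsAlgClosure.isAlgebraic
  have hn : Normal K Ω := IsAlgClosure.normal K Ω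
  have hg : IsGalois K Ω := {}
  have _ : Normal k (algebraicClosure k Ω) := IsAlgClosure.normal k _
  have _ : Normal K (maxUnramified k K Ω) := normal_maxUnramified k K Ω
  obtain ⟨V, hV, hV'⟩ := exists_above (Ω := Ω) A
  obtain ⟨hnear, hlift⟩ := exists_dec_lift hA hV hV'
  have hVk : ∀ c : k, algebraMap k Ω c ∈ V := by
    intro c
    rw [IsScalarTower.algebraMap_apply k K Ω]
    exact hV _ (hA.const_mem c)
  let D := decSub A V
  let ρ : D →* AbsGal k Ω := (resConst k K Ω).comp D.subtype
  let θ : D →* PiOne k K Ω := (AlgEquiv.restrictNormalHom (maxUnramified k K Ω)).comp D.subtype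
  have hρc : Continuous ρ := resConst_continuous.comp continuous_subtype_val
  have hθc : Continuous θ :=
    (InfiniteGalois.restrictNormalHom_continuous _).comp continuous_subtype_val
  have hθ : ∀ (d : D) (z : maxUnramified k K Ω), ((θ d z : maxUnramified k K Ω) : Ω) = d.1 z :=
    fun d z => AlgEquiv.restrictNormal_commutes d.1 (maxUnramified k K Ω) z
  have hρ : ∀ (d : D) (c : algebraicClosure k Ω), ((ρ d c : algebraicClosure k Ω) : Ω) = d.1 c :=
    fun d c => resConst_apply d.1 c
  have hsurj : Function.Surjective ρ := by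
    intro g
    obtain ⟨σ, hσ, h⟩ := hlift g
    refine ⟨⟨σ, hσ⟩, ?_⟩
    ext c
    rw [hρ]
    exact h c
  have hker : ρ.ker ≤ θ.ker := by
    intro d hd
    rw [MonoidHom.mem_ker] at hd ⊢
    have h1 : ∀ c : algebraicClosure k Ω, d.1 (c : Ω) = c := by
      intro c
      rw [← hρ, hd]
      rfl
    have h2 : d.1 ∈ inertia K V := by
      refine mem_inertia A hV fun s hs => ?_
      obtain ⟨c, hc⟩ := hnear s hs
      have hcint : IsIntegral A (c : Ω) := by
        obtain ⟨p, hp, hpc⟩ : IsIntegral k (c : Ω) := c.2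
        let f : k →+* A := (algebraMap k K).codRestrict A hA.const_mem
        refine ⟨p.map f, hp.map f, ?_⟩
        rw [eval₂_map]
        have h1 : (algebraMap A Ω).comp f = algebraMap k Ω := by
          ext x
          exact (IsScalarTower.algebraMap_apply k K Ω x).symm
        rw [h1]
        exact hpc
      have h3 : V.valuation (d.1 (s - c)) < 1 := (d.2 _ (hs.sub hcint)).2 hc
      have h4 : d.1 s - s = d.1 (s - c) - (s - c) := by
        rw [map_sub, h1]
        ring
      rw [h4]
      exact (Valuation.map_sub _ _ _).trans_lt (max_lt h3 hc)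
    ext z
    rw [hθ]
    exact inertia_ur hVk h2 z.2
  have hcompact : CompactSpace D :=
    isCompact_iff_compactSpace.1 (decSub_isClosed A V).isCompact
  have hquot : Topology.IsQuotientMap ρ :=
    (hρc.isClosedMap).isQuotientMap hρc hsurj
  let s : AbsGal k Ω →* PiOne k K Ω := ρ.liftOfSurjective hsurj ⟨θ, hker⟩
  have hs : ∀ d, s (ρ d) = θ d := fun d => by
    have := MonoidHom.liftOfRightInverse_comp_apply ρ _ (Function.rightInverse_surjInv hsurj)
      ⟨θ, hker⟩ d
    exact this
  refine ⟨s, ⟨?_, ?_⟩⟩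
  · rw [hquot.continuous_iff]
    have h1 : (s ∘ ρ : D → PiOne k K Ω) = θ := funext hs
    rw [h1]
    exact hθc
  · intro g c z hz
    obtain ⟨d, rfl⟩ := hsurj g
    rw [hs, hθ, hρ, hz]

end

end Pool.Agent.Lib.MP_c385f6_ag
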