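import Mathlib
import Pool.Agent.Lib.MP_c385f6_ag.FormsConics

set_option autoImplicit false

/-!
Elementary abelian `2`-covers of the line branched over rational points `b j` and infinity: the
linear forms `w - b j` and `1`.
-/

namespace Pool.Agent.Lib.MP_c385f6_ag

open Finset

section
variable {k K Ω ι κ : Type*} [Field k] [CharZero k] [Field K] [Algebra k K]

/-- The leading coefficients of the forms `w - b j`, `j : κ`, and `1`. -/
def bal (k : Type*) {κ : Type*} [Field k] : Option κ → k := fun o => o.elim 0 fun _ => 1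

/-- The constant coefficients of the forms `w - b j`, `j : κ`, and `1`. -/
def bbe (b : κ → k) : Option κ → k := fun o => o.elim 1 fun j => -b j

omit [CharZero k] in
theorem form_some (b : κ → k) (w : K) (j : κ) :
    form (bal k) (bbe b) w (some j) = w - algebraMap k K (b j) := by
  simp [form, bal, bbe, sub_eq_add_neg]

omit [CharZero k] in
theorem form_none (b : κ → k) (w : K) : form (bal k) (bbe b) w none = 1 := by
  simp [form, bal, bbe]

omit [CharZero k] in
theorem branch_ne {b : κ → k} (hb : Function.Injective b) (i j : Option κ) (hij : i ≠ j) :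
    bal k i * bbe b j ≠ bal k j * bbe b i := by
  rcases i with _ | i <;> rcases j with _ | j
  · exact absurd rfl hij
  · simp [bal, bbe]
  · simp [bal, bbe]
  · simp only [bal, bbe, Option.elim_some, one_mul, ne_eq, neg_inj]
    intro h
    exact hij (by rw [hb h])

omit [CharZero k] in
/-- Even ramification over the branch points. -/
theorem branch_ram {b : κ → k} (hb : Function.Injective b) {w : K}
    (hw : ∀ j, w ≠ algebraMap k K (b j)) {c : ι → k} (hc : ∀ i, c i ≠ 0)
    {S : ι → Finset κ} {z : ι → K}
    (hz : ∀ i, z i ^ 2 = algebraMap k K (c i) * ∏ j ∈ S i, (w - algebraMap k K (b j)))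
    (hcov : ∀ j, ∃ i, j ∈ S i) (hodd : ∃ i, Odd (S i).card)
    (A : ValuationSubring K) (hA : ∀ c : k, algebraMap k K c ∈ A) (j : Option κ) :
    ∃ h : K, h ≠ 0 ∧
      ((w ∈ A ∧ A.valuation (form (bal k) (bbe b) w j) = A.valuation (h ^ 2)) ∨
        (w ∉ A ∧ A.valuation (form (bal k) (bbe b) w j) = A.valuation (w * h ^ 2))) := by
  classical
  have hcv : ∀ c : k, A.valuation (algebraMap k K c) ≤ 1 := fun c =>
    (A.valuation_le_one_iff _).2 (hA c)
  have hcv1 : ∀ c : k, c ≠ 0 → A.valuation (algebraMap k K c) = 1 := by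
    intro c hc
    refine le_antisymm (hcv c) ?_
    have h1 := hcv c⁻¹
    rw [map_inv₀, map_inv₀] at h1
    have h2 : A.valuation (algebraMap k K c) ≠ 0 :=
      (Valuation.ne_zero_iff _).2 ((map_ne_zero _).2 hc)
    exact (inv_le_one₀ (zero_lt_iff.2 h2)).1 h1
  have hz0 : ∀ i, z i ≠ 0 := by
    intro i h
    have h1 := hz i
    rw [h, zero_pow two_ne_zero] at h1
    refine mul_ne_zero ((map_ne_zero _).2 (hc i)) ?_ h1.symm
    exact Finset.prod_ne_zero_iff.2 fun j _ => sub_ne_zero.2 (hw j)
  by_cases hwA : w ∈ A
  · rcases j with _ | j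
    · exact ⟨1, one_ne_zero, Or.inl ⟨hwA, by rw [form_none]; simp⟩⟩
    · rw [form_some]
      have hle : ∀ j, A.valuation (w - algebraMap k K (b j)) ≤ 1 := fun j =>
        (A.valuation_le_one_iff _).2 (sub_mem hwA (hA _))
      rcases (hle j).lt_or_eq with h1 | h1
      · -- the other factors are units
        have h2 : ∀ i, i ≠ j → A.valuation (w - algebraMap k K (b i)) = 1 := by
          intro i hij
          have h3 : w - algebraMap k K (b i) =
              (w - algebraMap k K (b j)) + algebraMap k K (b j - b i) := by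
            rw [map_sub]
            ring
          have h4 := hcv1 (b j - b i) (sub_ne_zero.2 fun h => hij (hb h).symm)
          rw [h3, Valuation.map_add_eq_of_lt_right _ (by rw [h4]; exact h1), h4]
        obtain ⟨i, hi⟩ := hcov j
        refine ⟨z i, hz0 i, Or.inl ⟨hwA, ?_⟩⟩
        rw [hz i, map_mul, hcv1 _ (hc i), one_mul, map_prod,
          Finset.prod_eq_single_of_mem j hi fun l _ hl => h2 l hl]
      · exact ⟨1, one_ne_zero, Or.inl ⟨hwA, by simp [h1]⟩⟩
  · have hw1 : 1 < A.valuation w := by
      rw [← not_le, A.valuation_le_one_iff]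
      exact hwA
    have hval : ∀ j, A.valuation (w - algebraMap k K (b j)) = A.valuation w := by
      intro j
      rw [sub_eq_add_neg, ← map_neg (algebraMap k K)]
      exact Valuation.map_add_eq_of_lt_left _ ((hcv _).trans_lt hw1)
    rcases j with _ | j
    · obtain ⟨i, m, hm⟩ := hodd
      have hw0 : w ≠ 0 := by
        rintro rfl
        exact hwA A.zero_mem
      refine ⟨w ^ m / z i, div_ne_zero (pow_ne_zero _ hw0) (hz0 i), Or.inr ⟨hwA, ?_⟩⟩
      have h1 : A.valuation (z i ^ 2) = A.valuation w ^ (2 * m + 1) := by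
        rw [hz i, map_mul, hcv1 _ (hc i), one_mul, map_prod,
          Finset.prod_congr rfl fun j _ => hval j, Finset.prod_const, hm]
      rw [form_none, map_one, map_mul, map_pow, map_div₀, div_pow, ← map_pow _ (z i), h1, map_pow,
        ← pow_mul, mul_comm m 2, ← mul_div_assoc, ← pow_succ', div_self]
      exact pow_ne_zero _ ((Valuation.ne_zero_iff _).2 hw0)
    · rw [form_some]
      exact ⟨1, one_ne_zero, Or.inr ⟨hwA, by rw [one_pow, mul_one]; exact hval j⟩⟩

variable [Field Ω] [Algebra k Ω] [Algebra K Ω] [IsScalarTower k K Ω] [IsAlgClosure K Ω]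

/-- The twists of a section: `Y j ^ 2 = D j * (w - b j)`, and all conics belonging to two branch
points and infinity have rational points as soon as two of the `D j` differ by a square. -/
theorem branch_twists {b : κ → k} (hb : Function.Injective b) {w : K}
    (hw : ∀ j, w ≠ algebraMap k K (b j)) {c : ι → k} (hc : ∀ i, c i ≠ 0)
    {S : ι → Finset κ} {z : ι → K}
    (hz : ∀ i, z i ^ 2 = algebraMap k K (c i) * ∏ j ∈ S i, (w - algebraMap k K (b j)))
    (hcov : ∀ j, ∃ i, j ∈ S i) (hodd : ∃ i, Odd (S i).card)
    {s : AbsGal k Ω →* PiOne k K Ω} (hs : IsSection k K Ω s) :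
    ∃ (D : κ → k) (Y : κ → maxUnramified k K Ω), (∀ j, D j ≠ 0) ∧ (∀ j g, s g (Y j) = Y j) ∧
      (∀ j, (Y j : Ω) ^ 2 = algebraMap k Ω (D j) * algebraMap K Ω (w - algebraMap k K (b j))) ∧
      ((∃ i j, i ≠ j ∧ ∃ e : k, e ≠ 0 ∧ D i = D j * e ^ 2) →
        ∀ i j, i ≠ j → ∃ X Y : k, D i * X ^ 2 - D j * Y ^ 2 = b j - b i) := by
  classical
  have hram := branch_ram hb hw hc hz hcov hodd
  obtain ⟨d, Y, hd, hYs, hY⟩ := exists_twists (α := bal k) (β := bbe b) hram hs none
  refine ⟨fun j => d (some j) * d none, fun j => Y (some j) * Y none,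
    fun j => mul_ne_zero (hd _) (hd _), fun j g => by rw [map_mul, hYs, hYs], fun j => ?_, ?_⟩
  · have h1 := hY (some j)
    have h2 := hY none
    rw [form_some, form_none, div_one] at h1
    rw [form_none, div_one, map_one, mul_one] at h2
    show ((Y (some j) : Ω) * (Y none : Ω)) ^ 2 = _
    rw [mul_pow, h1, h2, map_mul]
    ring
  · rintro ⟨i, j, hij, e, he, h⟩
    have hij' : some i ≠ some j := fun h => hij (Option.some_injective _ h)
    have hpt : ConicPoint (bal k) (bbe b) d (some i) (some j) none := by
      have h1 : d (some i) = d (some j) * e ^ 2 := mul_right_cancel₀ (hd none) (by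
        linear_combination h)
      unfold ConicPoint
      refine exists_point_of_sq (t := e) ?_ ?_ ?_
      · simp [bal, bbe, hd]
      · simp [bal, bbe, hd]
      · have h3 := hd none
        have h4 := hd (some j)
        simp only [bal, bbe, Option.elim_some, Option.elim_none]
        rw [h1]
        field_simp
        ring
    intro i' j' hij''
    have hij3 : some i' ≠ some j' := fun h => hij'' (Option.some_injective _ h)
    obtain ⟨r, t, hrt⟩ := forms_conics (branch_ne hb) hram hs hd hYs hY hij'
      (Option.some_ne_none j) (Option.some_ne_none i) hpt hij3 (Option.some_ne_none j')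
      (Option.some_ne_none i')
    refine ⟨r / d (some i'), t / d (some j'), ?_⟩
    have h1 := hd (some i')
    have h2 := hd (some j')
    simp only [bal, bbe, Option.elim_some, Option.elim_none] at hrt
    have h3 : (d (some i') * d (some j')) * (d (some i') * d none * (r / d (some i')) ^ 2 -
        d (some j') * d none * (t / d (some j')) ^ 2) =
        (d (some i') * d (some j')) * (b j' - b i') := by
      field_simp
      linear_combination hrt
    exact mul_left_cancel₀ (mul_ne_zero h1 h2) h3

end

end Pool.Agent.Lib.MP_c385f6_ag
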